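import Pool.Agent.Lib.MP_8f66f0_al_HierZ.ClassN
import Pool.Agent.Lib.MP_8f66f0_al_WaldP.FinalK
import Pool.Agent.Lib.MP_8f66f0_al_WaldL.WhKL
import Mathlib.GroupTheory.HNNExtension

/-! The class of groups with vanishing Whitehead groups. -/

set_option autoImplicit false

namespace Pool.Agent.Hier

open Pool.Agent.Wald Pool.Agent.WaldL Pool.Agent.WaldP Pool.Agent.Ind

/-- The least class of groups which contains all groups `Γ` such that `K_1(LΓ)` is generated by
the units of `L` and the elements of `Γ` for all Euclidean domains `L` (for example the trivial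
group), and is closed under directed colimits with arbitrary structure maps, and under those
amalgams `G₀ *_E G₁` and HNN extensions `G *_A` of groups of the class for which the edge group `E`
(or `A`) is in the class and, for some `k`, the stabilizers of all reduced paths with `k + 1` edges
in the Bass-Serre tree are contained in subgroups which belong to `NN`. -/
inductive KC : (Γ : Type) → [Group Γ] → Prop
  | base {Γ : Type} [Group Γ] : (∀ (L : Type) [CommRing L] [IsDomain L], IsEuc L →
      K1Units L Γ) → KC Γ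
  | colim {Γ : Type} [Group Γ] {ι : Type} [Preorder ι] [IsDirectedOrder ι] [Nonempty ι]
      (H : ι → Type) [∀ i, Group (H i)] (t : ∀ i j, i ≤ j → H i →* H j) (f : ∀ i, H i →* Γ) :
      (∀ i j (h : i ≤ j) x, f j (t i j h x) = f i x) →
      (∀ i j k (h : i ≤ j) (h' : j ≤ k) x, t j k h' (t i j h x) = t i k (h.trans h') x) →
      (∀ g : Γ, ∃ i, ∃ x, f i x = g) → (∀ i x, f i x = 1 → ∃ j, ∃ h : i ≤ j, t i j h x = 1) →
      (∀ i, KC (H i)) → KC Γ
  | amalgam (G : Bool → Type) [∀ i, Group (G i)] (E : Type) [Group E] (φ : ∀ i, E →* G i)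
      (k : ℕ) : (∀ i, Function.Injective (φ i)) → (∀ i, KC (G i)) → KC E →
      (∀ i, ∀ w ∈ Alt φ k i, ∃ D : Subgroup (Monoid.PushoutI φ),
        (Monoid.PushoutI.base φ).range ⊓ cj w (Monoid.PushoutI.base φ).range ≤ D ∧ NN D) →
      KC (Monoid.PushoutI φ)
  | hnn (G : Type) [Group G] (A B : Subgroup G) (φ : A ≃* B) (k : ℕ) : KC G → KC A →
      (∀ i, ∀ w ∈ AltH φ k i, ∃ D : Subgroup (HNNExtension G A B φ),
        ((HNNExtension.of (φ := φ)).comp B.subtype).range ⊓
          cj w ((HNNExtension.of (φ := φ)).comp B.subtype).range ≤ D ∧ NN D) →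
      KC (HNNExtension G A B φ)

end Pool.Agent.Hier
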