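import Pool.Agent.Lib.MP_8f66f0_al_HierZ.All
import Pool.Agent.Lib.MP_8f66f0_al_HierZ.ClassD
import Pool.Agent.Lib.MP_8f66f0_al_Hier.Colim
import Pool.Agent.Lib.MP_8f66f0_al_Hier.KKG
import Pool.Agent.Lib.MP_8f66f0_al_WaldP.ClassK
import Pool.Agent.Lib.MP_8f66f0_al_WaldL.CdFree

/-! The final classes: groups with vanishing Nil groups, and groups whose Whitehead groups vanish
over all Euclidean domains. -/

set_option autoImplicit false

namespace Pool.Agent.Hier

open Pool.Agent.Wald Pool.Agent.WaldL Pool.Agent.WaldP Pool.Agent.WaldT Pool.Agent.Ind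

theorem all_fam : S_fam := fam split (famfin (add split) twp) twp

/-- All groups of the class `NN` are in `SS`. -/
theorem ss_of_nn {E : Type} [Group E] (h : NN E) : SS E := by
  induction h with
  | cd n h => exact ss_cd n h
  | iso e _ ih => exact ss_iso e ih
  | directed S hne hd hS _ ih => exact ss_directed S hne hd hS ih
  | amalgam G E φ hφ _ ih => exact ss_pushout G E φ hφ ih
  | hnn G A B φ _ ih => exact ss_hnn G A B φ ih
  | res 𝒞 n _ hres ih => exact ss_exp 𝒞 ih n hres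

theorem kk_of_kc {Γ : Type} [Group Γ] (h : KC Γ) : KK Γ := by
  have h4 : S_One := fun L _ _ hL G _ _ => whTL_one hL G
  induction h with
  | base h => exact fun L _ _ hL => (k1Units_iff L _).1 (h L hL)
  | colim H t f hf htt hs hker _ ih => exact kk_colim t f hf htt hs hker ih
  | amalgam G E φ k hφ _ _ hE ih ihE =>
    exact kk_pushout_g all_fam h4 G E φ hφ ih (fun L _ _ hL => kk_projSF psf_all ihE L hL) k
      fun i w hw => by
        obtain ⟨D, h5, h6⟩ := hE i w hw
        exact ⟨D, h5, ss_of_nn h6⟩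
  | hnn G A B φ k _ _ hA ih ihA =>
    exact kk_hnn_g all_fam h4 G A B φ ih (fun L _ _ hL => kk_projSF psf_all ihA L hL) k
      fun i w hw => by
        obtain ⟨D, h5, h6⟩ := hA i w hw
        exact ⟨D, h5, ss_of_nn h6⟩

/-- For all groups of the class and all Euclidean domains `L`, `K_1(LΓ)` is generated by the units
of `L` and the elements of `Γ`. -/
theorem kc_main {Γ : Type} [Group Γ] (h : KC Γ) (L : Type) [CommRing L] [IsDomain L]
    (hL : IsEuc L) : K1Units L Γ :=
  (k1Units_iff L Γ).2 (kk_of_kc h L hL)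

/-- All finitely generated projective modules are stably free. -/
theorem kc_projSF {Γ : Type} [Group Γ] (h : KC Γ) (L : Type) [CommRing L] [IsDomain L]
    (hL : IsEuc L) : ProjSF (MonoidAlgebra L Γ) :=
  kk_projSF psf_all (kk_of_kc h) L hL

/-- The trivial group is in the class. -/
theorem kc_triv (Γ : Type) [Group Γ] [Subsingleton Γ] : KC Γ :=
  KC.base fun L _ _ hL => (k1Units_iff L Γ).2 (whTL_one hL Γ)

theorem kc_iso {Γ Γ' : Type} [Group Γ] [Group Γ'] (e : Γ ≃* Γ') (h : KC Γ) : KC Γ' := by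
  refine KC.colim (ι := Unit) (fun _ => Γ) (fun _ _ _ => MonoidHom.id Γ) (fun _ => e.toMonoidHom)
    (fun _ _ _ _ => rfl) (fun _ _ _ _ _ _ => rfl) (fun g => ⟨(), e.symm g, e.apply_symm_apply g⟩)
    (fun i x hx => ⟨(), le_rfl, ?_⟩) fun _ => h
  exact e.injective (hx.trans (map_one e).symm)

/-- Amalgams whose edge group is in the class and in `NN`. -/
theorem kc_pushout (G : Bool → Type) [∀ i, Group (G i)] (E : Type) [Group E]
    (φ : ∀ i, E →* G i) (hφ : ∀ i, Function.Injective (φ i)) (hG : ∀ i, KC (G i)) (hE : KC E)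
    (hE' : NN E) : KC (Monoid.PushoutI φ) := by
  refine KC.amalgam G E φ 0 hφ hG hE fun i w _ => ⟨(Monoid.PushoutI.base φ).range, inf_le_left, ?_⟩
  exact NN.iso (MonoidHom.ofInjective (Monoid.PushoutI.base_injective hφ)) hE'

theorem kc_hnn (G : Type) [Group G] (A B : Subgroup G) (φ : A ≃* B) (hG : KC G) (hA : KC A)
    (hA' : NN A) : KC (HNNExtension G A B φ) := by
  refine KC.hnn G A B φ 0 hG hA fun i w _ =>
    ⟨((HNNExtension.of (φ := φ)).comp B.subtype).range, inf_le_left, ?_⟩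
  have hinj : Function.Injective ((HNNExtension.of (φ := φ)).comp B.subtype) :=
    (HNNExtension.of_injective φ).comp Subtype.val_injective
  exact NN.iso (φ.trans (MonoidHom.ofInjective hinj)) hA'

/-- Amalgams which are in `NN` themselves, with any edge group in the class. -/
theorem kc_pushout_nn (G : Bool → Type) [∀ i, Group (G i)] (E : Type) [Group E]
    (φ : ∀ i, E →* G i) (hφ : ∀ i, Function.Injective (φ i)) (hG : ∀ i, KC (G i)) (hE : KC E)
    (hG' : ∀ i, NN (G i)) : KC (Monoid.PushoutI φ) :=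
  KC.amalgam G E φ 0 hφ hG hE fun _ _ _ =>
    ⟨⊤, le_top, NN.iso Subgroup.topEquiv.symm (NN.amalgam G E φ hφ hG')⟩

theorem kc_hnn_nn (G : Type) [Group G] (A B : Subgroup G) (φ : A ≃* B) (hG : KC G) (hA : KC A)
    (hG' : NN G) : KC (HNNExtension G A B φ) :=
  KC.hnn G A B φ 0 hG hA fun _ _ _ =>
    ⟨⊤, le_top, NN.iso Subgroup.topEquiv.symm (NN.hnn G A B φ hG')⟩

/-- Hierarchical groups: the least class of groups which contains the trivial group and is closed
under isomorphism, directed unions, amalgams and HNN extensions (all groups in the class). -/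
inductive Hi : (Γ : Type) → [Group Γ] → Prop
  | triv {Γ : Type} [Group Γ] [Subsingleton Γ] : Hi Γ
  | iso {Γ Γ' : Type} [Group Γ] [Group Γ'] (e : Γ ≃* Γ') : Hi Γ → Hi Γ'
  | directed {Γ : Type} [Group Γ] (S : Set (Subgroup Γ)) : S.Nonempty →
      DirectedOn (· ≤ ·) S → (∀ g : Γ, ∃ K ∈ S, g ∈ K) → (∀ K ∈ S, Hi K) → Hi Γ
  | amalgam (G : Bool → Type) [∀ i, Group (G i)] (E : Type) [Group E] (φ : ∀ i, E →* G i) :
      (∀ i, Function.Injective (φ i)) → (∀ i, Hi (G i)) → Hi E → Hi (Monoid.PushoutI φ)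
  | hnn (G : Type) [Group G] (A B : Subgroup G) (φ : A ≃* B) : Hi G → Hi A →
      Hi (HNNExtension G A B φ)

theorem kc_directed {Γ : Type} [Group Γ] (S : Set (Subgroup Γ)) (hne : S.Nonempty)
    (hd : DirectedOn (· ≤ ·) S) (hS : ∀ g : Γ, ∃ K ∈ S, g ∈ K) (h : ∀ K ∈ S, KC K) : KC Γ := by
  have : Nonempty S := hne.to_subtype
  have : IsDirectedOrder S := ⟨fun a b => by
    obtain ⟨c, hc, h1, h2⟩ := hd a.1 a.2 b.1 b.2
    exact ⟨⟨c, hc⟩, h1, h2⟩⟩
  refine KC.colim (ι := S) (fun K => K.1) (fun i j hij => Subgroup.inclusion hij)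
    (fun K => K.1.subtype) (fun _ _ _ _ => rfl) (fun _ _ _ _ _ _ => rfl) (fun g => ?_)
    (fun i x hx => ⟨i, le_rfl, ?_⟩) fun K => h K.1 K.2
  · obtain ⟨K, hK, hg⟩ := hS g
    exact ⟨⟨K, hK⟩, ⟨g, hg⟩, rfl⟩
  · have h1 : x = 1 := Subtype.ext hx
    rw [h1, map_one]

theorem hi_both {Γ : Type} [Group Γ] (h : Hi Γ) : KC Γ ∧ NN Γ := by
  induction h with
  | triv => exact ⟨kc_triv _, NN.cd 0 cdLE_trivial⟩
  | iso e _ ih => exact ⟨kc_iso e ih.1, NN.iso e ih.2⟩
  | directed S hne hd hS _ ih =>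
    exact ⟨kc_directed S hne hd hS fun K hK => (ih K hK).1,
      NN.directed S hne hd hS fun K hK => (ih K hK).2⟩
  | amalgam G E φ hφ _ _ ih ihE =>
    exact ⟨kc_pushout G E φ hφ (fun i => (ih i).1) ihE.1 ihE.2,
      NN.amalgam G E φ hφ fun i => (ih i).2⟩
  | hnn G A B φ _ _ ih ihA =>
    exact ⟨kc_hnn G A B φ ih.1 ihA.1 ihA.2, NN.hnn G A B φ ih.2⟩

end Pool.Agent.Hier
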