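import Pool.Agent.Lib.MP_8f66f0_al_HierZ.FinalD
import Pool.Agent.Lib.MP_8f66f0_al_HierZ.ClassS

/-! The final theorem in terms of the self-contained definitions. -/

set_option autoImplicit false

namespace Pool.Agent.WhVan

open Pool.Agent

theorem exP_of_res {E : Type} [Group E] {𝒞 : Subgroup E → Prop} {P : Type} [AddCommGroup P]
    [DistribMulAction E P] (h : Res 𝒞 P) : ∃ n, Hier.ExP E 𝒞 n P := by
  induction h with
  | perm h => exact ⟨0, h⟩
  | step i r hi hir hr hF _ ih =>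
    obtain ⟨n, hn⟩ := ih
    exact ⟨n + 1, _, _, _, _, _, _, i, r, hi, hir, hr, hF, hn⟩

theorem exP_triv {E : Type} [Group E] {𝒞 : Subgroup E → Prop} (h : Res 𝒞 (TrivZ E)) :
    ∃ n, Hier.ExP E 𝒞 n (Hier.TrivZ E) := exP_of_res h

theorem nn_of_NN {E : Type} [Group E] (h : NN E) : Hier.NN E := by
  induction h with
  | cd n h => exact Hier.NN.cd n h
  | iso e _ ih => exact Hier.NN.iso e ih
  | directed S hne hd hS _ ih => exact Hier.NN.directed S hne hd hS ih
  | amalgam G E φ hφ _ ih => exact Hier.NN.amalgam G E φ hφ ih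
  | hnn G A B φ _ ih => exact Hier.NN.hnn G A B φ ih
  | res 𝒞 _ hres ih =>
    obtain ⟨n, hn⟩ := exP_triv hres
    exact Hier.NN.res 𝒞 n ih hn

theorem red_of_alt {G : Bool → Type} [∀ i, Group (G i)] {E : Type} [Group E]
    (φ : ∀ i, E →* G i) (k : ℕ) :
    ∀ (i : Bool) (w : Monoid.PushoutI φ), w ∈ WaldP.Alt φ k i → Red φ k i w := by
  induction k with
  | zero =>
    rintro i w rfl
    exact Red.one i
  | succ k ih =>
    rintro i w ⟨x, hx, v, hv, rfl⟩
    exact Red.cons x hx (ih _ _ hv)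

theorem redH_of_altH {G : Type} [Group G] {A B : Subgroup G} (φ : A ≃* B) (k : ℕ) :
    ∀ (i : Bool) (w : HNNExtension G A B φ), w ∈ WaldP.AltH φ k i → RedH φ k i w := by
  induction k with
  | zero =>
    intro i w hw
    cases i
    · rw [show w = 1 from hw]
      exact RedH.one false
    · rw [show w = 1 from hw]
      exact RedH.one true
  | succ k ih =>
    intro i w hw
    cases i
    · obtain ⟨x, ⟨hx, v, hv, rfl⟩ | ⟨v, hv, rfl⟩⟩ := hw
      · exact RedH.ft x hx (ih _ _ hv)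
      · exact RedH.ff x (ih _ _ hv)
    · obtain ⟨x, ⟨v, hv, rfl⟩ | ⟨hx, v, hv, rfl⟩⟩ := hw
      · exact RedH.tt x (ih _ _ hv)
      · exact RedH.tf x hx (ih _ _ hv)

theorem small_of {Γ : Type} [Group Γ] {K : Subgroup Γ} {w : Γ} (h : SmallStab K w) :
    ∃ D : Subgroup Γ, K ⊓ WaldP.cj w K ≤ D ∧ Hier.NN D := by
  obtain ⟨D, h1, h2⟩ := h
  exact ⟨D, fun x hx => h1 x hx.1 (WaldP.mem_cj.1 hx.2), nn_of_NN h2⟩

theorem kc_of_CC {Γ : Type} [Group Γ] (h : CC Γ) : Hier.KC Γ := by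
  induction h with
  | base h => exact Hier.KC.base h
  | colim H t f hf htt hs hker _ ih => exact Hier.KC.colim H t f hf htt hs hker ih
  | amalgam G E φ k hφ _ _ hE ih ihE =>
    exact Hier.KC.amalgam G E φ k hφ ih ihE fun i w hw => small_of (hE i w (red_of_alt φ k i w hw))
  | hnn G A B φ k _ _ hA ih ihA =>
    exact Hier.KC.hnn G A B φ k ih ihA fun i w hw => small_of (hA i w (redH_of_altH φ k i w hw))

/-- The main theorem. -/
theorem cc_main {Γ : Type} [Group Γ] (h : CC Γ) (L : Type) [CommRing L] [IsDomain L]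
    (hL : IsEuc L) : K1Units L Γ :=
  Hier.kc_main (kc_of_CC h) L hL

/-- The trivial group is in the class. -/
theorem cc_triv (Γ : Type) [Group Γ] [Subsingleton Γ] : CC Γ :=
  CC.base fun L _ _ hL => Hier.kc_main (Hier.kc_triv Γ) L hL

theorem cc_iso {Γ Γ' : Type} [Group Γ] [Group Γ'] (e : Γ ≃* Γ') (h : CC Γ) : CC Γ' := by
  refine CC.colim (ι := Unit) (fun _ => Γ) (fun _ _ _ => MonoidHom.id Γ) (fun _ => e.toMonoidHom)
    (fun _ _ _ _ => rfl) (fun _ _ _ _ _ _ => rfl) (fun g => ⟨(), e.symm g, e.apply_symm_apply g⟩)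
    (fun i x hx => ⟨(), le_rfl, ?_⟩) fun _ => h
  exact e.injective (hx.trans (map_one e).symm)

/-- Amalgams whose edge group is in the class and in `NN`. -/
theorem cc_pushout (G : Bool → Type) [∀ i, Group (G i)] (E : Type) [Group E]
    (φ : ∀ i, E →* G i) (hφ : ∀ i, Function.Injective (φ i)) (hG : ∀ i, CC (G i)) (hE : CC E)
    (hE' : NN E) : CC (Monoid.PushoutI φ) :=
  CC.amalgam G E φ 0 hφ hG hE fun _ _ _ => ⟨(Monoid.PushoutI.base φ).range, fun _ hx _ => hx,
    NN.iso (MonoidHom.ofInjective (Monoid.PushoutI.base_injective hφ)) hE'⟩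

/-- Amalgams with a vertex group in `NN`. -/
theorem cc_pushout_nn (G : Bool → Type) [∀ i, Group (G i)] (E : Type) [Group E]
    (φ : ∀ i, E →* G i) (hφ : ∀ i, Function.Injective (φ i)) (hG : ∀ i, CC (G i)) (hE : CC E)
    (i : Bool) (hG' : NN (G i)) : CC (Monoid.PushoutI φ) := by
  refine CC.amalgam G E φ 0 hφ hG hE fun _ _ _ => ⟨(Monoid.PushoutI.of (φ := φ) i).range, ?_,
    NN.iso (MonoidHom.ofInjective (Monoid.PushoutI.of_injective hφ i)) hG'⟩
  rintro _ ⟨y, rfl⟩ _
  exact ⟨φ i y, Monoid.PushoutI.of_apply_eq_base φ i y⟩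

theorem cc_hnn (G : Type) [Group G] (A B : Subgroup G) (φ : A ≃* B) (hG : CC G) (hA : CC A)
    (hA' : NN A) : CC (HNNExtension G A B φ) := by
  refine CC.hnn G A B φ 0 hG hA fun i w _ =>
    ⟨((HNNExtension.of (φ := φ)).comp B.subtype).range, fun _ hx _ => hx, ?_⟩
  have hinj : Function.Injective ((HNNExtension.of (φ := φ)).comp B.subtype) :=
    (HNNExtension.of_injective φ).comp Subtype.val_injective
  exact NN.iso (φ.trans (MonoidHom.ofInjective hinj)) hA'

/-- HNN extensions of groups in `NN`, with any edge group in the class. -/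
theorem cc_hnn_nn (G : Type) [Group G] (A B : Subgroup G) (φ : A ≃* B) (hG : CC G) (hA : CC A)
    (hG' : NN G) : CC (HNNExtension G A B φ) :=
  CC.hnn G A B φ 0 hG hA fun _ _ _ =>
    ⟨⊤, fun _ _ _ => Subgroup.mem_top _, NN.iso Subgroup.topEquiv.symm (NN.hnn G A B φ hG')⟩

end Pool.Agent.WhVan
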