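import Pool.Agent.Lib.MP_8f66f0_al_HierZ.FamSub

/-! A family of letters with any number of orbits. -/

set_option autoImplicit false

namespace Pool.Agent.Hier

open Pool.Agent.Wald Pool.Agent.Ind

section

variable {LL Q' T Λ O : Type} [CommRing LL] [Ring Q'] [Algebra LL Q'] [Ring T] [Algebra LL T]

/-- The orbits which occur in an element. -/
private theorem fam_orb (f : Q' →ₐ[LL] T) (ℓ : Λ → T) (o : Λ → O)
    (hfree : FreeW (f : Q' →+* T) ℓ) (t : T) :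
    ∃ s : Set O, s.Finite ∧ ∀ T₀ : Subalgebra LL T, (∀ q, f q ∈ T₀) →
      (∀ a, o a ∈ s → ℓ a ∈ T₀) → t ∈ T₀ := by
  classical
  obtain ⟨x, rfl⟩ := hfree.2 t
  refine ⟨⋃ u ∈ x.support, {ω | ∃ a ∈ u, o a = ω}, ?_, ?_⟩
  · refine Set.Finite.biUnion (Finset.finite_toSet _) fun u _ => ?_
    have : {ω | ∃ a ∈ u, o a = ω} = (fun a => o a) '' {a | a ∈ u} := by
      ext ω
      simp
    rw [this]
    exact (List.finite_toSet u).image _
  · intro T₀ hf hl
    rw [ev]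
    refine Subalgebra.sum_mem _ fun u hu => ?_
    refine T₀.mul_mem (hf _) ?_
    have hw : ∀ v : List Λ, (∀ a ∈ v, ℓ a ∈ T₀) → wd ℓ v ∈ T₀ := by
      intro v
      induction v with
      | nil => exact fun _ => T₀.one_mem
      | cons a v ih =>
        intro h
        exact T₀.mul_mem (ih fun b hb => h b (List.mem_cons_of_mem _ hb))
          (h a List.mem_cons_self)
    refine hw u fun a ha => hl a ?_
    simp only [Set.mem_iUnion]
    exact ⟨u, hu, a, ha, rfl⟩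

/-- The orbits which occur in a matrix. -/
private theorem fam_mat (f : Q' →ₐ[LL] T) (ℓ : Λ → T) (o : Λ → O)
    (hfree : FreeW (f : Q' →+* T) ℓ) {n : Type} [Fintype n] (A : Matrix n n T) :
    ∃ s : Set O, s.Finite ∧ ∀ T₀ : Subalgebra LL T, (∀ q, f q ∈ T₀) →
      (∀ a, o a ∈ s → ℓ a ∈ T₀) → ∀ i j, A i j ∈ T₀ := by
  choose s hs hs' using fun p : n × n => fam_orb f ℓ o hfree (A p.1 p.2)
  refine ⟨⋃ p, s p, Set.finite_iUnion hs, fun T₀ hf hl i j => ?_⟩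
  exact hs' (i, j) T₀ hf fun a ha => hl a (Set.mem_iUnion_of_mem (i, j) ha)

end

theorem fam (h1 : S_split) (h2 : S_famfin) (_h3 : S_twp) : S_fam := by
  classical
  intro O LL E Q' T Λ _ _ _ _ _ _ _ f ρ ℓ o Cs hret hfree hfam hS
  intro K _ κ hκ n _ _ A hA
  obtain ⟨B, hAB, hBA⟩ : ∃ B, A * B = 1 ∧ B * A = 1 := by
    obtain ⟨u, hu⟩ := hA
    exact ⟨↑u⁻¹, by rw [← hu]; simp, by rw [← hu]; simp⟩
  obtain ⟨sA, fA, hsA⟩ := fam_mat f ℓ o hfree A
  obtain ⟨sB, fB, hsB⟩ := fam_mat f ℓ o hfree B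
  let p : Λ → Prop := fun a => o a ∈ sA ∪ sB
  have hp : ∀ a b, p a → o b = o a → p b := by
    intro a b ha hb
    show o b ∈ sA ∪ sB
    rw [hb]
    exact ha
  obtain ⟨T₀, f₀, a₀, hf₀, ha₀, -, hfr₀, -, -⟩ := h1 LL Q' T {a // p a} {a // ¬ p a} f
    (fun x => ℓ x.1) (fun y => ℓ y.1) (freeW_sumCompl hfree p) (cl_sub hfam p hp)
  have hfT : ∀ q, f q ∈ T₀ := fun q => by
    rw [← hf₀]
    exact (f₀ q).2
  have hlT : ∀ a, p a → ℓ a ∈ T₀ := fun a ha => by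
    have := ha₀ ⟨a, ha⟩
    rw [← this]
    exact (a₀ ⟨a, ha⟩).2
  have mA := hsA T₀ hfT fun a ha => hlT a (Or.inl ha)
  have mB := hsB T₀ hfT fun a ha => hlT a (Or.inr ha)
  let A₀ : Matrix n n T₀ := fun i j => ⟨A i j, mA i j⟩
  let B₀ : Matrix n n T₀ := fun i j => ⟨B i j, mB i j⟩
  let v : T₀ →+* T := ((T₀.val : T₀ →ₐ[LL] T) : T₀ →+* T)
  have eA : A₀.map v = A := rfl
  have eB : B₀.map v = B := rfl
  have inj : Function.Injective fun X : Matrix n n T₀ => X.map v := by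
    intro X Y hXY
    ext i j
    exact congrFun (congrFun hXY i) j
  have u1 : A₀ * B₀ = 1 := by
    apply inj
    show (A₀ * B₀).map v = (1 : Matrix n n T₀).map v
    rw [Matrix.map_mul, eA, eB, hAB, Matrix.map_one _ (map_zero _) (map_one _)]
  have u2 : B₀ * A₀ = 1 := by
    apply inj
    show (B₀ * A₀).map v = (1 : Matrix n n T₀).map v
    rw [Matrix.map_mul, eA, eB, hBA, Matrix.map_one _ (map_zero _) (map_one _)]
  have hA₀ : IsUnit A₀ := ⟨⟨A₀, B₀, u1, u2⟩, rfl⟩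
  have hfin : Finite {ω // ω ∈ sA ∪ sB} := (fA.union fB).to_subtype
  have hk : KT (f₀ : Q' →+* T₀) := by
    let o' : {a // p a} → {ω // ω ∈ sA ∪ sB} := fun x => ⟨o x.1, x.2⟩
    exact h2 {ω // ω ∈ sA ∪ sB} LL E Q' T₀ {a // p a} f₀ ρ a₀ o'
      (fun i => Cs i.1) hret hfr₀ (famRule_sub hfam p T₀ f₀ a₀ hf₀ ha₀ o' Subtype.val
      Subtype.val_injective (fun _ => rfl) hp) fun i => hS i.1
  have h := hk K (k1Pull v κ) (fun m _ _ M hM => ?_) n A₀ hA₀
  · exact h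
  · have h3 := hκ m M hM
    have e : v.comp (f₀ : Q' →+* T₀) = (f : Q' →+* T) := RingHom.ext fun q => hf₀ q
    rw [← e] at h3
    show κ.f ((M.map (f₀ : Q' →+* T₀)).map v) = 1
    rw [Matrix.map_map]
    exact h3

end Pool.Agent.Hier
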