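import Pool.Agent.Lib.MP_8f66f0_al_HierZ.AddP

/-! Families of letters: restriction to a union of orbits. -/

set_option autoImplicit false

namespace Pool.Agent.Hier

open Pool.Agent.Wald Pool.Agent.Ind

section FamSub

variable {LL E Q' T Λ O : Type} [CommRing LL] [Group E] [Ring Q'] [Algebra LL Q'] [Ring T]
  [Algebra LL T] {f : Q' →ₐ[LL] T} {ρ : E →* Q'} {ℓ : Λ → T} {o : Λ → O} {Cs : O → Subgroup E}

/-- The rule with a name for the orbit. -/
theorem famRule_at (h : FamRule LL f ρ ℓ o Cs) (a : Λ) (q : Q') (ω : O) (hω : o a = ω) :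
    ∃ (c : Q') (x : Λ →₀ MonoidAlgebra LL (Cs ω)), (∀ b ∈ x.support, o b = ω) ∧
      ℓ a * f q = f c + x.sum fun b r => f (gr LL (ρ.comp (Cs ω).subtype) r) * ℓ b := by
  subst hω
  exact h a q

/-- The rule for the letters which satisfy `p`, with support among them. -/
theorem famRule_sub_at (h : FamRule LL f ρ ℓ o Cs) (p : Λ → Prop) (a : Λ) (q : Q') (ω : O)
    (hω : o a = ω) (hp : ∀ b, o b = ω → p b) :
    ∃ (c : Q') (x : {b // p b} →₀ MonoidAlgebra LL (Cs ω)), (∀ b ∈ x.support, o b.1 = ω) ∧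
      ℓ a * f q = f c + x.sum fun b r => f (gr LL (ρ.comp (Cs ω).subtype) r) * ℓ b.1 := by
  classical
  obtain ⟨c, x, hx, hc⟩ := famRule_at h a q ω hω
  refine ⟨c, x.subtypeDomain p, fun b hb => hx _ ?_, ?_⟩
  · rw [Finsupp.mem_support_iff] at hb ⊢
    exact hb
  · rw [hc]
    congr 1
    exact (Finsupp.sum_subtypeDomain_index
      (h := fun b r => f (gr LL (ρ.comp (Cs ω).subtype) r) * ℓ b)
      (fun b hb => hp b (hx b hb))).symm

/-- The letters in a union of orbits are closed. -/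
theorem cl_sub (h : FamRule LL f ρ ℓ o Cs) (p : Λ → Prop) (hp : ∀ a b, p a → o b = o a → p b) :
    Cl (f : Q' →+* T) (fun x : {a // p a} => ℓ x.1) := by
  classical
  rintro ⟨a, ha⟩ q
  obtain ⟨c, x, -, hc⟩ := famRule_sub_at h p a q (o a) rfl fun b hb => hp a b ha hb
  refine ⟨c, x.mapRange (gr LL (ρ.comp (Cs (o a)).subtype)) (map_zero _), ?_⟩
  rw [lin, Finsupp.sum_mapRange_index (fun b => by rw [map_zero, zero_mul])]
  exact hc

/-- The rule in a subalgebra. -/
theorem famRule_sub {O' : Type} (h : FamRule LL f ρ ℓ o Cs) (p : Λ → Prop)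
    (T₀ : Subalgebra LL T) (f₀ : Q' →ₐ[LL] T₀) (a₀ : {a // p a} → T₀)
    (hf : ∀ q, (f₀ q : T) = f q) (ha : ∀ x, (a₀ x : T) = ℓ x.1) (o' : {a // p a} → O')
    (j : O' → O) (hj : Function.Injective j) (ho : ∀ x, o x.1 = j (o' x))
    (hp : ∀ a b, p a → o b = o a → p b) : FamRule LL f₀ ρ a₀ o' (fun i => Cs (j i)) := by
  intro a q
  obtain ⟨c, x, hx, hc⟩ := famRule_sub_at h p a.1 q (j (o' a)) (ho a)
    fun b hb => hp a.1 b a.2 (hb.trans (ho a).symm)
  refine ⟨c, x, fun b hb => hj ?_, ?_⟩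
  · rw [← ho b]
    exact hx b hb
  · apply Subtype.ext
    have e1 : ((a₀ a * f₀ q : T₀) : T) = ℓ a.1 * f q := by
      rw [← ha, ← hf]
      rfl
    rw [e1, hc]
    have e2 : ((f₀ c + x.sum fun b r => f₀ (gr LL (ρ.comp (Cs (j (o' a))).subtype) r) * a₀ b :
        T₀) : T) = (f₀ c : T) + ((x.sum fun b r =>
          f₀ (gr LL (ρ.comp (Cs (j (o' a))).subtype) r) * a₀ b : T₀) : T) := rfl
    rw [e2, hf]
    congr 1
    have e3 : ∀ t : T₀, (t : T) = T₀.val t := fun t => rfl
    rw [e3, map_finsuppSum]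
    refine Finsupp.sum_congr fun b _ => ?_
    rw [map_mul, ← e3, ← e3, hf, ha]

/-- The restriction of the coefficients to a subgroup. -/
noncomputable def resC (LL : Type) {E : Type} [CommRing LL] [Group E] (A : Subgroup E) :
    MonoidAlgebra LL E →ₗ[LL] MonoidAlgebra LL A where
  toFun r := MonoidAlgebra.ofCoeff (r.coeff.comapDomain A.subtype
    (A.subtype_injective.injOn))
  map_add' r s := by
    ext a
    rfl
  map_smul' t r := by
    ext a
    rfl

/-- The retraction to the group algebra of a subgroup. -/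
theorem ret_sub (ρ : E →* Q') (A : Subgroup E)
    (hret : ∃ s : Q' →ₗ[LL] MonoidAlgebra LL E, ∀ x, s (gr LL ρ x) = x) :
    ∃ s : Q' →ₗ[LL] MonoidAlgebra LL A, ∀ x, s (gr LL (ρ.comp A.subtype) x) = x := by
  classical
  obtain ⟨s, hs⟩ := hret
  refine ⟨(resC LL A).comp s, fun x => ?_⟩
  let ι : MonoidAlgebra LL A →ₐ[LL] MonoidAlgebra LL E :=
    MonoidAlgebra.lift LL (MonoidAlgebra LL E) A ((MonoidAlgebra.of LL E).comp A.subtype)
  have h1 : ∀ r, gr LL ρ (ι r) = gr LL (ρ.comp A.subtype) r := by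
    intro r
    have h : (gr LL ρ).comp ι = gr LL (ρ.comp A.subtype) := by
      refine MonoidAlgebra.algHom_ext (fun x => ?_) (by ext)
      simp [ι, gr]
    exact DFunLike.congr_fun h r
  have h2 : ∀ r, resC LL A (ι r) = r := by
    intro r
    induction r using MonoidAlgebra.induction_linear with
    | zero => rw [map_zero, map_zero]
    | add x y hx hy => rw [map_add, map_add, hx, hy]
    | single a t =>
      have h3 : ι (MonoidAlgebra.single a t) = MonoidAlgebra.single (a : E) t := by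
        simp [ι]
      rw [h3]
      ext b
      show (MonoidAlgebra.single (a : E) t : MonoidAlgebra LL E).coeff (b : E) =
        (MonoidAlgebra.single a t : MonoidAlgebra LL A).coeff b
      by_cases hab : a = b
      · subst hab
        simp
      · have hab' : (a : E) ≠ (b : E) := fun h => hab (Subtype.ext h)
        simp [MonoidAlgebra.coeff_single, hab, hab']
  show resC LL A (s (gr LL (ρ.comp A.subtype) x)) = x
  rw [← h1, hs, h2]

/-- The letters, split by a predicate. -/
theorem freeW_sumCompl (hfree : FreeW (f : Q' →+* T) ℓ) (p : Λ → Prop) :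
    FreeW (f : Q' →+* T)
      (Sum.elim (fun x : {a // p a} => ℓ x.1) (fun y : {a // ¬ p a} => ℓ y.1)) := by
  classical
  have h1 := freeW_equiv (f : Q' →+* T) ℓ (Equiv.sumCompl p) hfree
  have h2 : (fun a => ℓ (Equiv.sumCompl p a)) =
      Sum.elim (fun x : {a // p a} => ℓ x.1) (fun y : {a // ¬ p a} => ℓ y.1) := by
    funext a
    rcases a with a | a
    · rfl
    · rfl
  rw [h2] at h1
  exact h1

end FamSub

end Pool.Agent.Hier
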