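import Pool.Agent.Lib.MP_8f66f0_al_HierZ.SpecZL
import Pool.Agent.Lib.MP_8f66f0_al_Hier.PlC

/-! Typed combinations: general lemmas. -/

set_option autoImplicit false

namespace Pool.Agent.Hier.LB

open Pool.Agent.Wald Pool.Agent.Ind Pool.Agent.Hier Function

section Gen

variable {LL E I : Type} [CommRing LL]

theorem lin_ext {M : Type} [AddCommGroup M] [Module LL M]
    (g h : (I →₀ MonoidAlgebra LL E) →ₗ[LL] M)
    (H : ∀ j e t, g (Finsupp.single j (MonoidAlgebra.single e t)) =
      h (Finsupp.single j (MonoidAlgebra.single e t))) : g = h := by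
  refine LinearMap.ext fun x => ?_
  induction x using Finsupp.induction_linear with
  | zero => simp
  | add x y hx hy => rw [map_add, map_add, hx, hy]
  | single j r =>
    induction r using MonoidAlgebra.induction_linear with
    | zero => simp
    | add r s hr hs => rw [Finsupp.single_add, map_add, map_add, hr, hs]
    | single e t => exact H j e t

theorem mem_of_basis {P B T : Type} [AddCommGroup P] [AddCommGroup T]
    (bP : Module.Basis B ℤ P) (g : P →+ T) (N : AddSubgroup T) (h : ∀ k, g (bP k) ∈ N) (p : P) :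
    g p ∈ N := by
  have hp : p ∈ Submodule.span ℤ (Set.range bP) := by
    rw [bP.span_eq]
    exact Submodule.mem_top
  induction hp using Submodule.span_induction with
  | mem x hx =>
    obtain ⟨k, rfl⟩ := hx
    exact h k
  | zero => rw [map_zero]; exact zero_mem _
  | add x y _ _ hx hy => rw [map_add]; exact add_mem hx hy
  | smul n x _ hx => rw [map_zsmul]; exact N.zsmul_mem hx n

end Gen

section Tl

variable {LL E T I P : Type} [CommRing LL] [Group E] [Ring T] [Algebra LL T] [AddCommGroup P]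
  [DistribMulAction E P]

/-- `tl` for a fixed `p` as a linear map. -/
noncomputable def tlL (ρ : E → T) (w : I → P →+ T) (p : P) :
    (I →₀ MonoidAlgebra LL E) →ₗ[LL] T :=
  Finsupp.lsum LL fun j => (Finsupp.lsum LL fun e =>
    LinearMap.toSpanSingleton LL T (ρ e * w j (e⁻¹ • p))) ∘ₗ
      (MonoidAlgebra.coeffLinearEquiv (S := LL) (M := E) LL).toLinearMap

theorem tlL_apply (ρ : E → T) (w : I → P →+ T) (p : P) (x : I →₀ MonoidAlgebra LL E) :
    tlL ρ w p x = tl ρ w x p := rfl

theorem tlL_single (ρ : E → T) (w : I → P →+ T) (p : P) (j : I) (e : E) (t : LL) :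
    tlL ρ w p (Finsupp.single j (MonoidAlgebra.single e t)) = t • (ρ e * w j (e⁻¹ • p)) := by
  rw [tlL, Finsupp.lsum_single, LinearMap.comp_apply]
  have h1 : (MonoidAlgebra.coeffLinearEquiv (S := LL) (M := E) LL).toLinearMap
      (MonoidAlgebra.single e t) = Finsupp.single e t := rfl
  rw [h1, Finsupp.lsum_single, LinearMap.toSpanSingleton_apply]

theorem tl_single (ρ : E → T) (w : I → P →+ T) (p : P) (j : I) (e : E) (t : LL) :
    tl ρ w (Finsupp.single j (MonoidAlgebra.single e t)) p = t • (ρ e * w j (e⁻¹ • p)) :=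
  tlL_single ρ w p j e t

/-- `tl` as a linear map with values in functions. -/
noncomputable def tlF (ρ : E → T) (w : I → P →+ T) : (I →₀ MonoidAlgebra LL E) →ₗ[LL] (P → T) :=
  LinearMap.pi fun p => tlL ρ w p

theorem tlF_apply (ρ : E → T) (w : I → P →+ T) (x : I →₀ MonoidAlgebra LL E) (p : P) :
    tlF ρ w x p = tl ρ w x p := rfl

/-- A linear map applied to a typed combination. -/
theorem tl_map {T' I' : Type} [Ring T'] [Algebra LL T'] (g : T →ₗ[LL] T') (ρ : E → T)
    (w : I → P →+ T) (ρ' : E → T') (w' : I' → P →+ T') (h : I → I')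
    (H : ∀ e j p, g (ρ e * w j p) = ρ' e * w' (h j) p) (x : I →₀ MonoidAlgebra LL E) (p : P) :
    g (tl ρ w x p) = tl ρ' w' (Finsupp.mapDomain h x) p := by
  have : g ∘ₗ tlL ρ w p = tlL ρ' w' p ∘ₗ (Finsupp.lmapDomain (MonoidAlgebra LL E) LL h) := by
    refine lin_ext _ _ fun j e t => ?_
    rw [LinearMap.comp_apply, LinearMap.comp_apply, Finsupp.lmapDomain_apply,
      Finsupp.mapDomain_single, tlL_single, tlL_single, map_smul, H]
  exact DFunLike.congr_fun this x

/-- Functions which are typed combinations up to a submodule. -/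
noncomputable def Ty (ρ : E → T) (w : I → P →+ T) (S : Set I) (N : Submodule LL T) :
    Submodule LL (P → T) :=
  Submodule.map (tlF ρ w) (Finsupp.supported (MonoidAlgebra LL E) LL S) ⊔
    Submodule.pi Set.univ fun _ => N

theorem mem_Ty {ρ : E → T} {w : I → P →+ T} {S : Set I} {N : Submodule LL T} {g : P → T} :
    g ∈ Ty ρ w S N ↔ ∃ x : I →₀ MonoidAlgebra LL E, (∀ j ∈ x.support, j ∈ S) ∧
      ∀ p, ∃ n ∈ N, g p = tl ρ w x p + n := by
  constructor
  · intro h
    obtain ⟨_, ⟨x, hx, rfl⟩, n, hn, rfl⟩ := Submodule.mem_sup.mp h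
    exact ⟨x, fun j hj => hx hj, fun p => ⟨n p, hn p trivial, rfl⟩⟩
  · rintro ⟨x, hx, h⟩
    choose n hn hg using h
    refine Submodule.mem_sup.mpr ⟨tlF ρ w x, ⟨x, fun j hj => hx j hj, rfl⟩, n,
      fun p _ => hn p, ?_⟩
    funext p
    exact (hg p).symm

theorem Ty_of_mem {ρ : E → T} {w : I → P →+ T} {S : Set I} {N : Submodule LL T} {g : P → T}
    (h : ∀ p, g p ∈ N) : g ∈ Ty ρ w S N :=
  Submodule.mem_sup_right fun p _ => h p

theorem tl_mem_Ty {ρ : E → T} {w : I → P →+ T} {S : Set I} {N : Submodule LL T}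
    {x : I →₀ MonoidAlgebra LL E} (hx : ∀ j ∈ x.support, j ∈ S) :
    (fun p => tl ρ w x p) ∈ Ty ρ w S N :=
  Submodule.mem_sup_left ⟨x, fun j hj => hx j hj, rfl⟩

/-- Typed combinations lie in a submodule if the basic ones do. -/
theorem tl_mem {B : Type} (bP : Module.Basis B ℤ P) {ρ : E → T} {w : I → P →+ T}
    (N : Submodule LL T) {x : I →₀ MonoidAlgebra LL E}
    (h : ∀ j ∈ x.support, ∀ e k, ρ e * w j (bP k) ∈ N) (p : P) : tl ρ w x p ∈ N := by
  refine Submodule.sum_mem _ fun j hj => Submodule.sum_mem _ fun e _ => Submodule.smul_mem _ _ ?_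
  exact mem_of_basis bP ((AddMonoidHom.mulLeft (ρ e)).comp (w j)) N.toAddSubgroup
    (fun k => h j hj e k) (e⁻¹ • p)

end Tl

section Reindex

variable {Q' T Λ Λ' : Type} [Ring Q'] [Ring T]

theorem freeW_equiv (f : Q' →+* T) (ℓ : Λ → T) (e : Λ' ≃ Λ) (h : FreeW f ℓ) :
    FreeW f (fun a => ℓ (e a)) := by
  set E : List Λ' ≃ List Λ := Equiv.listEquivOfEquiv e with hE
  have key : evH f (fun a => ℓ (e a)) =
      (evH f ℓ).comp ((Finsupp.domCongr E : (List Λ' →₀ Q') ≃+ (List Λ →₀ Q')).toAddMonoidHom) := by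
    refine Finsupp.addHom_ext fun u r => ?_
    change evH f _ (Finsupp.single u r) = evH f ℓ (Finsupp.domCongr E (Finsupp.single u r))
    rw [Finsupp.domCongr_apply, Finsupp.equivMapDomain_single, evH_single, evH_single]
    change f r * wd _ u = f r * wd ℓ (u.map e)
    rw [wd_map]
  rw [freeW_iff, key]
  exact h.comp (Finsupp.domCongr E : (List Λ' →₀ Q') ≃+ (List Λ →₀ Q')).bijective

end Reindex

end Pool.Agent.Hier.LB
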