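import Pool.Agent.Lib.MP_8f66f0_al_HierZ.SpecZR

/-! R5: submodules of free `ℤ`-modules are free (arbitrary rank). -/

set_option autoImplicit false

namespace Pool.Agent.Hier

open Pool.Agent.Wald Pool.Agent.Ind

namespace FreesubAux

variable {ι : Type} [LinearOrder ι]

/-- The ideal of the leading coefficients at `i`. -/
private def lead (N : Submodule ℤ (ι →₀ ℤ)) (i : ι) : Ideal ℤ where
  carrier := {c | ∃ x ∈ N, x i = c ∧ ∀ j, i < j → x j = 0}
  add_mem' := by
    rintro a b ⟨x, hx, rfl, hx'⟩ ⟨y, hy, rfl, hy'⟩
    exact ⟨x + y, N.add_mem hx hy, rfl, fun j hj => by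
      rw [Finsupp.add_apply, hx' j hj, hy' j hj, add_zero]⟩
  zero_mem' := ⟨0, N.zero_mem, rfl, fun _ _ => rfl⟩
  smul_mem' := by
    rintro c a ⟨x, hx, rfl, hx'⟩
    exact ⟨c • x, N.smul_mem c hx, rfl, fun j hj => by
      rw [Finsupp.smul_apply, hx' j hj, smul_zero]⟩

private theorem free_coord [WellFoundedLT ι] (N : Submodule ℤ (ι →₀ ℤ)) : Module.Free ℤ N := by
  classical
  have hgen : ∀ i, ∃ a : ℤ, lead N i = Ideal.span {a} := fun i => by
    obtain ⟨a, ha⟩ := (IsPrincipalIdealRing.principal (lead N i)).principal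
    exact ⟨a, ha⟩
  choose a ha using hgen
  have hx : ∀ i, ∃ x ∈ N, x i = a i ∧ ∀ j, i < j → x j = 0 := fun i => by
    have h : a i ∈ lead N i := by
      rw [ha]
      exact Ideal.mem_span_singleton_self _
    exact h
  choose x hxN hxi hxj using hx
  let v : {i // a i ≠ 0} → N := fun i => ⟨x i, hxN i⟩
  have hli : LinearIndependent ℤ v := by
    rw [linearIndependent_iff]
    intro c hc
    by_contra hne
    have hs : c.support.Nonempty := Finsupp.support_nonempty_iff.2 hne
    obtain ⟨m, hm, hmax⟩ := c.support.exists_max_image id hs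
    have h1 : (((Finsupp.linearCombination ℤ v) c : N) : ι →₀ ℤ) m.1 = 0 := by
      rw [hc]
      rfl
    rw [Finsupp.linearCombination_apply, Finsupp.sum, Submodule.coe_sum,
      Finsupp.finsetSum_apply, Finset.sum_eq_single m] at h1
    · have h2 : c m * x m.1 m.1 = 0 := h1
      rw [hxi] at h2
      rcases mul_eq_zero.1 h2 with h3 | h3
      · exact Finsupp.mem_support_iff.1 hm h3
      · exact m.2 h3
    · intro j hj hjm
      have h3 : j.1 < m.1 := lt_of_le_of_ne (hmax j hj) fun h => hjm (Subtype.ext h)
      change c j * x j.1 m.1 = 0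
      rw [hxj _ _ h3, mul_zero]
    · intro h
      exact absurd hm h
  have key : ∀ i : ι, ∀ y (hy : y ∈ N), (∀ j, i < j → y j = 0) →
      (⟨y, hy⟩ : N) ∈ Submodule.span ℤ (Set.range v) := by
    intro i
    induction i using WellFoundedLT.induction with
    | ind i ih =>
      have ih' : ∀ y (hy : y ∈ N), (∀ j, i ≤ j → y j = 0) →
          (⟨y, hy⟩ : N) ∈ Submodule.span ℤ (Set.range v) := by
        intro y hy hyi
        by_cases h0 : y = 0
        · subst h0
          exact Submodule.zero_mem _
        · obtain ⟨m, hm, hmax⟩ := y.support.exists_max_image id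
            (Finsupp.support_nonempty_iff.2 h0)
          have hmi : m < i := by
            by_contra h
            exact Finsupp.mem_support_iff.1 hm (hyi m (not_lt.1 h))
          refine ih m hmi y hy fun j hj => ?_
          by_contra h
          exact absurd (hmax j (Finsupp.mem_support_iff.2 h)) (not_le.2 hj)
      intro y hy hyj
      have h1 : y i ∈ lead N i := ⟨y, hy, rfl, hyj⟩
      rw [ha, Ideal.mem_span_singleton] at h1
      obtain ⟨m, hm⟩ := h1
      by_cases h0 : a i = 0
      · refine ih' y hy fun j hj => ?_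
        rcases eq_or_lt_of_le hj with h | h
        · subst h
          rw [hm, h0, zero_mul]
        · exact hyj j h
      · have h2 : y - m • x i ∈ N := N.sub_mem hy (N.smul_mem _ (hxN i))
        have h3 : (⟨y, hy⟩ : N) = ⟨y - m • x i, h2⟩ + m • v ⟨i, h0⟩ := by
          apply Subtype.ext
          change y = y - m • x i + m • x i
          rw [sub_add_cancel]
        rw [h3]
        refine Submodule.add_mem _ (ih' _ h2 fun j hj => ?_)
          (Submodule.smul_mem _ _ (Submodule.subset_span ⟨_, rfl⟩))
        rw [Finsupp.sub_apply, Finsupp.smul_apply]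
        rcases eq_or_lt_of_le hj with h | h
        · subst h
          rw [hm, hxi, smul_eq_mul, mul_comm, sub_self]
        · rw [hyj j h, hxj i j h, smul_zero, sub_zero]
  have hsp : ⊤ ≤ Submodule.span ℤ (Set.range v) := by
    rintro ⟨y, hy⟩ -
    by_cases h0 : y = 0
    · subst h0
      exact Submodule.zero_mem _
    · obtain ⟨m, hm, hmax⟩ := y.support.exists_max_image id (Finsupp.support_nonempty_iff.2 h0)
      refine key m y hy fun j hj => ?_
      by_contra h
      exact absurd (hmax j (Finsupp.mem_support_iff.2 h)) (not_le.2 hj)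
  exact Module.Free.of_basis (Module.Basis.mk hli hsp)

end FreesubAux

/-- R5. Submodules of free `ℤ`-modules are free. -/
theorem freesub : S_freesub := by
  intro F _ _ N
  obtain ⟨o, hwf⟩ := exists_wellOrder (Module.Free.ChooseBasisIndex ℤ F)
  let e := (Module.Free.chooseBasis ℤ F).repr
  have h := FreesubAux.free_coord (N.map (e : F →ₗ[ℤ] (Module.Free.ChooseBasisIndex ℤ F →₀ ℤ)))
  exact Module.Free.of_equiv (e.submoduleMap N).symm

end Pool.Agent.Hier
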