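import Pool.Agent.Lib.MP_8f66f0_al_HierZ.AddP

/-! Adding letters over a subalgebra. -/

set_option autoImplicit false

namespace Pool.Agent.Hier

/-- ZP3. -/
theorem add (h : S_split) : S_add := add_of_aux h

end Pool.Agent.Hier
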