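import Pool.Agent.Lib.MP_8f66f0_al_HierZ.SpecZP

/-! Block ZP, module Basisp: change of the `ℤ`-basis of the type. -/

set_option autoImplicit false

namespace Pool.Agent.Hier

open Pool.Agent.Wald Pool.Agent.Ind

private theorem bp_ext {P N B : Type} [AddCommGroup P] [AddCommGroup N]
    (b : Module.Basis B ℤ P) {F G : P →+ N} (h : ∀ k, F (b k) = G (b k)) : F = G := by
  have h1 : F.toIntLinearMap = G.toIntLinearMap := b.ext h
  ext p
  exact LinearMap.congr_fun h1 p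

/-- The coefficients of `w_i(p)` in the letters `w_i(b_k)`. -/
private noncomputable def bp_M (Q' : Type) {P B I : Type} [Ring Q'] [AddCommGroup P]
    (b : Module.Basis B ℤ P) (i : I) : P →+ ((B × I) →₀ Q') :=
  (Finsupp.liftAddHom fun k : B =>
    (Finsupp.singleAddHom (k, i)).comp (Int.castAddHom Q')).comp
    (b.repr : P →ₗ[ℤ] (B →₀ ℤ)).toAddMonoidHom

private theorem bp_M_basis {Q' P B I : Type} [Ring Q'] [AddCommGroup P]
    (b : Module.Basis B ℤ P) (i : I) (k : B) : bp_M Q' b i (b k) = Finsupp.single (k, i) 1 := by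
  show Finsupp.liftAddHom (fun k : B =>
    (Finsupp.singleAddHom (k, i)).comp (Int.castAddHom Q')) (b.repr (b k)) = _
  rw [b.repr_self, Finsupp.liftAddHom_apply_single]
  show Finsupp.single (k, i) ((1 : ℤ) : Q') = _
  rw [Int.cast_one]

/-- `lin` as an additive homomorphism. -/
private noncomputable def bp_lin {Q' T Λ : Type} [Ring Q'] [Ring T] (f : Q' →+* T) (ℓ : Λ → T) :
    (Λ →₀ Q') →+ T :=
  Finsupp.liftAddHom fun a => (AddMonoidHom.mulRight (ℓ a)).comp f.toAddMonoidHom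

private theorem bp_lin_eq {Q' T Λ : Type} [Ring Q'] [Ring T] (f : Q' →+* T) (ℓ : Λ → T)
    (x : Λ →₀ Q') : lin f ℓ x = bp_lin f ℓ x := rfl

private theorem bp_lin_M {Q' T I P B : Type} [Ring Q'] [Ring T] [AddCommGroup P] (f : Q' →+* T)
    (w : I → P →+ T) (b : Module.Basis B ℤ P) (i : I) (p : P) :
    lin f (fun a : B × I => w a.2 (b a.1)) (bp_M Q' b i p) = w i p := by
  have h : (bp_lin f (fun a : B × I => w a.2 (b a.1))).comp (bp_M Q' b i) = w i := by
    refine bp_ext b fun k => ?_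
    show bp_lin f (fun a : B × I => w a.2 (b a.1)) (bp_M Q' b i (b k)) = _
    rw [bp_M_basis, ← bp_lin_eq, lin, Finsupp.sum_single_index]
    · rw [map_one, one_mul]
    · rw [map_zero, zero_mul]
  exact DFunLike.congr_fun h p

/-- The composition of the matrices. -/
private theorem bp_comp {Q' I P B₁ B₂ : Type} [Ring Q'] [AddCommGroup P]
    (b₁ : Module.Basis B₁ ℤ P) (b₂ : Module.Basis B₂ ℤ P) (i : I) (p : P) :
    ((bp_M Q' b₁ i p).sum fun x r => r • bp_M Q' b₂ x.2 (b₁ x.1)) = bp_M Q' b₂ i p := by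
  let Φ : ((B₁ × I) →₀ Q') →+ ((B₂ × I) →₀ Q') := Finsupp.liftAddHom fun x =>
    (smulAddHom Q' ((B₂ × I) →₀ Q')).flip (bp_M Q' b₂ x.2 (b₁ x.1))
  have hΦ : ∀ y : (B₁ × I) →₀ Q', Φ y = y.sum fun x r => r • bp_M Q' b₂ x.2 (b₁ x.1) :=
    fun y => rfl
  have h : Φ.comp (bp_M Q' b₁ i) = bp_M Q' b₂ i := by
    refine bp_ext b₁ fun k => ?_
    show Φ (bp_M Q' b₁ i (b₁ k)) = _
    rw [hΦ, bp_M_basis, Finsupp.sum_single_index]
    · rw [one_smul]
    · rw [zero_smul]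
  rw [← hΦ]
  exact DFunLike.congr_fun h p

theorem basisp (h : S_change) : S_basisp := by
  intro Q' T I P B₁ B₂ _ _ _ f w b₁ b₂ hF hC
  refine h Q' T (B₁ × I) (B₂ × I) f _ _ (fun a => bp_M Q' b₁ a.2 (b₂ a.1))
    (fun a => bp_M Q' b₂ a.2 (b₁ a.1)) hF hC ?_ ?_ ?_
  · intro a
    exact (bp_lin_M f w b₁ a.2 (b₂ a.1)).symm
  · intro a
    show ((bp_M Q' b₁ a.2 (b₂ a.1)).sum fun x r => r • bp_M Q' b₂ x.2 (b₁ x.1)) = _
    rw [bp_comp, bp_M_basis]
  · intro a
    show ((bp_M Q' b₂ a.2 (b₁ a.1)).sum fun x r => r • bp_M Q' b₁ x.2 (b₂ x.1)) = _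
    rw [bp_comp, bp_M_basis]

end Pool.Agent.Hier
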