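import Pool.Agent.Lib.MP_8f66f0_al_HierZ.SpecZR
import Pool.Agent.Lib.MP_8f66f0_al_Hier.SpecB

/-! Groups of finite cohomological dimension have finite free resolutions; all Nil groups
vanish for them. -/

set_option autoImplicit false

namespace Pool.Agent.Hier

open Pool.Agent.Wald Pool.Agent.Ind

namespace CdresAux

theorem transport {E : Type} [Group E] {𝒞 : Subgroup E → Prop} {n : ℕ} {M N : Type}
    [AddCommGroup M] [iM : DistribMulAction E M] [AddCommGroup N] [DistribMulAction E N]
    (φ : M ≃+ N) (hφ : ∀ (e : E) (m : M), φ (e • m) = e • φ m)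
    (h : ResP E 𝒞 (n + 1) M) : ResP E 𝒞 (n + 1) N := by
  obtain ⟨F, P', i1, i2, i3, i4, i, r, hi, hex, hr, hM, hP', hF, hres⟩ := h
  refine ⟨F, P', i1, i2, i3, i4, i,
    { toFun := fun x => φ (r x)
      map_smul' := fun e x => by rw [map_smul, hφ]; rfl
      map_zero' := by rw [map_zero, map_zero]
      map_add' := fun x y => by rw [map_add, map_add] }, hi, ?_, ?_, ?_, hP', hF, hres⟩
  · intro y
    change φ (r y) = 0 ↔ _
    rw [EmbeddingLike.map_eq_zero_iff]
    exact hex y
  · intro y
    obtain ⟨x, hx⟩ := hr (φ.symm y)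
    exact ⟨x, by change φ (r x) = y; rw [hx, AddEquiv.apply_symm_apply]⟩
  · exact Module.Free.of_equiv φ.toIntLinearEquiv

end CdresAux

theorem cdres : S_pdres → S_cdres := by
  intro hp E _ n h
  have hfree : Module.Free ℤ (Representation.trivial ℤ E ℤ).asModule :=
    Module.Free.of_equiv (Representation.trivial ℤ E ℤ).asModuleEquiv.symm
  have h1 := hp E n (Representation.trivial ℤ E ℤ).asModule hfree h
  refine CdresAux.transport (iM := actOf E _)
    ((Representation.trivial ℤ E ℤ).asModuleEquiv.toAddEquiv : _ ≃+ TrivZ E) ?_ h1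
  intro e m
  have h2 : (Representation.trivial ℤ E ℤ).asModuleEquiv
      ((MonoidAlgebra.single e (1 : ℤ)) • m) = (Representation.trivial ℤ E ℤ).asModuleEquiv m := by
    rw [Representation.asModuleEquiv_map_smul, Representation.asAlgebraHom_single, one_smul]
    rfl
  exact h2

theorem cdss : S_cdres → S_resss → S_base → S_cdss := by
  intro h1 h2 h3 E _ n h
  refine h2 E (fun C => C = ⊥) (fun C hC => ?_) (n + 1) (h1 E n h)
  subst hC
  intro LL _ _ hLL
  exact h3 LL hLL _

end Pool.Agent.Hier
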