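import Pool.Agent.Lib.MP_8f66f0_al_HierZ.SpecZT

/-! The basis of an extension of free abelian groups. -/

set_option autoImplicit false

namespace Pool.Agent.Hier

open Pool.Agent.Wald Pool.Agent.Ind

theorem exbas : S_exbas := by
  intro P' P P'' B' B'' _ _ _ i r bP' bP'' hi hex hr
  let i' : P' →ₗ[ℤ] P := i.toIntLinearMap
  let r' : P →ₗ[ℤ] P'' := r.toIntLinearMap
  choose σ hσ using fun b => hr (bP'' b)
  let s : P'' →ₗ[ℤ] P := bP''.constr ℤ σ
  have hs : ∀ b, s (bP'' b) = σ b := fun b => bP''.constr_basis ℤ σ b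
  have hrs : ∀ x, r (s x) = x := by
    have : r' ∘ₗ s = LinearMap.id := by
      refine bP''.ext fun b => ?_
      change r (s (bP'' b)) = bP'' b
      rw [hs, hσ]
    exact fun x => LinearMap.congr_fun this x
  let Φ : (P'' × P') →ₗ[ℤ] P := s.coprod i'
  have hΦ : ∀ x y, Φ (x, y) = s x + i y := fun x y => LinearMap.coprod_apply _ _ _
  have hri : ∀ y, r (i y) = 0 := fun y => (hex (i y)).2 ⟨y, rfl⟩
  have hbij : Function.Bijective Φ := by
    constructor
    · rw [← LinearMap.ker_eq_bot, LinearMap.ker_eq_bot']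
      rintro ⟨x, y⟩ h
      rw [hΦ] at h
      have h1 : x = 0 := by
        have := congrArg r h
        rwa [map_add, hrs, hri, add_zero, map_zero] at this
      subst h1
      rw [map_zero, zero_add] at h
      have h2 : y = 0 := hi (h.trans (map_zero i).symm)
      subst h2
      rfl
    · intro p
      obtain ⟨y, hy⟩ := (hex (p - s (r p))).1 (by rw [map_sub, hrs, sub_self])
      exact ⟨(r p, y), by rw [hΦ, hy, add_sub_cancel]⟩
  refine ⟨(bP''.prod bP').map (LinearEquiv.ofBijective Φ hbij), fun b => ?_, fun b => ?_⟩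
  · rw [Module.Basis.map_apply, Module.Basis.prod_apply]
    change r (Φ (bP'' b, 0)) = bP'' b
    rw [hΦ, map_zero, add_zero, hrs]
  · rw [Module.Basis.map_apply, Module.Basis.prod_apply]
    change Φ (0, bP' b) = i (bP' b)
    rw [hΦ, map_zero, zero_add]

end Pool.Agent.Hier
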