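import Pool.Agent.Lib.MP_8f66f0_al_HierZ.Freesub

/-! R6: the modules in a resolution by permutation modules are `ℤ`-free. -/

set_option autoImplicit false

namespace Pool.Agent.Hier

open Pool.Agent.Wald Pool.Agent.Ind

/-- R6. All modules in such a resolution are `ℤ`-free. -/
theorem exres : S_exres := by
  intro E _ 𝒞 n
  induction n with
  | zero => exact fun P _ _ _ h => h
  | succ n ih =>
    rintro P _ _ hP ⟨F, P', _, _, _, _, i, r, hi, hex, hr, hF, hP'⟩
    obtain ⟨X, _, b, hb, hs⟩ := id hF
    have : Module.Free ℤ F := Module.Free.of_basis b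
    let i' : P' →ₗ[ℤ] F := (i : P' →+ F).toIntLinearMap
    have hfree : Module.Free ℤ (LinearMap.range i') := freesub F _
    have hP'f : Module.Free ℤ P' :=
      Module.Free.of_equiv (LinearEquiv.ofInjective i' hi).symm
    exact ⟨F, P', _, _, _, _, i, r, hi, hex, hr, hP, hP'f, hF, ih P' hP'f hP'⟩

end Pool.Agent.Hier
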