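import Pool.Agent.Lib.MP_8f66f0_al_HierZ.FamSub

/-! A family of letters with finitely many orbits. -/

set_option autoImplicit false

namespace Pool.Agent.Hier

open Pool.Agent.Wald Pool.Agent.Ind

/-- The statement for the set of orbits `O`. -/
private def FF (O : Type) : Prop :=
  ∀ (LL E Q' T Λ : Type) [CommRing LL] [Group E] [Ring Q'] [Algebra LL Q']
    [Ring T] [Algebra LL T] [Module.Free LL Q'] (f : Q' →ₐ[LL] T) (ρ : E →* Q') (ℓ : Λ → T)
    (o : Λ → O) (Cs : O → Subgroup E),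
    (∃ s : Q' →ₗ[LL] MonoidAlgebra LL E, ∀ x, s (gr LL ρ x) = x) →
    FreeW (f : Q' →+* T) ℓ → FamRule LL f ρ ℓ o Cs → (∀ i, SL LL (Cs i)) → KT (f : Q' →+* T)

private theorem ff_equiv {O O' : Type} (e : O ≃ O') (h : FF O) : FF O' := by
  intro LL E Q' T Λ _ _ _ _ _ _ _ f ρ ℓ o Cs hret hfree hfam hS
  refine h LL E Q' T Λ f ρ ℓ (fun a => e.symm (o a)) (fun i => Cs (e i)) hret hfree ?_
    fun i => hS (e i)
  intro a q
  obtain ⟨c, x, hx, hc⟩ := famRule_at hfam a q (e (e.symm (o a))) (e.apply_symm_apply _).symm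
  refine ⟨c, x, fun b hb => ?_, hc⟩
  have h1 := hx b hb
  show e.symm (o b) = e.symm (o a)
  rw [h1, Equiv.symm_apply_apply]

private theorem ff_empty : FF PEmpty := by
  intro LL E Q' T Λ _ _ _ _ _ _ _ f ρ ℓ o Cs _ hfree _ _
  have : IsEmpty Λ := ⟨fun a => (o a).elim⟩
  exact kt_of_surj _ (freeW_isEmpty (f : Q' →+* T) ℓ hfree)

private theorem ff_option (h1 : S_add) {O : Type} (h : FF O) : FF (Option O) := by
  classical
  intro LL E Q' T Λ _ _ _ _ _ _ _ f ρ ℓ o Cs hret hfree hfam hS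
  have hp : ∀ a b, o a ≠ none → o b = o a → o b ≠ none := fun a b ha hb => hb ▸ ha
  have hcl := cl_sub hfam (fun a => o a ≠ none) hp
  have hfr := freeW_sumCompl hfree (fun a => o a ≠ none)
  obtain ⟨T₀, f₀, a₀, hf₀, ha₀, hfr₀, hkt⟩ := h1 LL (Cs none) Q' T {a // o a ≠ none}
    {a // ¬ o a ≠ none} (ρ.comp (Cs none).subtype) f (fun x => ℓ x.1) (fun y => ℓ y.1) hfr hcl
    (fun y q => by
      obtain ⟨c, x, -, hc⟩ := famRule_sub_at hfam (fun a => ¬ o a ≠ none) y.1 q none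
        (not_not.1 y.2) fun b hb => not_not.2 hb
      exact ⟨c, x, hc⟩)
    (ret_sub ρ (Cs none) hret) (hS none)
  choose o' ho' using fun x : {a // o a ≠ none} => Option.ne_none_iff_exists'.1 x.2
  have hfam₀ : FamRule LL f₀ ρ a₀ o' (fun i => Cs (some i)) :=
    famRule_sub hfam (fun a => o a ≠ none) T₀ f₀ a₀ hf₀ ha₀ o' some
      (Option.some_injective O) ho' hp
  have hk := h LL E Q' T₀ {a // o a ≠ none} f₀ ρ a₀ o' (fun i => Cs (some i)) hret hfr₀ hfam₀
    fun i => hS (some i)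
  have e : ((T₀.val : T₀ →ₐ[LL] T) : T₀ →+* T).comp (f₀ : Q' →+* T₀) = (f : Q' →+* T) :=
    RingHom.ext fun q => hf₀ q
  rw [← e]
  exact kt_comp _ _ hk hkt

theorem famfin (h1 : S_add) (_h2 : S_twp) : S_famfin := by
  intro O _
  exact Finite.induction_empty_option (P := FF) (fun e h => ff_equiv e h) ff_empty
    (fun {_} _ h => ff_option h1 h) O

end Pool.Agent.Hier
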