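import Pool.Agent.Lib.MP_8f66f0_al_HierZ.SpecZT

/-! The letters of `T(P)` are closed, and `K_1`. -/

set_option autoImplicit false

namespace Pool.Agent.Hier

open Pool.Agent.Wald Pool.Agent.Ind

theorem ktp (h : S_twp) : S_ktp := by
  intro LL E Q' I P P'' B T _ _ _ _ _ _ _ _ ρ D r bP _ _ f w hT
  refine ⟨?_, ?_⟩
  · rintro ⟨b, i⟩ q
    refine ⟨D.c i (r (bP b)) q, twP ρ bP (bP b) (D.x i q), ?_⟩
    rw [h.1 LL E Q' T I P B ρ bP f w (bP b) (D.x i q)]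
    exact hT.rel i (bP b) q
  · intro hret _ hS
    exact hS Q' T I B bP f ρ w
      ⟨hT.free, fun i q => ⟨D.x i q, fun p => ⟨D.c i (r p) q, hT.rel i p q⟩⟩, hret⟩

end Pool.Agent.Hier
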