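import Pool.Agent.Lib.MP_8f66f0_al_HierZ.SpecZP

/-! Stage 2, block ZP: permutation modules. -/

set_option autoImplicit false

namespace Pool.Agent.Hier

theorem perm (h1 : S_basisp) (h2 : S_permlet) (h3 : S_fam) (h4 : S_twp) : S_perm := by
  rintro LL E P _ _ _ _ ⟨X, _, b, hb, hst⟩ Q' Q I B _ _ _ _ _ bP f ρ w hL
  have hCl : Cl (f : Q' →+* Q) (fun a : B × I => w a.2 (bP a.1)) := by
    rintro ⟨k, i⟩ q
    obtain ⟨x, hx⟩ := hL.right i q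
    obtain ⟨c, hc⟩ := hx (bP k)
    refine ⟨c, twP ρ bP (bP k) x, ?_⟩
    rw [h4.1 LL E Q' Q I P B ρ bP f w (bP k) x]
    exact hc
  have hF := (h1 Q' Q I P B X (f : Q' →+* Q) w bP b hL.free hCl).1
  have hL' : IsLTP LL b f ρ w := ⟨hF, hL.right, hL.ret⟩
  obtain ⟨ℓ, x₀, hℓ, hR⟩ := h2 LL E Q' Q I P X b f ρ w hb hL'
  exact h3 _ LL E Q' Q (X × I) f ρ ℓ _ _ hL.ret hℓ hR fun ω => hst (x₀ ω)

end Pool.Agent.Hier
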