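import Pool.Agent.Lib.MP_8f66f0_al_HierZ.SpecZP

/-! Block ZP, module Permlet: the letters of a permutation module. -/

set_option autoImplicit false

namespace Pool.Agent.Hier

open Pool.Agent.Wald Pool.Agent.Ind

private theorem pl_lin_single {Q' T Λ : Type} [Ring Q'] [Ring T] (f : Q' →+* T) (ℓ : Λ → T)
    (a : Λ) (q : Q') : lin f ℓ (Finsupp.single a q) = f q * ℓ a := by
  unfold lin
  rw [Finsupp.sum_single_index]
  rw [map_zero, zero_mul]

theorem permlet (h1 : S_change) (h2 : S_twp) : S_permlet := by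
  classical
  intro LL E Q' Q I P X _ _ _ _ _ _ _ _ _ b f ρ w hb hw
  -- representatives
  let x₀ : Quotient (MulAction.orbitRel E X) → X := Quotient.out
  have hrep : ∀ x : X, ∃ s : E, s • x = x₀ (Quotient.mk _ x) := by
    intro x
    have h : (MulAction.orbitRel E X).r (x₀ (Quotient.mk _ x)) x :=
      Quotient.exact (Quotient.out_eq (Quotient.mk (MulAction.orbitRel E X) x))
    have h3 : x₀ (Quotient.mk _ x) ∈ MulAction.orbit E x := h
    exact h3
  choose sv hsv using hrep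
  have hq : ∀ (x : X) (e : E), (Quotient.mk _ (e • x) : Quotient (MulAction.orbitRel E X)) =
      Quotient.mk _ x := fun x e => Quotient.sound (MulAction.mem_orbit x e)
  let ℓ₀ : X × I → Q := fun a => w a.2 (b a.1)
  let ℓ : X × I → Q := fun a => f (ρ (sv a.1)) * ℓ₀ a
  have hCl : Cl (f : Q' →+* Q) ℓ₀ := by
    rintro ⟨x, i⟩ q
    obtain ⟨y, hy⟩ := hw.right i q
    obtain ⟨c, hc⟩ := hy (b x)
    refine ⟨c, twP ρ b (b x) y, ?_⟩
    rw [h2.1 LL E Q' Q I P X ρ b f w (b x) y]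
    exact hc
  obtain ⟨hfree, -⟩ := h1 Q' Q (X × I) (X × I) (f : Q' →+* Q) ℓ₀ ℓ
    (fun a => Finsupp.single a (ρ (sv a.1))) (fun a => Finsupp.single a (ρ (sv a.1)⁻¹))
    hw.free hCl
    (fun a => by
      rw [pl_lin_single]
      rfl)
    (fun a => by
      rw [Finsupp.sum_single_index (by rw [zero_smul])]
      rw [Finsupp.smul_single, smul_eq_mul, ← map_mul, mul_inv_cancel, map_one])
    (fun a => by
      rw [Finsupp.sum_single_index (by rw [zero_smul])]
      rw [Finsupp.smul_single, smul_eq_mul, ← map_mul, inv_mul_cancel, map_one])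
  refine ⟨ℓ, x₀, hfree, ?_⟩
  rintro ⟨x, i⟩ q
  set A := MulAction.stabilizer E (x₀ (Quotient.mk (MulAction.orbitRel E X) x)) with hAdef
  -- the elements of `A`
  have hA : ∀ e : E, sv x * e * (sv (e⁻¹ • x))⁻¹ ∈ A := by
    intro e
    rw [hAdef, MulAction.mem_stabilizer_iff]
    have h3 : (sv (e⁻¹ • x))⁻¹ • x₀ (Quotient.mk _ x) = e⁻¹ • x := by
      rw [inv_smul_eq_iff, hsv, hq]
    rw [mul_smul, mul_smul, h3, smul_inv_smul, hsv]
  let ρ' : A →* Q' := ρ.comp A.subtype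
  have hmul : ∀ (e : E) (t : LL) (j : I),
      f (ρ (sv x)) * (t • (f (ρ e) * w j (e⁻¹ • b x))) =
      f (gr LL ρ' (MonoidAlgebra.single ⟨_, hA e⟩ t)) * ℓ (e⁻¹ • x, j) := by
    intro e t j
    show _ = f (gr LL ρ' (MonoidAlgebra.single ⟨_, hA e⟩ t)) *
      (f (ρ (sv (e⁻¹ • x))) * w j (b (e⁻¹ • x)))
    rw [hb]
    generalize w j (e⁻¹ • b x) = W₀
    rw [← mul_assoc, ← map_mul]
    have h3 : gr LL ρ' (MonoidAlgebra.single ⟨_, hA e⟩ t) =
        t • ρ (sv x * e * (sv (e⁻¹ • x))⁻¹) := MonoidAlgebra.lift_single _ _ _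
    rw [h3, smul_mul_assoc, ← map_mul, inv_mul_cancel_right, map_mul, map_smul, map_mul,
      smul_mul_assoc, mul_smul_comm, mul_assoc]
  obtain ⟨y, hy⟩ := hw.right i q
  obtain ⟨c, hc⟩ := hy (b x)
  let F : ((X × I) →₀ MonoidAlgebra LL A) →+ Q :=
    Finsupp.liftAddHom fun j =>
      (AddMonoidHom.mulRight (ℓ j)).comp
        ((f : Q' →+* Q).toAddMonoidHom.comp (gr LL ρ' : MonoidAlgebra LL A →+* Q').toAddMonoidHom)
  have hF : ∀ z : (X × I) →₀ MonoidAlgebra LL A,
      (z.sum fun j r => f (gr LL ρ' r) * ℓ j) = F z := fun z => rfl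
  refine ⟨ρ (sv x) * c, y.sum fun j r => r.coeff.sum fun e t =>
    Finsupp.single (e⁻¹ • x, j) (MonoidAlgebra.single ⟨_, hA e⟩ t), ?_, ?_⟩
  · rintro ⟨x', j'⟩ hx'
    by_contra hne
    apply (Finsupp.mem_support_iff.1 hx')
    rw [Finsupp.sum, Finsupp.finsetSum_apply]
    refine Finset.sum_eq_zero fun j _ => ?_
    rw [Finsupp.sum, Finsupp.finsetSum_apply]
    refine Finset.sum_eq_zero fun e _ => ?_
    refine Finsupp.single_eq_of_ne ?_
    intro h3
    apply hne
    have h4 : x' = e⁻¹ • x := congrArg Prod.fst h3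
    show (Quotient.mk _ x' : Quotient (MulAction.orbitRel E X)) = Quotient.mk _ x
    rw [h4, hq]
  · show f (ρ (sv x)) * w i (b x) * f q = f (ρ (sv x) * c) + _
    rw [mul_assoc, hc, mul_add, ← map_mul]
    congr 1
    rw [hF, tl, Finsupp.sum, Finset.mul_sum, Finsupp.sum, map_sum]
    refine Finset.sum_congr rfl fun j _ => ?_
    rw [Finsupp.sum, Finset.mul_sum, Finsupp.sum, map_sum]
    refine Finset.sum_congr rfl fun e _ => ?_
    have h3 : F (Finsupp.single (e⁻¹ • x, j) (MonoidAlgebra.single ⟨_, hA e⟩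
        ((y j).coeff e))) = f (gr LL ρ' (MonoidAlgebra.single ⟨_, hA e⟩
        ((y j).coeff e))) * ℓ (e⁻¹ • x, j) := by
      rw [← hF, Finsupp.sum_single_index]
      rw [map_zero, map_zero, zero_mul]
    rw [h3]
    exact hmul e _ j

end Pool.Agent.Hier
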