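import Pool.Agent.Lib.MP_8f66f0_al_HierZ.SpecZR
import Pool.Agent.Lib.MP_8f66f0_al_Ind.Euc

/-! Induction along a resolution by permutation modules. -/

set_option autoImplicit false

namespace Pool.Agent.Hier

open Pool.Agent.Wald Pool.Agent.Ind

private theorem ress_perm (h2 : S_permz) {E P : Type} [Group E] [AddCommGroup P]
    [DistribMulAction E P] {𝒞 : Subgroup E → Prop} (h𝒞 : ∀ C, 𝒞 C → SS C)
    (hP : IsPermP E P 𝒞) (LL : Type) [CommRing LL] [IsDomain LL] (hL : IsEuc LL) :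
    SLP LL E P := by
  obtain ⟨X, mX, b, hb, hs⟩ := hP
  exact h2 LL E P ⟨X, mX, b, hb, fun x => h𝒞 _ (hs x) LL hL⟩

theorem resslp : S_stepz → S_permz → S_resslp := by
  intro h1 h2 E _ 𝒞 h𝒞 n
  induction n with
  | zero =>
    intro P _ _ hP LL _ _ hL
    exact ress_perm h2 h𝒞 hP LL hL
  | succ n ih =>
    intro P _ _ hP LL _ _ hL
    obtain ⟨F, P', _, _, _, _, i, r, hi, he, hr, hP1, hP2, hF, hP'⟩ := hP
    exact h1 LL E F P P' i r hi he hr hP1 hP2 (ress_perm h2 h𝒞 hF LL hL)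
      (ih P' hP' (LaurentSeries LL) (isEuc_laurent hL))

theorem resss : S_stepz → S_permz → S_slslp → S_resss := by
  intro h1 h2 h3 E _ 𝒞 h𝒞 n hn LL _ _ hL
  exact h3 LL E (resslp h1 h2 E 𝒞 h𝒞 n (TrivZ E) hn LL hL)

end Pool.Agent.Hier
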