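import Pool.Agent.Lib.MP_8f66f0_al_HierZ.SpecZT

/-! Stage 2, ZT1: structure constants of typed Land-Tamme data (helper49). -/

set_option autoImplicit false

namespace Pool.Agent.Hier

open Pool.Agent.Wald Pool.Agent.Ind

section ScpAux

variable {LL E Q' Q I P B : Type} [CommRing LL] [Group E] [Ring Q'] [Ring Q] [Algebra LL Q']
  [Algebra LL Q] [AddCommGroup P] [DistribMulAction E P]

/-- coefficients, as a linear map -/
private noncomputable def scpCo : MonoidAlgebra LL E →ₗ[LL] (E →₀ LL) where
  toFun := MonoidAlgebra.coeff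
  map_add' _ _ := rfl
  map_smul' _ _ := rfl

/-- `tl` for one letter, as a linear map -/
private noncomputable def scpT1 (σ : E → Q) (w : I → P →+ Q) (p : P) (j : I) :
    MonoidAlgebra LL E →ₗ[LL] Q :=
  (Finsupp.lsum LL fun e : E => LinearMap.toSpanSingleton LL Q (σ e * w j (e⁻¹ • p))).comp scpCo

private theorem scpT1_apply (σ : E → Q) (w : I → P →+ Q) (p : P) (j : I)
    (r : MonoidAlgebra LL E) :
    scpT1 σ w p j r = r.coeff.sum fun e t => t • (σ e * w j (e⁻¹ • p)) := by
  unfold scpT1
  rw [LinearMap.comp_apply, Finsupp.lsum_apply]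
  rfl

private theorem scpT1_single (σ : E → Q) (w : I → P →+ Q) (p : P) (j : I) (e : E) (t : LL) :
    scpT1 σ w p j (MonoidAlgebra.single e t) = t • (σ e * w j (e⁻¹ • p)) := by
  rw [scpT1_apply, MonoidAlgebra.coeff_single, Finsupp.sum_single_index (by rw [zero_smul])]

/-- `tl` as a linear map -/
private noncomputable def scpT (σ : E → Q) (w : I → P →+ Q) (p : P) :
    (I →₀ MonoidAlgebra LL E) →ₗ[LL] Q :=
  Finsupp.lsum LL fun j => scpT1 σ w p j

private theorem scpT_apply (σ : E → Q) (w : I → P →+ Q) (p : P) (x : I →₀ MonoidAlgebra LL E) :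
    scpT σ w p x = tl σ w x p := by
  unfold scpT tl
  rw [Finsupp.lsum_apply]
  exact Finsupp.sum_congr fun j _ => scpT1_apply σ w p j _

private theorem scpT_single (σ : E → Q) (w : I → P →+ Q) (p : P) (j : I)
    (r : MonoidAlgebra LL E) : scpT σ w p (Finsupp.single j r) = scpT1 σ w p j r := by
  unfold scpT
  rw [Finsupp.lsum_single]

private theorem scpT_addp (σ : E → Q) (w : I → P →+ Q) (p p' : P)
    (x : I →₀ MonoidAlgebra LL E) : scpT σ w (p + p') x = scpT σ w p x + scpT σ w p' x := by
  induction x using Finsupp.induction_linear with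
  | zero => rw [map_zero, map_zero, map_zero, add_zero]
  | add x y hx hy => rw [map_add, map_add, map_add, hx, hy]; abel
  | single j r =>
    rw [scpT_single, scpT_single, scpT_single]
    induction r using MonoidAlgebra.induction_linear with
    | zero => rw [map_zero, map_zero, map_zero, add_zero]
    | add x y hx hy => rw [map_add, map_add, map_add, hx, hy]; abel
    | single e t =>
      rw [scpT1_single, scpT1_single, scpT1_single, smul_add, map_add, mul_add, smul_add]

private theorem scpT_smul (ρ : E →* Q) (w : I → P →+ Q) (p : P)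
    (r : MonoidAlgebra LL E) (x : I →₀ MonoidAlgebra LL E) :
    scpT (fun e => ρ e) w p (r • x) =
      r.coeff.sum fun e t => t • (ρ e * scpT (fun e => ρ e) w (e⁻¹ • p) x) := by
  induction x using Finsupp.induction_linear with
  | zero =>
    rw [smul_zero, map_zero]
    symm
    refine Finset.sum_eq_zero fun e _ => ?_
    simp only
    rw [map_zero, mul_zero, smul_zero]
  | add x y h h' =>
    rw [smul_add, map_add, h, h', ← Finsupp.sum_add]
    refine Finsupp.sum_congr fun e _ => ?_
    rw [map_add, mul_add, smul_add]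
  | single j s =>
    rw [Finsupp.smul_single, smul_eq_mul, scpT_single]
    simp only [scpT_single]
    induction r using MonoidAlgebra.induction_linear with
    | zero =>
      rw [zero_mul, map_zero]
      rfl
    | add r r' h h' =>
      rw [add_mul, map_add, h, h', MonoidAlgebra.coeff_add, Finsupp.sum_add_index']
      · intro e
        rw [zero_smul]
      · intro e t t'
        rw [add_smul]
    | single e t =>
      rw [MonoidAlgebra.coeff_single, Finsupp.sum_single_index (by rw [zero_smul])]
      induction s using MonoidAlgebra.induction_linear with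
      | zero => rw [mul_zero, map_zero, map_zero, mul_zero, smul_zero]
      | add s s' h h' => rw [mul_add, map_add, map_add, h, h', mul_add, smul_add]
      | single e' t' =>
        rw [MonoidAlgebra.single_mul_single, scpT1_single, scpT1_single, mul_inv_rev,
          mul_smul e'⁻¹ e⁻¹ p, map_mul, mul_smul_comm, mul_smul t t', mul_assoc]

/-- the coefficient of `twP` at a letter -/
private noncomputable def scpN (bP : Module.Basis B ℤ P) (p : P) (b : B) :
    MonoidAlgebra LL E →ₗ[LL] MonoidAlgebra LL E :=
  (Finsupp.lsum LL fun e : E =>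
    LinearMap.toSpanSingleton LL (MonoidAlgebra LL E)
      (MonoidAlgebra.single e (((bP.repr (e⁻¹ • p)) b : ℤ) : LL))).comp scpCo

private theorem scpN_single (bP : Module.Basis B ℤ P) (p : P) (b : B) (e : E) (t : LL) :
    scpN bP p b (MonoidAlgebra.single e t) =
      MonoidAlgebra.single e (t * (((bP.repr (e⁻¹ • p)) b : ℤ) : LL)) := by
  unfold scpN
  rw [LinearMap.comp_apply]
  have h : (scpCo (MonoidAlgebra.single e t) : E →₀ LL) = Finsupp.single e t := rfl
  rw [h, Finsupp.lsum_single, LinearMap.toSpanSingleton_apply, MonoidAlgebra.smul_single,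
    smul_eq_mul]

private theorem scpN_coeff (bP : Module.Basis B ℤ P) (p : P) (b : B) (r : MonoidAlgebra LL E)
    (e : E) : (scpN bP p b r).coeff e = r.coeff e * (((bP.repr (e⁻¹ • p)) b : ℤ) : LL) := by
  classical
  induction r using MonoidAlgebra.induction_linear with
  | zero =>
    rw [map_zero]
    simp
  | add r r' h h' =>
    rw [map_add, MonoidAlgebra.coeff_add, MonoidAlgebra.coeff_add, Finsupp.add_apply,
      Finsupp.add_apply, h, h', add_mul]
  | single e' t =>
    rw [scpN_single, MonoidAlgebra.coeff_single, MonoidAlgebra.coeff_single,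
      Finsupp.single_apply, Finsupp.single_apply]
    split_ifs with hh
    · rw [hh]
    · rw [zero_mul]

/-- `twP` as an additive map -/
private noncomputable def scpW (ρ : E →* Q') (bP : Module.Basis B ℤ P) (p : P) :
    (I →₀ MonoidAlgebra LL E) →ₗ[LL] ((B × I) →₀ Q') :=
  Finsupp.lsum LL fun j => (Finsupp.lsum LL fun e : E =>
    LinearMap.toSpanSingleton LL ((B × I) →₀ Q')
      ((bP.repr (e⁻¹ • p)).sum fun b n => Finsupp.single (b, j) (n • ρ e))).comp scpCo

private theorem scpW_apply (ρ : E →* Q') (bP : Module.Basis B ℤ P) (p : P)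
    (x : I →₀ MonoidAlgebra LL E) : scpW ρ bP p x = twP ρ bP p x := by
  unfold scpW twP
  rw [Finsupp.lsum_apply]
  refine Finsupp.sum_congr fun j _ => ?_
  rw [LinearMap.comp_apply, Finsupp.lsum_apply]
  refine Finsupp.sum_congr fun e _ => ?_
  rw [LinearMap.toSpanSingleton_apply, Finsupp.sum, Finsupp.sum, Finset.smul_sum]
  refine Finset.sum_congr rfl fun b _ => ?_
  rw [Finsupp.smul_single, smul_comm]

private theorem scpW_coeff (ρ : E →* Q') (bP : Module.Basis B ℤ P) (p : P)
    (x : I →₀ MonoidAlgebra LL E) (b : B) (j : I) :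
    scpW ρ bP p x (b, j) = gr LL ρ (scpN bP p b (x j)) := by
  classical
  induction x using Finsupp.induction_linear with
  | zero => rw [map_zero, Finsupp.zero_apply, Finsupp.zero_apply, map_zero, map_zero]
  | add x y hx hy =>
    rw [map_add, Finsupp.add_apply, hx, hy, Finsupp.add_apply, map_add, map_add]
  | single i r =>
    have h1 : scpW ρ bP p (Finsupp.single i r) (b, j) =
        if i = j then gr LL ρ (scpN bP p b r) else 0 := by
      induction r using MonoidAlgebra.induction_linear with
      | zero =>
        rw [Finsupp.single_zero, map_zero, map_zero, map_zero, Finsupp.zero_apply]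
        split_ifs <;> rfl
      | add x y hx hy =>
        rw [Finsupp.single_add, map_add, Finsupp.add_apply, hx, hy, map_add, map_add]
        split_ifs
        · rfl
        · rw [add_zero]
      | single e t =>
        unfold scpW
        rw [Finsupp.lsum_single, LinearMap.comp_apply]
        have h : (scpCo (MonoidAlgebra.single e t) : E →₀ LL) = Finsupp.single e t := rfl
        rw [h, Finsupp.lsum_single, LinearMap.toSpanSingleton_apply, Finsupp.smul_apply,
          Finsupp.sum_apply, scpN_single, MonoidAlgebra.lift_single]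
        by_cases hij : i = j
        · rw [if_pos hij]
          subst hij
          have h2 : ((bP.repr (e⁻¹ • p)).sum fun b' n =>
              (Finsupp.single (b', i) (n • ρ e) : (B × I) →₀ Q') (b, i)) =
              (bP.repr (e⁻¹ • p) b) • ρ e := by
            rw [Finsupp.sum]
            have h3 : ∀ b' ∈ (bP.repr (e⁻¹ • p)).support,
                (Finsupp.single (b', i) ((bP.repr (e⁻¹ • p)) b' • ρ e) : (B × I) →₀ Q') (b, i) =
                if b' = b then (bP.repr (e⁻¹ • p)) b' • ρ e else 0 := by
              intro b' _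
              rw [Finsupp.single_apply]
              by_cases hb : b' = b
              · rw [if_pos hb, if_pos (by rw [hb])]
              · rw [if_neg hb, if_neg fun h4 => hb (Prod.ext_iff.1 h4).1]
            rw [Finset.sum_congr rfl h3, Finset.sum_ite_eq']
            split_ifs with h5
            · rfl
            · rw [Finsupp.notMem_support_iff.1 h5, zero_smul]
          rw [h2, mul_smul, Int.cast_smul_eq_zsmul]
        · rw [if_neg hij]
          have h2 : ((bP.repr (e⁻¹ • p)).sum fun b' n =>
              (Finsupp.single (b', i) (n • ρ e) : (B × I) →₀ Q') (b, j)) = 0 := by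
            refine Finset.sum_eq_zero fun b' _ => ?_
            simp only
            rw [Finsupp.single_apply, if_neg fun h4 => hij (Prod.ext_iff.1 h4).2]
          rw [h2, smul_zero]
    rw [h1, Finsupp.single_apply]
    split_ifs
    · rfl
    · rw [map_zero, map_zero]

/-- uniqueness of the coefficients -/
private theorem scp_x_inj (ρ : E →* Q') (bP : Module.Basis B ℤ P) (hB : Nonempty B)
    (hret : ∃ s : Q' →ₗ[LL] MonoidAlgebra LL E, ∀ x, s (gr LL ρ x) = x)
    (x y : I →₀ MonoidAlgebra LL E) (h : ∀ p, twP ρ bP p x = twP ρ bP p y) : x = y := by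
  obtain ⟨b⟩ := hB
  obtain ⟨s, hs⟩ := hret
  ext j e
  have h1 := h (e • bP b)
  rw [← scpW_apply, ← scpW_apply] at h1
  have h2 := DFunLike.congr_fun h1 (b, j)
  rw [scpW_coeff, scpW_coeff] at h2
  have h3 := congrArg s h2
  rw [hs, hs] at h3
  have h4 : (scpN bP (e • bP b) b (x j)).coeff e = (scpN bP (e • bP b) b (y j)).coeff e :=
    congrArg (fun r : MonoidAlgebra LL E => r.coeff e) h3
  rw [scpN_coeff, scpN_coeff, inv_smul_smul, Module.Basis.repr_self, Finsupp.single_eq_same,
    Int.cast_one, mul_one, mul_one] at h4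
  exact h4

/-- `ev` as an additive map. -/
private noncomputable def scpEv {Λ : Type} (f : Q' →ₐ[LL] Q) (ℓ : Λ → Q) : (List Λ →₀ Q') →+ Q :=
  Finsupp.liftAddHom fun u => (AddMonoidHom.mulRight (wd ℓ u)).comp ((f : Q' →+* Q) : Q' →+ Q)

private theorem scpEv_single {Λ : Type} (f : Q' →ₐ[LL] Q) (ℓ : Λ → Q) (u : List Λ) (q : Q') :
    scpEv f ℓ (Finsupp.single u q) = f q * wd ℓ u := by
  rw [scpEv, Finsupp.liftAddHom_apply_single]
  rfl

/-- words of length one -/
private noncomputable def scpV (Λ : Type) : (Λ →₀ Q') →+ (List Λ →₀ Q') :=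
  Finsupp.liftAddHom fun j => Finsupp.singleAddHom [j]

private theorem scpV_single {Λ : Type} (j : Λ) (q : Q') :
    scpV Λ (Finsupp.single j q) = Finsupp.single [j] q := by
  rw [scpV, Finsupp.liftAddHom_apply_single]
  rfl

private theorem scpV_nil {Λ : Type} (x : Λ →₀ Q') : scpV Λ x [] = 0 := by
  induction x using Finsupp.induction_linear with
  | zero => rw [map_zero]; rfl
  | add x y hx hy => rw [map_add, Finsupp.add_apply, hx, hy, add_zero]
  | single j s =>
    rw [scpV_single]
    exact Finsupp.single_eq_of_ne (by simp)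

private theorem scpV_one {Λ : Type} (x : Λ →₀ Q') (j : Λ) : scpV Λ x [j] = x j := by
  classical
  induction x using Finsupp.induction_linear with
  | zero => rw [map_zero, Finsupp.zero_apply, Finsupp.zero_apply]
  | add x y hx hy => rw [map_add, Finsupp.add_apply, hx, hy, Finsupp.add_apply]
  | single i s =>
    rw [scpV_single, Finsupp.single_apply, Finsupp.single_apply]
    by_cases h : i = j
    · rw [if_pos h, if_pos (by rw [h])]
    · rw [if_neg h, if_neg (by simpa using h)]

private theorem scpV_ev {Λ : Type} (f : Q' →ₐ[LL] Q) (ℓ : Λ → Q) (x : Λ →₀ Q') :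
    scpEv f ℓ (scpV Λ x) = lin (f : Q' →+* Q) ℓ x := by
  induction x using Finsupp.induction_linear with
  | zero => rw [map_zero, map_zero]; rfl
  | add x y hx hy =>
    rw [map_add, map_add, hx, hy]
    unfold lin
    rw [Finsupp.sum_add_index']
    · intro a
      rw [map_zero, zero_mul]
    · intro a b c
      rw [map_add, add_mul]
  | single i s =>
    rw [scpV_single, scpEv_single]
    unfold lin
    rw [Finsupp.sum_single_index (by rw [map_zero, zero_mul])]
    show f s * (1 * ℓ i) = _
    rw [one_mul]
    rfl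

private theorem scp_lin_inj {Λ : Type} (f : Q' →ₐ[LL] Q) (ℓ : Λ → Q)
    (hfree : FreeW (f : Q' →+* Q) ℓ) (c c' : Q') (x x' : Λ →₀ Q')
    (h : f c + lin (f : Q' →+* Q) ℓ x = f c' + lin (f : Q' →+* Q) ℓ x') : c = c' ∧ x = x' := by
  have hinj : Function.Injective (scpEv f ℓ) := hfree.1
  have e : ∀ (c : Q') (x : Λ →₀ Q'), f c + lin (f : Q' →+* Q) ℓ x =
      scpEv f ℓ (Finsupp.single [] c + scpV Λ x) := by
    intro c x
    rw [map_add, scpEv_single, scpV_ev]
    show f c + _ = f c * 1 + _
    rw [mul_one]
  rw [e, e] at h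
  have h1 := hinj h
  constructor
  · have h2 := DFunLike.congr_fun h1 []
    rw [Finsupp.add_apply, Finsupp.add_apply, scpV_nil, scpV_nil, add_zero, add_zero,
      Finsupp.single_eq_same, Finsupp.single_eq_same] at h2
    exact h2
  · ext j
    have h2 := DFunLike.congr_fun h1 [j]
    rw [Finsupp.add_apply, Finsupp.add_apply, scpV_one, scpV_one,
      Finsupp.single_eq_of_ne (by simp), Finsupp.single_eq_of_ne (by simp), zero_add,
      zero_add] at h2
    exact h2

/-- The map `(c, x) ↦ (p ↦ f c_p + tl x p)`. -/
private noncomputable def scpPhi (f : Q' →ₐ[LL] Q) (σ : E → Q) (w : I → P →+ Q) :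
    (P → Q') × (I →₀ MonoidAlgebra LL E) →ₗ[LL] (P → Q) :=
  LinearMap.pi fun p => (f.toLinearMap.comp (LinearMap.proj p)).coprod (scpT σ w p)

private theorem scpPhi_apply (f : Q' →ₐ[LL] Q) (σ : E → Q) (w : I → P →+ Q) (c : P → Q')
    (x : I →₀ MonoidAlgebra LL E) (p : P) :
    scpPhi f σ w (c, x) p = f (c p) + scpT σ w p x := rfl

end ScpAux

/-- ZT1. Typed structure constants exist. -/
theorem scp (h : S_twp) : S_scp := by
  classical
  intro LL E Q' Q I P B _ _ _ _ _ _ _ _ bP f ρ w hB hlt
  set σ : E → Q := fun e => f (ρ e) with hσ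
  let ρ' : E →* Q := (f : Q' →* Q).comp ρ
  -- injectivity
  have hinj : Function.Injective (scpPhi f σ w) := by
    rintro ⟨c, x⟩ ⟨c', x'⟩ hxy
    have h1 : ∀ p, c p = c' p ∧ twP ρ bP p x = twP ρ bP p x' := by
      intro p
      have h2 := congrFun hxy p
      rw [scpPhi_apply, scpPhi_apply, scpT_apply, scpT_apply, ← h.1 LL E Q' Q I P B ρ bP f w p x,
        ← h.1 LL E Q' Q I P B ρ bP f w p x'] at h2
      exact scp_lin_inj f _ hlt.free _ _ _ _ h2
    exact Prod.ext (funext fun p => (h1 p).1)
      (scp_x_inj ρ bP hB hlt.ret x x' fun p => (h1 p).2)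
  have hf : Function.Injective f := by
    intro c c' hc
    exact (scp_lin_inj f _ hlt.free c c' 0 0 (by rw [hc])).1
  have hex : ∀ (i : I) (q : Q'), ∃ V : (P → Q') × (I →₀ MonoidAlgebra LL E),
      scpPhi f σ w V = fun p => w i p * f q := by
    intro i q
    obtain ⟨x, hx⟩ := hlt.right i q
    choose c hc using hx
    refine ⟨(c, x), ?_⟩
    funext p
    rw [scpPhi_apply, scpT_apply, ← hc p]
  choose V hV using hex
  let PL : ∀ i : I, Q' →ₗ[LL] (P → Q') × (I →₀ MonoidAlgebra LL E) := fun i =>
    { toFun := V i
      map_add' := fun q q' => hinj (by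
        rw [map_add, hV, hV, hV]
        funext p
        rw [Pi.add_apply, map_add, mul_add])
      map_smul' := fun r q => hinj (by
        rw [RingHom.id_apply, map_smul, hV, hV]
        funext p
        rw [Pi.smul_apply, map_smul, mul_smul_comm]) }
  have hPL : ∀ i q, scpPhi f σ w (PL i q) = fun p => w i p * f q := hV
  have hrel : ∀ i q p, w i p * f q = f ((PL i q).1 p) + scpT σ w p (PL i q).2 := by
    intro i q p
    exact (congrFun (hPL i q) p).symm
  have hadd : ∀ i q p p', (PL i q).1 (p + p') = (PL i q).1 p + (PL i q).1 p' := by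
    intro i q p p'
    apply hf
    have h1 := hrel i q (p + p')
    rw [map_add, add_mul, hrel, hrel, scpT_addp] at h1
    rw [map_add]
    have h2 : f ((PL i q).1 (p + p')) + (scpT σ w p (PL i q).2 + scpT σ w p' (PL i q).2) =
        f ((PL i q).1 p) + f ((PL i q).1 p') +
          (scpT σ w p (PL i q).2 + scpT σ w p' (PL i q).2) := by
      rw [← h1]
      abel
    exact add_right_cancel h2
  have hmul : ∀ i q q', PL i (q * q') =
      ((fun p => (PL i q).1 p * q' + ((PL i q).2.sum fun j r => r.coeff.sum fun e t =>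
        t • (ρ e * (PL j q').1 (e⁻¹ • p)))),
        (PL i q).2.sum fun j r => r • (PL j q').2) := by
    intro i q q'
    apply hinj
    rw [hPL]
    funext p
    rw [map_mul, ← mul_assoc, hrel, scpPhi_apply, map_add, map_mul, add_mul, add_assoc]
    congr 1
    rw [scpT_apply, tl, Finsupp.sum, Finsupp.sum, Finsupp.sum, map_sum, map_sum, Finset.sum_mul,
      ← Finset.sum_add_distrib]
    refine Finset.sum_congr rfl fun j _ => ?_
    have h1 : scpT σ w p (((PL i q).2 j) • (PL j q').2) =
        ((PL i q).2 j).coeff.sum fun e t => t • (ρ' e * scpT σ w (e⁻¹ • p) (PL j q').2) :=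
      scpT_smul ρ' w p _ _
    rw [h1, Finsupp.sum, Finsupp.sum, Finsupp.sum, map_sum, Finset.sum_mul,
      ← Finset.sum_add_distrib]
    refine Finset.sum_congr rfl fun e _ => ?_
    rw [smul_mul_assoc, mul_assoc, hrel, map_smul, map_mul, ← smul_add]
    congr 1
    exact mul_add _ _ _
  have hone : ∀ i, PL i 1 = (0, Finsupp.single i 1) := by
    intro i
    apply hinj
    rw [hPL]
    funext p
    rw [scpPhi_apply, scpT_single]
    have h1 : (1 : MonoidAlgebra LL E) = MonoidAlgebra.single 1 1 := rfl
    rw [h1, scpT1_single, map_one, mul_one, Pi.zero_apply, map_zero, zero_add, one_smul, inv_one,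
      one_smul, hσ]
    simp only
    rw [map_one, map_one, one_mul]
  refine ⟨⟨fun i => AddMonoidHom.mk' (fun p => (LinearMap.proj p).comp
      ((LinearMap.fst LL _ _).comp (PL i))) (fun p p' => ?_),
    fun i => (LinearMap.snd LL _ _).comp (PL i),
    fun i p => ?_, fun i => ?_, fun i p q q' => ?_,
    fun i q q' => congrArg Prod.snd (hmul i q q')⟩, fun i p q => ?_⟩
  · ext q
    exact hadd i q p p'
  · change (PL i 1).1 p = 0
    rw [hone]
    rfl
  · change (PL i 1).2 = _
    rw [hone]
  · change (PL i (q * q')).1 p = _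
    rw [hmul]
    rfl
  · rw [hrel, scpT_apply]
    rfl

end Pool.Agent.Hier
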