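import Pool.Agent.Lib.MP_8f66f0_al_HierZ.SpecZR

/-! The trivial type gives all Land-Tamme data. -/

set_option autoImplicit false

namespace Pool.Agent.Hier

open Pool.Agent.Wald Pool.Agent.Ind

private theorem sls_wd {T Λ Λ' : Type} [Ring T] (ℓ : Λ → T) (g : Λ' → Λ) (u : List Λ') :
    wd ℓ (u.map g) = wd (fun a => ℓ (g a)) u := by
  induction u with
  | nil => rfl
  | cons a u ih => rw [List.map_cons, wd, wd, ih]

private theorem sls_ev {Q' T Λ Λ' : Type} [Ring Q'] [Ring T] (f : Q' →+* T) (ℓ : Λ → T)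
    (g : Λ' → Λ) (x : List Λ' →₀ Q') :
    ev f ℓ (Finsupp.mapDomain (List.map g) x) = ev f (fun a => ℓ (g a)) x := by
  unfold ev
  rw [Finsupp.sum_mapDomain_index (fun u => by rw [map_zero, zero_mul])
    (fun u q q' => by rw [map_add, add_mul])]
  refine Finset.sum_congr rfl fun u _ => ?_
  beta_reduce
  rw [sls_wd]

private theorem sls_free {Q' T Λ Λ' : Type} [Ring Q'] [Ring T] (f : Q' →+* T) (ℓ : Λ → T)
    (g : Λ' ≃ Λ) (h : FreeW f ℓ) : FreeW f (fun a => ℓ (g a)) := by
  have h1 : ev f (fun a => ℓ (g a)) = ev f ℓ ∘ Finsupp.mapDomain (List.map g) :=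
    funext fun x => (sls_ev f ℓ g x).symm
  have h2 : Function.Bijective (Finsupp.mapDomain (List.map g) : (List Λ' →₀ Q') → (List Λ →₀ Q')) :=
    ⟨Finsupp.mapDomain_injective (List.map_injective_iff.2 g.injective),
      Finsupp.mapDomain_surjective (List.map_surjective_iff.2 g.surjective)⟩
  unfold FreeW at h ⊢
  rw [h1]
  exact h.comp h2

/-- The homomorphism `n ↦ n a`. -/
private noncomputable def slsw (E : Type) {Q : Type} [Ring Q] (a : Q) : TrivZ E →+ Q where
  toFun n := (show ℤ from n) • a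
  map_zero' := zero_zsmul a
  map_add' n m := add_zsmul a n m

private theorem slsw_apply (E : Type) {Q : Type} [Ring Q] (a : Q) (n : TrivZ E) :
    slsw E a n = (show ℤ from n) • a := rfl

private noncomputable def slse (E : Type) : ℤ ≃+ TrivZ E where
  toFun n := n
  invFun n := n
  left_inv _ := rfl
  right_inv _ := rfl
  map_add' _ _ := rfl

private theorem sls_tl {LL E Q' Q I : Type} [CommRing LL] [Group E] [Ring Q'] [Ring Q]
    [Algebra LL Q'] [Algebra LL Q] (f : Q' →ₐ[LL] Q) (ρ : E →* Q') (w : I → Q)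
    (x : I →₀ MonoidAlgebra LL E) (p : TrivZ E) :
    tl (fun e => f (ρ e)) (fun i => slsw E (w i)) x p =
      (show ℤ from p) • x.sum fun j r => f (gr LL ρ r) * w j := by
  unfold tl
  rw [Finsupp.smul_sum]
  refine Finset.sum_congr rfl fun j _ => ?_
  have h1 : f (gr LL ρ (x j)) = (x j).coeff.sum fun e t => t • f (ρ e) := by
    rw [MonoidAlgebra.lift_apply, map_finsuppSum]
    refine Finset.sum_congr rfl fun e _ => ?_
    beta_reduce
    rw [map_smul]
  beta_reduce
  rw [h1, Finsupp.sum_mul, Finsupp.smul_sum]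
  refine Finset.sum_congr rfl fun e _ => ?_
  beta_reduce
  rw [slsw_apply, mul_smul_comm, smul_comm, smul_mul_assoc]
  rfl

theorem slslp : S_slslp := by
  intro LL E _ _ h Q' Q I _ _ _ _ _ f ρ w hw
  have hb : ((Module.Basis.singleton Unit ℤ).map (slse E).toIntLinearEquiv) () =
      (show TrivZ E from (1 : ℤ)) := by
    rw [Module.Basis.map_apply, Module.Basis.singleton_apply]
    rfl
  refine h Q' Q I Unit ((Module.Basis.singleton Unit ℤ).map (slse E).toIntLinearEquiv) f ρ
    (fun i => slsw E (w i)) ⟨?_, ?_, hw.ret⟩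
  · have h1 := sls_free (f : Q' →+* Q) w (Equiv.punitProd I) hw.free
    have h2 : (fun a : Unit × I => slsw E (w a.2)
        (((Module.Basis.singleton Unit ℤ).map (slse E).toIntLinearEquiv) a.1)) =
        fun a => w (Equiv.punitProd I a) := by
      funext a
      obtain ⟨⟨⟩, i⟩ := a
      change slsw E (w i) (((Module.Basis.singleton Unit ℤ).map (slse E).toIntLinearEquiv) ()) = w i
      rw [hb, slsw_apply]
      exact one_zsmul (w i)
    rw [h2]
    exact h1
  · intro i q
    obtain ⟨c, x, hx⟩ := hw.right i q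
    refine ⟨x, fun p => ⟨(show ℤ from p) • c, ?_⟩⟩
    rw [sls_tl, slsw_apply, smul_mul_assoc, hx, smul_add, map_zsmul]

end Pool.Agent.Hier
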