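import Pool.Agent.Lib.MP_8f66f0_al_HierZ.Defs
import Pool.Agent.Lib.MP_8f66f0_al_Hier.Lau

/-! Typed blocks and the chain (stage 2, block L). Statements with proofs. -/

set_option autoImplicit false

namespace Pool.Agent.Hier

open Pool.Agent.Wald Pool.Agent.Ind
open scoped TensorProduct

/-- ZL1 (chain). Typed block data over `LL`, base changed to `LL'`.

Proof. Exactly `blk_kt` with typed letters. (a) Base change: `LL' ⊗ L`, blocks
`p ↦ 1 ⊗ b_β(p)`, `BlkP` over `LL'` (`tri`: the coefficients `y` are pushed forward along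
`LL → LL'`, `tl` commutes with `1 ⊗ ·`). (b) `L^(m)` := span of the words in blocks of size
`< m`; it is a subalgebra by `tri`; the typed combination `tl ρ b y p` lies in it when `sz < m`,
because `e⁻¹ p` is a `ℤ`-combination of the basis. (c) `L^(m+1)` over `L^(m)` is `IsLTP` over `C`
of the SAME type `P`, index set: pairs `(x, u)`, `x` a block index with `sz x = m`, `u` a word in
blocks of size `< m` (`u : List (B × {x // sz x < m})`), letters `w_{(x,u)}(p) = b_x(p) * wd u`.
`right`: for `q ∈ L^(m)`: `wd u * q = ∑_{u'} gr(h_{u'}) wd u'`, `h_{u'} ∈ LL'[C]`, and for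
`h = ∑_c h(c) c` typed `tri` gives `y_h := ∑_c h(c) • y_c` with `b_x(p) gr(h) - tl ρ b y_h p`
in the span of words in smaller blocks, for all `p`. So the coefficient of `x` at `(x', u')` is
`y_{h_{u'}}(x')`, independent of `p`. `ret`: the retraction of `L` restricted to `L^(m)`
(coefficient of the empty word). (d) Union of the chain. -/
def S_blkp : Prop :=
  ∀ (LL LL' C L β P B : Type) [CommRing LL] [CommRing LL'] [Algebra LL LL'] [Group C] [Ring L]
    [Algebra LL L] [AddCommGroup P] [DistribMulAction C P] (bP : Module.Basis B ℤ P)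
    (ρ : C →* L) (b : β → P →+ L) (sz : β → ℕ), BlkP LL bP ρ b sz → SLP LL' C P →
    KT (gr LL' (bch LL LL' ρ) : MonoidAlgebra LL' C →+* LL' ⊗[LL] L)

/-- ZL2 (typed PL).

Proof. L1 typed: `r` = the `LL`-span of the `f(ρ c) * (words whose first letter is a d-letter)`;
blocks `(j, s)`, `s : List I`, `b_{(j,s)}(p) = d_j(p) * wd a s`, size = length of `s`
(a block letter is `((k, j), s)` with `k ∈ B`). `L = LL[C] + r`, `FreeW` as in the untyped case.
`tri`, for all `q ∈ Q'` (not only `q = ρ c`), by induction on `s`: there is `y` supported on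
size `|s|`, independent of `p`, with `b_{(j,s)}(p) f(q) - tl (f ∘ ρ) b y p` in the span of the
NONEMPTY words in blocks of size `< |s|`. `s = []`: the typed rule. `s = i :: s₁` (last letter
`a_i`): `a_i f(q) = f(q₀) + ∑ f(q_k) a_k + ∑ f(q_b) d_b`; `b_{(j,s₁)}(p) f(q₀)`: words in blocks
of size `≤ |s₁|`; `b_{(j,s₁)}(p) f(q_k) a_k`: the typed part goes to
`tl (f ∘ ρ) b y' p`, `y'_{(j',k :: s')} = y(q_k)_{(j',s')}`, the rest to nonempty words whose
last block is prolonged by `a_k`, still of size `≤ |s₁|`; `b_{(j,s₁)}(p) f(q_b) d_b`: words in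
blocks of size `≤ |s₁|`. Then `S_blkp` for `LL' = LaurentSeries LL` and `S_Patch`. -/
def S_plp : Prop :=
  ∀ (LL C Q' Q I J T P B : Type) [CommRing LL] [IsDomain LL] [Group C] [Ring Q'] [Algebra LL Q']
    [Module.Free LL Q'] [Ring Q] [Algebra LL Q] [Ring T] [Algebra LL T] [AddCommGroup P]
    [DistribMulAction C P] (bP : Module.Basis B ℤ P) (ρ : C →* Q')
    (f : Q' →ₐ[LL] T) (a : I → T) (d : J → P →+ T) (π : T →ₐ[LL] Q),
    (∃ s : Q' →ₗ[LL] MonoidAlgebra LL C, ∀ x, s (gr LL ρ x) = x) →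
    FreeW (f : Q' →+* T) (Sum.elim a (fun x : B × J => d x.2 (bP x.1))) →
    Cl (f : Q' →+* T) (Sum.elim a (fun x : B × J => d x.2 (bP x.1))) →
    (∀ j q, ∃ x : J →₀ MonoidAlgebra LL C, ∀ p, d j p * f q = tl (fun e => f (ρ e)) d x p) →
    Function.Surjective π → (∀ j p, π (d j p) = 0) →
    (∀ t, π t = 0 → t ∈ AddSubgroup.closure {s | ∃ t₁ j p t₂, s = t₁ * d j p * t₂}) →
    SLP (LaurentSeries LL) C P → KT (π : T →+* Q)

end Pool.Agent.Hier
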