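import Pool.Agent.Lib.MP_8f66f0_al_HierZ.Defs
import Pool.Agent.Lib.MP_8f66f0_al_Wald.PdN

/-! Resolutions by permutation modules; groups of finite cohomological dimension; groups which
act on finite dimensional acyclic complexes (stage 2). Statements with proofs. -/

set_option autoImplicit false

namespace Pool.Agent.Hier

open Pool.Agent.Wald Pool.Agent.Ind

section Interface

/-- The step (block ZE, helper22): for an exact sequence `0 → P' → F → P → 0` of `ℤ`-free
`ℤ[E]`-modules. -/
def S_stepz : Prop :=
  ∀ (LL E F P P' : Type) [CommRing LL] [IsDomain LL] [Group E] [AddCommGroup F]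
    [DistribMulAction E F] [AddCommGroup P] [DistribMulAction E P] [AddCommGroup P']
    [DistribMulAction E P'] (i : P' →+[E] F) (r : F →+[E] P),
    Function.Injective i → Function.Exact i r → Function.Surjective r →
    Module.Free ℤ P → Module.Free ℤ P' →
    SLP LL E F → SLP (LaurentSeries LL) E P' → SLP LL E P

/-- Permutation modules (block ZE, helper22). -/
def S_permz : Prop :=
  ∀ (LL E P : Type) [CommRing LL] [Group E] [AddCommGroup P] [DistribMulAction E P],
    IsPermP E P (fun C => SL LL C) → SLP LL E P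

end Interface

section Comparison

/-- R1. Typed data are Land-Tamme data.

Proof. The letters `w_j(bP_k)`, `(k, j) ∈ B × I`: for `p = bP_b` and `x` from `IsLTP.right`,
`tl (f ∘ ρ) w x p = ∑_{j,e} x_j(e) ρ(e) w_j(e⁻¹ p) = ∑_{(k,j)} f (gr (y_{(k,j)})) w_j(bP_k)`,
`y_{(k,j)} = ∑_e (bP.repr (e⁻¹ p) k) • x_j(e) • single e 1`. -/
def S_slpsl : Prop :=
  ∀ (LL E P : Type) [CommRing LL] [Group E] [AddCommGroup P] [DistribMulAction E P],
    SL LL E → SLP LL E P

/-- R2. The trivial type.

Proof. Given `IsLT LL f ρ w`, put `w'_i : TrivZ E →+ Q`, `w'_i(n) = n • w_i`, basis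
`Basis.singleton Unit ℤ`. `FreeW` for the letters `Unit × I` is `FreeW` for the letters `I`
(reindexing of the letters along the bijection `Unit × I ≃ I`). `right`: the `x` of `IsLT.right`
and `c = p • c`. -/
def S_slslp : Prop :=
  ∀ (LL E : Type) [CommRing LL] [Group E], SLP LL E (TrivZ E) → SL LL E

end Comparison

section Res

/-- R3. Induction along a resolution.

Proof. Induction on `n` for all `LL`: `n = 0` is `S_permz` (`𝒞 C → SS C → SL LL C`). Step:
`S_stepz` with `SLP LL E F` from `S_permz` and `SLP (LaurentSeries LL) E P'` from the induction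
hypothesis, `isEuc_laurent`. -/
def S_resslp : Prop :=
  ∀ (E : Type) [Group E] (𝒞 : Subgroup E → Prop), (∀ C, 𝒞 C → SS C) →
    ∀ (n : ℕ) (P : Type) [AddCommGroup P] [DistribMulAction E P], ResP E 𝒞 n P →
      ∀ (LL : Type) [CommRing LL] [IsDomain LL], IsEuc LL → SLP LL E P

/-- R4. The group itself. Proof: R3 and R2. -/
def S_resss : Prop :=
  ∀ (E : Type) [Group E] (𝒞 : Subgroup E → Prop), (∀ C, 𝒞 C → SS C) →
    ∀ n : ℕ, ResP E 𝒞 n (TrivZ E) → SS E

/-- R5. Submodules of free `ℤ`-modules are free (arbitrary rank).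

Proof. `F` with basis `b : I → F`, `I` well-ordered (`WellOrderingRel`), `N ≤ F`. For `i : I` let
`N_i` be the submodule of the `x ∈ N` whose coordinates at all `j > i` vanish; the `i`-th
coordinates of `N_i` form an ideal `(a_i)` of `ℤ`; for `a_i ≠ 0` choose `x_i ∈ N_i` with
coordinate `a_i`. The family `x_i`, `i ∈ I' = {a_i ≠ 0}`, is linearly independent (look at the
largest index of a relation) and spans `N` (well-founded induction on the largest index in the
support of an element of `N`: if `i` is this index, the `i`-th coordinate is `m a_i ≠ 0` and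
`x - m x_i` has a smaller largest index). -/
def S_freesub : Prop :=
  ∀ (F : Type) [AddCommGroup F] [Module.Free ℤ F] (N : Submodule ℤ F), Module.Free ℤ N

end Res

section ExactComplexes

/-- `P` has a finite resolution `0 → F_n → ⋯ → F_0 → P → 0` of length `n` by permutation modules
with stabilizers in `𝒞`. -/
def ExP (E : Type) [Group E] (𝒞 : Subgroup E → Prop) :
    ℕ → ∀ (P : Type) [AddCommGroup P] [DistribMulAction E P], Prop
  | 0, P, _, _ => IsPermP E P 𝒞
  | n + 1, P, _, _ => ∃ (F P' : Type) (_ : AddCommGroup F) (_ : DistribMulAction E F)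
      (_ : AddCommGroup P') (_ : DistribMulAction E P') (i : P' →+[E] F) (r : F →+[E] P),
      Function.Injective i ∧ Function.Exact i r ∧ Function.Surjective r ∧
      IsPermP E F 𝒞 ∧ ExP E 𝒞 n P'

/-- R6. All modules in such a resolution are `ℤ`-free.

Proof. Induction on `n`, `P` free: `F` is free (it has a basis), `P' ≃ range i ≤ F` is free by
R5. -/
def S_exres : Prop :=
  ∀ (E : Type) [Group E] (𝒞 : Subgroup E → Prop) (n : ℕ) (P : Type) [AddCommGroup P]
    [DistribMulAction E P], Module.Free ℤ P → ExP E 𝒞 n P → ResP E 𝒞 n P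

end ExactComplexes

section Cd

/-- The action of a group on a module over its group ring. -/
@[reducible] noncomputable def actOf (E M : Type) [Group E] [AddCommGroup M]
    [Module (MonoidAlgebra ℤ E) M] : DistribMulAction E M where
  smul e m := MonoidAlgebra.single e (1 : ℤ) • m
  one_smul m := one_smul (MonoidAlgebra ℤ E) m
  mul_smul e e' m := by
    change MonoidAlgebra.single (e * e') (1 : ℤ) • m =
      MonoidAlgebra.single e (1 : ℤ) • MonoidAlgebra.single e' (1 : ℤ) • m
    rw [smul_smul, MonoidAlgebra.single_mul_single, one_mul]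
  smul_zero e := smul_zero (MonoidAlgebra.single e (1 : ℤ))
  smul_add e := smul_add (MonoidAlgebra.single e (1 : ℤ))

/-- R7. The canonical syzygy, with a `ℤ`-basis.

Proof. `ε : (B →₀ ℤ[E]) → M`, `single b r ↦ r • bM b`. With `σ : M → (B →₀ ℤ[E])`,
`bM b ↦ single b 1` (`ℤ`-linear), `ε σ = 1`. Let `X = {(b, e) : e ≠ 1}`. The coefficients at
`X` give a `ℤ`-linear map `ψ : ker ε → (X →₀ ℤ)`; its inverse is `y ↦ ỹ - σ (ε ỹ)`, where
`ỹ = ∑ y_{(b,e)} single b e`: `ψ(ỹ - σ ε ỹ) = y` because `σ` has values in the span of the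
`single b 1`; and `x ∈ ker ε` is `x = x̃ + σ(m)` with `x̃` the part at `X`, so
`ε x̃ = - m` and `x = x̃ - σ (ε x̃)`. -/
def S_syz : Prop :=
  ∀ (E M B : Type) [Group E] [AddCommGroup M] [Module (MonoidAlgebra ℤ E) M]
    (bM : Module.Basis B ℤ M), ∃ ε : (B →₀ MonoidAlgebra ℤ E) →ₗ[MonoidAlgebra ℤ E] M,
    (∀ b, ε (Finsupp.single b 1) = bM b) ∧ Function.Surjective ε ∧
    Module.Free ℤ (LinearMap.ker ε)

/-- R8. The swindle: a projective module has a free resolution of length one.

Proof. `π : (J →₀ R) → M` onto, `ι` a section, `q = ι π` (idempotent). `F = (ℕ →₀ (J →₀ R))`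
(`≅ (ℕ × J →₀ R)`). `r : F → M`, `r y = π (y_0)`; `i : F → F`, `(i x)_0 = x_0 - q x_0`,
`(i x)_{n+1} = q x_n + (x_{n+1} - q x_{n+1})`. `r i = 0` as `π q = π`. The map
`k : F → F`, `(k y)_n = (y_n - q y_n) + q y_{n+1}`, satisfies `k i = 1`, and `i k y = y` if
`q y_0 = 0`, that is `r y = 0`. (helper22) -/
def S_swindle : Prop :=
  ∀ (R M : Type) [Ring R] [AddCommGroup M] [Module R M] [Module.Projective R M],
    ∃ (J : Type) (i : (J →₀ R) →ₗ[R] (J →₀ R)) (r : (J →₀ R) →ₗ[R] M),
      Function.Injective i ∧ Function.Exact i r ∧ Function.Surjective r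

/-- R9. Finite projective dimension gives a finite free resolution.

Proof. Induction on `n`. `F = (B →₀ ℤ[E])` is a permutation module for `actOf`: the basis
`single b (single e 1)`, `X = B × E`, `e' • (b, e) = (b, e' e)`, stabilizers trivial. `n = 0`:
`M` is projective, R8 and `ResP 1` with `P' = F`. `n + 1`: R7, `ker ε` has projective dimension
at most `n` (`ShortExact.hasProjectiveDimensionLT_X₁`, as in `PdN_sh`) and is `ℤ`-free. -/
def S_pdres : Prop :=
  ∀ (E : Type) [Group E] (n : ℕ) (M : Type) [AddCommGroup M] [Module (MonoidAlgebra ℤ E) M],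
    Module.Free ℤ M →
    CategoryTheory.HasProjectiveDimensionLE (ModuleCat.of (MonoidAlgebra ℤ E) M) n →
    @ResP E _ (fun C => C = ⊥) (n + 1) M _ (actOf E M)

/-- R10. Groups of finite cohomological dimension.

Proof. R9 for the trivial module (`Representation.trivial ℤ E ℤ).asModule ≃+ ℤ`; the equivariant
isomorphism to `TrivZ E` carries `ResP`: replace `r` by its composition with it. -/
def S_cdres : Prop :=
  ∀ (E : Type) [Group E] (n : ℕ), CdLE n E → ResP E (fun C => C = ⊥) (n + 1) (TrivZ E)

/-- R11. All Nil groups vanish for groups of finite cohomological dimension.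

Proof. R10, R4 and `SS ⊥` (`S_base` of block B: trivial groups). -/
def S_cdss : Prop :=
  ∀ (E : Type) [Group E] (n : ℕ), CdLE n E → SS E

end Cd

end Pool.Agent.Hier
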