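import Pool.Agent.Lib.MP_8f66f0_al_HierZ.SpecZT
import Pool.Agent.Lib.MP_8f66f0_al_HierZ.SpecZL
import Pool.Agent.Lib.MP_8f66f0_al_HierZ.SpecZR
import Pool.Agent.Lib.MP_8f66f0_al_Hier.BlkA

/-! The step for typed Land-Tamme data. -/

set_option autoImplicit false

namespace Pool.Agent.Hier

open Pool.Agent.Wald Pool.Agent.Ind

private theorem sz_tl_comp {LL E T Z I P P'' : Type} [CommRing LL] [Group E] [Ring T]
    [Algebra LL T] [Ring Z] [Algebra LL Z] [AddCommGroup P] [DistribMulAction E P]
    [AddCommGroup P''] [DistribMulAction E P''] (r : P →+[E] P'') (ρ : E → T) (w : I → P'' →+ T)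
    (x : I →₀ MonoidAlgebra LL E) (p : P) :
    tl ρ (fun j => (w j).comp (r : P →+ P'')) x p = tl ρ w x (r p) := by
  unfold tl
  refine Finsupp.sum_congr fun j _ => Finsupp.sum_congr fun e _ => ?_
  change _ • (ρ e * w j (r (e⁻¹ • p))) = _
  rw [map_smul]

theorem stepz (h1 : S_scp) (h2 : S_tp) (h3 : S_exbas) (h4 : S_ker) (h5 : S_plp) (h6 : S_ktp)
    (h7 : S_twp) : S_stepz := by
  intro LL E F P P' _ _ _ _ _ _ _ _ _ i r hi hex hr hP hP' hF hSP' Q' Q I B _ _ _ _ _ bP g ρ w hLT
  rcases isEmpty_or_nonempty B with hB | hB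
  · -- no letters
    refine LB.KT.of_surj ?_
    have hfree := hLT.free
    have h8 : ∀ q : Q', g q = ev (g : Q' →+* Q) (fun a : B × I => w a.2 (bP a.1))
        (Finsupp.single [] q) := by
      intro q
      unfold ev
      rw [Finsupp.sum_single_index]
      · simp [wd]
      · simp
    constructor
    · intro q q' hqq
      have h9 : g q = g q' := hqq
      rw [h8, h8] at h9
      exact Finsupp.single_injective [] (hfree.1 h9)
    · intro y
      obtain ⟨x, rfl⟩ := hfree.2 y
      refine ⟨x [], ?_⟩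
      change g (x []) = _
      rw [h8]
      have h9 : Finsupp.single [] (x []) = x := by
        refine Finsupp.ext fun u => ?_
        cases u with
        | nil => exact Finsupp.single_eq_same
        | cons a u => exact (hB.false a.1).elim
      rw [h9]
  · obtain ⟨D, hD⟩ := h1 LL E Q' Q I P B bP g ρ w hB hLT
    let B' := Module.Free.ChooseBasisIndex ℤ P'
    let bP' : Module.Basis B' ℤ P' := Module.Free.chooseBasis ℤ P'
    obtain ⟨bF, b1, b2⟩ := h3 P' F P B' B (i : P' →+ F) (r : F →+ P) bP' bP hi hex hr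
    obtain ⟨⟨T, _, _, f, wT, hT⟩, huniv⟩ := h2 LL E Q' I F P (B ⊕ B') ρ D r bF
    have hz : ∀ j p q, (w j).comp (r : F →+ P) p * g q = g (D.c j (r p) q) +
        tl (fun e => g (ρ e)) (fun j => (w j).comp (r : F →+ P)) (D.x j q) p := by
      intro j p q
      rw [sz_tl_comp (Z := Q) r]
      exact hD j (r p) q
    obtain ⟨π, p1, p2, p3⟩ := huniv T Q f wT g (fun j => (w j).comp (r : F →+ P)) hT hz
    -- the letters
    let a : B × I → T := fun x => wT x.2 (bF (Sum.inl x.1))
    let d : I → P' →+ T := fun j => (wT j).comp (i : P' →+ F)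
    let e0 : (B × I) ⊕ (B' × I) ≃ (B ⊕ B') × I := (Equiv.sumProdDistrib B B' I).symm
    have hlet : (fun x => (fun a : (B ⊕ B') × I => wT a.2 (bF a.1)) (e0 x)) =
        Sum.elim a (fun x : B' × I => d x.2 (bP' x.1)) := by
      funext x
      rcases x with x | x
      · rfl
      · change wT x.2 (bF (Sum.inr x.1)) = wT x.2 (i (bP' x.1))
        rw [b2]
        rfl
    have hfree : FreeW (f : Q' →+* T) (Sum.elim a (fun x : B' × I => d x.2 (bP' x.1))) := by
      rw [← hlet]
      exact h7.2 Q' T _ _ (f : Q' →+* T) _ e0 hT.free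
    obtain ⟨hCl0, hKT0⟩ := h6 LL E Q' I F P (B ⊕ B') T ρ D r bF f wT hT
    have hCl : Cl (f : Q' →+* T) (Sum.elim a (fun x : B' × I => d x.2 (bP' x.1))) := by
      rw [← hlet]
      intro x q
      obtain ⟨c, y, hy⟩ := hCl0 (e0 x) q
      refine ⟨c, y.mapDomain e0.symm, ?_⟩
      rw [hy]
      congr 1
      unfold lin
      rw [Finsupp.sum_mapDomain_index_inj e0.symm.injective]
      refine Finsupp.sum_congr fun b _ => ?_
      change _ = (f : Q' →+* T) (y b) * (wT (e0 (e0.symm b)).2 (bF (e0 (e0.symm b)).1))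
      rw [Equiv.apply_symm_apply]
    have hrule : ∀ j q, ∃ x : I →₀ MonoidAlgebra LL E, ∀ p : P',
        d j p * f q = tl (fun e => f (ρ e)) d x p := by
      intro j q
      refine ⟨D.x j q, fun p => ?_⟩
      change wT j (i p) * f q = _
      rw [hT.rel, (hex (i p)).2 ⟨p, rfl⟩, map_zero]
      rw [LinearMap.zero_apply, map_zero, zero_add]
      exact (sz_tl_comp (Z := T) i (fun e => f (ρ e)) wT (D.x j q) p).symm
    have hd : ∀ j p, π (d j p) = 0 := by
      intro j p
      change π (wT j (i p)) = 0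
      rw [p2]
      change w j (r (i p)) = 0
      rw [(hex (i p)).2 ⟨p, rfl⟩, map_zero]
    have ha : ∀ x : B × I, π (a x) = w x.2 (bP x.1) := by
      intro x
      change π (wT x.2 (bF (Sum.inl x.1))) = _
      rw [p2]
      change w x.2 (r (bF (Sum.inl x.1))) = _
      have h9 : r (bF (Sum.inl x.1)) = bP x.1 := b1 x.1
      rw [h9]
    have hker := h4 LL Q' Q (B × I) (B' × I) T f g (fun x : B × I => w x.2 (bP x.1)) a
      (fun x : B' × I => d x.2 (bP' x.1)) π hfree hLT.free p1 ha (fun b => hd _ _)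
    have hsurj : Function.Surjective π := by
      intro y
      obtain ⟨x, rfl⟩ := hLT.free.2 y
      refine ⟨ev (f : Q' →+* T) a x, ?_⟩
      unfold ev
      rw [map_finsuppSum]
      refine Finsupp.sum_congr fun u _ => ?_
      rw [map_mul]
      have h10 : ∀ u : List (B × I), π (wd a u) = wd (fun x : B × I => w x.2 (bP x.1)) u := by
        intro u
        induction u with
        | nil => exact map_one π
        | cons c u ih =>
          change π (wd a u * a c) = wd _ u * _
          rw [map_mul, ih, ha]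
      rw [h10]
      congr 1
      exact p1 _
    have hKπ : KT (π : T →+* Q) := by
      refine h5 LL E Q' Q (B × I) I T P' B' bP' ρ f a d π hLT.ret hfree hCl hrule hsurj hd ?_ hSP'
      intro t ht
      refine AddSubgroup.closure_mono ?_ (hker t ht)
      rintro s ⟨t₁, b, t₂, rfl⟩
      exact ⟨t₁, b.2, bP' b.1, t₂, rfl⟩
    have hKf : KT (f : Q' →+* T) := hKT0 hLT.ret inferInstance hF
    have h11 : (g : Q' →+* Q) = (π : T →+* Q).comp (f : Q' →+* T) := by
      ext q
      exact (p1 q).symm
    rw [h11]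
    exact LB.KT.comp hKf hKπ

end Pool.Agent.Hier
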