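import Pool.Agent.Lib.MP_8f66f0_al_HierZ.SpecZR

/-! The swindle: a projective module has a free resolution of length one. -/

set_option autoImplicit false

namespace Pool.Agent.Hier

section

variable {R G : Type} [Ring R] [AddCommGroup G] [Module R G]

private noncomputable def swI (q : G →ₗ[R] G) : (ℕ →₀ G) →ₗ[R] (ℕ →₀ G) :=
  Finsupp.mapRange.linearMap (LinearMap.id - q) +
    Finsupp.lmapDomain G R Nat.succ ∘ₗ Finsupp.mapRange.linearMap q

private noncomputable def swK (q : G →ₗ[R] G) : (ℕ →₀ G) →ₗ[R] (ℕ →₀ G) :=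
  Finsupp.mapRange.linearMap (LinearMap.id - q) +
    Finsupp.lcomapDomain Nat.succ Nat.succ_injective ∘ₗ Finsupp.mapRange.linearMap q

private theorem swI_zero (q : G →ₗ[R] G) (x : ℕ →₀ G) : swI q x 0 = x 0 - q (x 0) := by
  have h : (Finsupp.mapDomain Nat.succ (Finsupp.mapRange.linearMap q x)) 0 = 0 :=
    Finsupp.mapDomain_of_notMem_range _ _ (by simp)
  rw [swI, LinearMap.add_apply, Finsupp.add_apply, LinearMap.comp_apply, Finsupp.lmapDomain_apply, h,
    add_zero, Finsupp.mapRange.linearMap_apply, Finsupp.mapRange_apply, LinearMap.sub_apply,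
    LinearMap.id_apply]

private theorem swI_succ (q : G →ₗ[R] G) (x : ℕ →₀ G) (n : ℕ) :
    swI q x (n + 1) = q (x n) + (x (n + 1) - q (x (n + 1))) := by
  have h : (Finsupp.mapDomain Nat.succ (Finsupp.mapRange.linearMap q x)) (n + 1) = q (x n) := by
    have h1 := Finsupp.mapDomain_apply Nat.succ_injective (Finsupp.mapRange.linearMap q x) n
    rw [Finsupp.mapRange.linearMap_apply, Finsupp.mapRange_apply] at h1
    exact h1
  rw [swI, LinearMap.add_apply, Finsupp.add_apply, LinearMap.comp_apply, Finsupp.lmapDomain_apply, h,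
    add_comm, Finsupp.mapRange.linearMap_apply, Finsupp.mapRange_apply, LinearMap.sub_apply,
    LinearMap.id_apply]

private theorem swK_apply (q : G →ₗ[R] G) (y : ℕ →₀ G) (n : ℕ) :
    swK q y n = (y n - q (y n)) + q (y (n + 1)) := by
  have h : (Finsupp.lcomapDomain (R := R) Nat.succ Nat.succ_injective
      (Finsupp.mapRange.linearMap q y)) n = q (y (n + 1)) := by
    show (Finsupp.mapRange.linearMap q y) (Nat.succ n) = _
    rw [Finsupp.mapRange.linearMap_apply, Finsupp.mapRange_apply]
  rw [swK, LinearMap.add_apply, Finsupp.add_apply, LinearMap.comp_apply, h,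
    Finsupp.mapRange.linearMap_apply, Finsupp.mapRange_apply, LinearMap.sub_apply,
    LinearMap.id_apply]

private theorem swK_swI (q : G →ₗ[R] G) (hq : ∀ g, q (q g) = q g) (x : ℕ →₀ G) :
    swK q (swI q x) = x := by
  ext n
  rw [swK_apply, swI_succ]
  cases n with
  | zero =>
    rw [swI_zero]
    simp only [map_sub, map_add, hq]
    abel
  | succ n =>
    rw [swI_succ]
    simp only [map_sub, map_add, hq]
    abel

private theorem swI_swK (q : G →ₗ[R] G) (hq : ∀ g, q (q g) = q g) (y : ℕ →₀ G)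
    (hy : q (y 0) = 0) : swI q (swK q y) = y := by
  ext n
  cases n with
  | zero =>
    rw [swI_zero, swK_apply]
    simp only [map_sub, map_add, hq, hy, map_zero]
    abel
  | succ n =>
    rw [swI_succ, swK_apply, swK_apply]
    simp only [map_sub, map_add, hq]
    abel

end

theorem swindle : S_swindle := by
  intro R M _ _ _ hP
  obtain ⟨ι, hι⟩ := hP.out
  set π : (M →₀ R) →ₗ[R] M := Finsupp.linearCombination R id with hπ
  have hπι : ∀ m, π (ι m) = m := hι
  set q : (M →₀ R) →ₗ[R] (M →₀ R) := ι ∘ₗ π with hqd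
  have hq : ∀ g, q (q g) = q g := fun g => by
    show ι (π (ι (π g))) = ι (π g)
    rw [hπι]
  have hπq : ∀ g, π (q g) = π g := fun g => hπι _
  let e : (ℕ × M →₀ R) ≃ₗ[R] (ℕ →₀ (M →₀ R)) := Finsupp.curryLinearEquiv R
  let r : (ℕ →₀ (M →₀ R)) →ₗ[R] M := π ∘ₗ Finsupp.lapply 0
  have hr : ∀ y, r y = π (y 0) := fun _ => rfl
  refine ⟨ℕ × M, e.symm.toLinearMap ∘ₗ swI q ∘ₗ e.toLinearMap, r ∘ₗ e.toLinearMap, ?_, ?_, ?_⟩
  · intro x y hxy
    have h1 : e.symm (swI q (e x)) = e.symm (swI q (e y)) := hxy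
    have h2 := congrArg (swK q) (e.symm.injective h1)
    rw [swK_swI q hq, swK_swI q hq] at h2
    exact e.injective h2
  · intro y
    constructor
    · intro hy
      have hy' : π ((e y) 0) = 0 := hy
      refine ⟨e.symm (swK q (e y)), ?_⟩
      show e.symm (swI q (e (e.symm (swK q (e y))))) = y
      rw [LinearEquiv.apply_symm_apply, swI_swK q hq _ (by
        show ι (π _) = 0
        rw [hy', map_zero]), LinearEquiv.symm_apply_apply]
    · rintro ⟨x, rfl⟩
      show r (e (e.symm (swI q (e x)))) = 0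
      rw [LinearEquiv.apply_symm_apply, hr, swI_zero, map_sub, hπq, sub_self]
  · intro m
    refine ⟨e.symm (Finsupp.single 0 (ι m)), ?_⟩
    show r (e (e.symm _)) = m
    rw [LinearEquiv.apply_symm_apply, hr, Finsupp.single_eq_same, hπι]

end Pool.Agent.Hier
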