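import Pool.Agent.Lib.MP_8f66f0_al_HierZ.SpecZR

/-! The canonical syzygy of a module over a group ring is `ℤ`-free. -/

set_option autoImplicit false

namespace Pool.Agent.Hier

/-- The additive isomorphism of the free module with the functions on `B × E`. -/
private noncomputable def syC (E B : Type) [Group E] :
    (B →₀ MonoidAlgebra ℤ E) ≃+ (B × E →₀ ℤ) :=
  (Finsupp.mapRange.addEquiv MonoidAlgebra.coeffAddEquiv).trans Finsupp.curryAddEquiv.symm

private theorem syC_symm_single (E B : Type) [Group E] (b : B) (e : E) (n : ℤ) :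
    (syC E B).symm (Finsupp.single (b, e) n) =
      Finsupp.single b (MonoidAlgebra.single e n) := by
  rw [AddEquiv.symm_apply_eq]
  simp [syC]

theorem syz : S_syz := by
  classical
  intro E M B _ _ _ bM
  let ε : (B →₀ MonoidAlgebra ℤ E) →ₗ[MonoidAlgebra ℤ E] M :=
    Finsupp.linearCombination (MonoidAlgebra ℤ E) (fun b => bM b)
  have hε1 : ∀ b, ε (Finsupp.single b 1) = bM b := fun b => by
    show Finsupp.linearCombination (MonoidAlgebra ℤ E) (fun b => bM b) _ = _
    rw [Finsupp.linearCombination_single, one_smul]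
  let σ : M →+ (B →₀ MonoidAlgebra ℤ E) :=
    (bM.constr ℤ fun b => (Finsupp.single b (1 : MonoidAlgebra ℤ E))).toAddMonoidHom
  have hσb : ∀ b, σ (bM b) = Finsupp.single b 1 := fun b => bM.constr_basis ℤ _ b
  have hσ : ∀ m, ε (σ m) = m := by
    intro m
    have h1 : (ε.toAddMonoidHom.comp σ).toIntLinearMap = LinearMap.id := by
      refine bM.ext fun b => ?_
      show ε (σ (bM b)) = bM b
      rw [hσb, hε1]
    exact LinearMap.congr_fun h1 m
  let X : Type := {x : B × E // x.2 ≠ 1}
  have hX : Function.Injective (Subtype.val : X → B × E) := Subtype.val_injective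
  let c := syC E B
  let j : (X →₀ ℤ) →+ (B →₀ MonoidAlgebra ℤ E) :=
    c.symm.toAddMonoidHom.comp (Finsupp.mapDomain.addMonoidHom Subtype.val)
  let pr : (B →₀ MonoidAlgebra ℤ E) →+ (X →₀ ℤ) :=
    (Finsupp.comapDomain.addMonoidHom hX).comp c.toAddMonoidHom
  have hprj : ∀ y, pr (j y) = y := by
    intro y
    show Finsupp.comapDomain _ (c (c.symm (Finsupp.mapDomain _ y))) _ = y
    simp only [AddEquiv.apply_symm_apply]
    exact Finsupp.comapDomain_mapDomain _ hX y
  have hpr1 : ∀ (b : B) (n : ℤ), pr (Finsupp.single b (MonoidAlgebra.single 1 n)) = 0 := by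
    intro b n
    ext x
    show c _ x.1 = 0
    rw [← syC_symm_single]
    show c (c.symm _) x.1 = 0
    rw [AddEquiv.apply_symm_apply]
    refine Finsupp.single_eq_of_ne ?_
    rintro h
    exact x.2 (by rw [h])
  have hprσ : ∀ m, pr (σ m) = 0 := by
    intro m
    have h1 : (pr.comp σ).toIntLinearMap = 0 := by
      refine bM.ext fun b => ?_
      show pr (σ (bM b)) = 0
      rw [hσb]
      exact hpr1 b 1
    exact LinearMap.congr_fun h1 m
  have hdec : ∀ x, ∃ m, x = j (pr x) + σ m := by
    intro x
    obtain ⟨y, rfl⟩ := c.symm.surjective x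
    induction y using Finsupp.induction_linear with
    | zero => exact ⟨0, by simp⟩
    | add y z hy hz =>
      obtain ⟨m, hm⟩ := hy
      obtain ⟨m', hm'⟩ := hz
      refine ⟨m + m', ?_⟩
      rw [map_add, map_add, map_add, map_add]
      nth_rewrite 1 [hm, hm']
      abel
    | single a n =>
      obtain ⟨b, e⟩ := a
      rcases eq_or_ne e 1 with rfl | he
      · refine ⟨n • bM b, ?_⟩
        have h2 : c.symm (Finsupp.single (b, (1 : E)) n) =
            Finsupp.single b (MonoidAlgebra.single 1 n) := syC_symm_single E B b 1 n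
        rw [h2, hpr1, map_zero, zero_add, map_zsmul, hσb, Finsupp.smul_single]
        congr 1
        rw [MonoidAlgebra.one_def, MonoidAlgebra.smul_single, smul_eq_mul, mul_one]
      · refine ⟨0, ?_⟩
        rw [map_zero, add_zero]
        have h3 : c.symm (Finsupp.single (b, e) n) =
            j (Finsupp.single (⟨(b, e), he⟩ : X) n) := by
          show _ = c.symm (Finsupp.mapDomain _ _)
          rw [Finsupp.mapDomain_single]
        rw [h3, hprj]
  refine ⟨ε, hε1, fun m => ⟨σ m, hσ m⟩, ?_⟩
  let ψ : (X →₀ ℤ) ≃+ LinearMap.ker ε :=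
    { toFun := fun y => ⟨j y - σ (ε (j y)), by
        rw [LinearMap.mem_ker, map_sub, hσ, sub_self]⟩
      invFun := fun x => pr x.1
      left_inv := fun y => by
        show pr (j y - σ (ε (j y))) = y
        rw [map_sub, hprj, hprσ, sub_zero]
      right_inv := fun x => by
        refine Subtype.ext ?_
        show j (pr x.1) - σ (ε (j (pr x.1))) = x.1
        obtain ⟨m, hm⟩ := hdec x.1
        have h4 : ε x.1 = 0 := x.2
        rw [hm, map_add, hσ] at h4
        have h5 : m = - ε (j (pr x.1)) := by
          rw [eq_neg_iff_add_eq_zero, add_comm]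
          exact h4
        nth_rewrite 3 [hm]
        rw [h5, map_neg, sub_eq_add_neg]
      map_add' := fun y z => by
        refine Subtype.ext ?_
        show j (y + z) - σ (ε (j (y + z))) = (j y - σ (ε (j y))) + (j z - σ (ε (j z)))
        rw [map_add, map_add, map_add]
        abel }
  have hsm : ∀ (n : ℤ) (y : X →₀ ℤ), ψ (n • y) = n • ψ y := by
    intro n y
    refine (map_zsmul ψ n y).trans ?_
    refine Subtype.ext ?_
    exact int_smul_eq_zsmul _ _ _
  exact Module.Free.of_equiv ({ ψ with map_smul' := hsm } : (X →₀ ℤ) ≃ₗ[ℤ] LinearMap.ker ε)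

end Pool.Agent.Hier
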