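import Pool.Agent.Lib.MP_8f66f0_al_HierZ.SpecZT

/-! Stage 2, block ZT: existence and universal property of `T(P)`. -/

set_option autoImplicit false

namespace Pool.Agent.Hier

open Pool.Agent.Wald Pool.Agent.Ind

private lemma tp_tl_add {LL E T I P : Type} [CommRing LL] [Group E] [Ring T] [Algebra LL T]
    [AddCommGroup P] [DistribMulAction E P] (ρ : E → T) (w : I → P →+ T)
    (x : I →₀ MonoidAlgebra LL E) (p p' : P) :
    tl ρ w x (p + p') = tl ρ w x p + tl ρ w x p' := by
  simp only [tl, smul_add, map_add, mul_add, Finsupp.sum_add]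

private lemma tp_tl_zero {LL E T I P : Type} [CommRing LL] [Group E] [Ring T] [Algebra LL T]
    [AddCommGroup P] [DistribMulAction E P] (ρ : E → T) (w : I → P →+ T)
    (x : I →₀ MonoidAlgebra LL E) : tl ρ w x 0 = 0 := by
  have h := tp_tl_add ρ w x 0 0
  rw [add_zero] at h
  exact left_eq_add.1 h

private lemma tp_ext {P T B : Type} [AddCommGroup P] [Ring T] (bP : Module.Basis B ℤ P)
    (F G : P →+ T) (h : ∀ b, F (bP b) = G (bP b)) (p : P) : F p = G p := by
  have h1 : F.toIntLinearMap = G.toIntLinearMap := bP.ext fun b => h b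
  exact congrArg (fun φ : P →ₗ[ℤ] T => φ p) h1

/-- The relations hold for all `p` if they hold for the elements of the basis. -/
private lemma tp_rel {LL E Q' I P P'' B T : Type} [CommRing LL] [Group E] [Ring Q']
    [Algebra LL Q'] [AddCommGroup P] [DistribMulAction E P] [AddCommGroup P'']
    [DistribMulAction E P''] {ρ : E →* Q'} (D : SCP LL ρ I P'') (r : P →+[E] P'')
    (bP : Module.Basis B ℤ P) [Ring T] [Algebra LL T] (f : Q' →ₐ[LL] T) (w : I → P →+ T)
    (i : I) (q : Q')
    (h : ∀ b, w i (bP b) * f q = f (D.c i (r (bP b)) q) +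
      tl (fun e => f (ρ e)) w (D.x i q) (bP b)) (p : P) :
    w i p * f q = f (D.c i (r p) q) + tl (fun e => f (ρ e)) w (D.x i q) p := by
  let F : P →+ T := (AddMonoidHom.mulRight (f q)).comp (w i)
  let G : P →+ T :=
    { toFun := fun p => f (D.c i (r p) q) + tl (fun e => f (ρ e)) w (D.x i q) p
      map_zero' := by
        rw [tp_tl_zero, map_zero, map_zero, LinearMap.zero_apply, map_zero, add_zero]
      map_add' := fun p p' => by
        rw [tp_tl_add, map_add, map_add, LinearMap.add_apply, map_add]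
        abel }
  exact tp_ext bP F G h p

/-- ZT3. Existence and universal property of `T(P)`. -/
theorem tp (h1 : S_con) (h2 : S_lift) (h3 : S_tpls) (h4 : S_twp) : S_tp := by
  intro LL E Q' I P P'' B _ _ _ _ _ _ _ _ ρ D r bP
  obtain ⟨S, hc, hm⟩ := h3 LL E Q' I P P'' B ρ D r bP
  constructor
  · obtain ⟨T, iT, iA, f, ℓ, hrel, hfree⟩ := h1 LL Q' (B × I) S
    let w : I → P →+ T := fun i => (bP.constr ℤ fun b => ℓ (b, i)).toAddMonoidHom
    have hw : ∀ b i, w i (bP b) = ℓ (b, i) := fun b i =>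
      bP.constr_basis ℤ (fun b => ℓ (b, i)) b
    have hl : (fun a : B × I => w a.2 (bP a.1)) = ℓ := funext fun a => hw a.1 a.2
    refine ⟨T, iT, iA, f, w, ?_, fun i p q => ?_⟩
    · rw [hl]
      exact hfree
    · refine tp_rel D r bP f w i q (fun b => ?_) p
      have h := hrel (b, i) q
      rw [hc, hm, ← hl, h4.1] at h
      exact h
  · intro T Z _ _ _ _ f w g z hT hz
    have r1 : S.Rel (f : Q' →+* T) (fun a : B × I => w a.2 (bP a.1)) := by
      rintro ⟨b, i⟩ q
      rw [hc, hm, h4.1]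
      exact hT.rel i (bP b) q
    have r2 : S.Rel (g : Q' →+* Z) (fun a : B × I => z a.2 (bP a.1)) := by
      rintro ⟨b, i⟩ q
      rw [hc, hm, h4.1]
      exact hz i (bP b) q
    obtain ⟨φ, e1, e2, e3⟩ := h2 LL Q' (B × I) T Z S f _ g _ r1 hT.free r2
    refine ⟨φ, e1, fun i p => ?_, e3⟩
    exact tp_ext bP ((φ : T →+ Z).comp (w i)) (z i) (fun b => e2 (b, i)) p

end Pool.Agent.Hier
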