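import Pool.Agent.Lib.MP_8f66f0_al_HierZ.SpecZT

/-! Stage 2, ZT2: the letter system of `T(P)` (helper49). -/

set_option autoImplicit false

namespace Pool.Agent.Hier

open Pool.Agent.Wald Pool.Agent.Ind

section TplsAux

variable {LL E Q' I P B : Type} [CommRing LL] [Group E] [Ring Q'] [Algebra LL Q']
  [AddCommGroup P] [DistribMulAction E P]

/-- coefficients, as a linear map -/
private noncomputable def tplsCo : MonoidAlgebra LL E →ₗ[LL] (E →₀ LL) where
  toFun := MonoidAlgebra.coeff
  map_add' _ _ := rfl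
  map_smul' _ _ := rfl

/-- the value of `twP` at one group element -/
private noncomputable def tpls1 (ρ : E →* Q') (bP : Module.Basis B ℤ P) (j : I) (e : E) :
    P →+ ((B × I) →₀ Q') :=
  (Finsupp.liftAddHom fun b : B => ((Finsupp.singleAddHom (b, j)).comp
    (AddMonoidHom.flip (smulAddHom ℤ Q') (ρ e)) : ℤ →+ ((B × I) →₀ Q'))).comp
      ((bP.repr : P →+ (B →₀ ℤ)).comp (DistribSMul.toAddMonoidHom P e⁻¹))

private theorem tpls1_apply (ρ : E →* Q') (bP : Module.Basis B ℤ P) (j : I) (e : E) (p : P) :
    tpls1 ρ bP j e p = (bP.repr (e⁻¹ • p)).sum fun b n => Finsupp.single (b, j) (n • ρ e) := rfl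

/-- `twP` as a linear map -/
private noncomputable def tplsW (ρ : E →* Q') (bP : Module.Basis B ℤ P) (p : P) :
    (I →₀ MonoidAlgebra LL E) →ₗ[LL] ((B × I) →₀ Q') :=
  Finsupp.lsum LL fun j => (Finsupp.lsum LL fun e : E =>
    LinearMap.toSpanSingleton LL ((B × I) →₀ Q') (tpls1 ρ bP j e p)).comp tplsCo

private theorem tplsW_apply (ρ : E →* Q') (bP : Module.Basis B ℤ P) (p : P)
    (x : I →₀ MonoidAlgebra LL E) : tplsW ρ bP p x = twP ρ bP p x := by
  unfold tplsW twP
  rw [Finsupp.lsum_apply]
  refine Finsupp.sum_congr fun j _ => ?_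
  rw [LinearMap.comp_apply, Finsupp.lsum_apply]
  refine Finsupp.sum_congr fun e _ => ?_
  rw [LinearMap.toSpanSingleton_apply, tpls1_apply, Finsupp.sum, Finsupp.sum, Finset.smul_sum]
  refine Finset.sum_congr rfl fun b _ => ?_
  rw [Finsupp.smul_single, smul_comm]

private theorem tplsW_single (ρ : E →* Q') (bP : Module.Basis B ℤ P) (p : P) (j : I) (e : E)
    (t : LL) : tplsW ρ bP p (Finsupp.single j (MonoidAlgebra.single e t)) =
      t • tpls1 ρ bP j e p := by
  unfold tplsW
  rw [Finsupp.lsum_single, LinearMap.comp_apply]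
  have h : (tplsCo (MonoidAlgebra.single e t) : E →₀ LL) = Finsupp.single e t := rfl
  rw [h, Finsupp.lsum_single, LinearMap.toSpanSingleton_apply]

private theorem tplsW_addp (ρ : E →* Q') (bP : Module.Basis B ℤ P) (p p' : P)
    (x : I →₀ MonoidAlgebra LL E) :
    tplsW ρ bP (p + p') x = tplsW ρ bP p x + tplsW ρ bP p' x := by
  induction x using Finsupp.induction_linear with
  | zero => rw [map_zero, map_zero, map_zero, add_zero]
  | add x y hx hy => rw [map_add, map_add, map_add, hx, hy]; abel
  | single j r =>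
    induction r using MonoidAlgebra.induction_linear with
    | zero => rw [Finsupp.single_zero, map_zero, map_zero, map_zero, add_zero]
    | add x y hx hy =>
      rw [Finsupp.single_add, map_add, map_add, map_add, hx, hy]; abel
    | single e t => rw [tplsW_single, tplsW_single, tplsW_single, map_add, smul_add]

/-- `twP` as an additive function of the type -/
private noncomputable def tplsP (ρ : E →* Q') (bP : Module.Basis B ℤ P)
    (x : I →₀ MonoidAlgebra LL E) : P →+ ((B × I) →₀ Q') :=
  AddMonoidHom.mk' (fun p => tplsW ρ bP p x) fun p p' => tplsW_addp ρ bP p p' x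

private theorem tpls1_mul (ρ : E →* Q') (bP : Module.Basis B ℤ P) (j : I) (e e' : E) (p : P) :
    tpls1 ρ bP j (e * e') p = ρ e • tpls1 ρ bP j e' (e⁻¹ • p) := by
  rw [tpls1_apply, tpls1_apply, mul_inv_rev, mul_smul, Finsupp.sum, Finsupp.sum, Finset.smul_sum]
  refine Finset.sum_congr rfl fun b _ => ?_
  rw [Finsupp.smul_single, map_mul, smul_eq_mul, mul_smul_comm]

private theorem tplsW_smul (ρ : E →* Q') (bP : Module.Basis B ℤ P) (p : P)
    (r : MonoidAlgebra LL E) (x : I →₀ MonoidAlgebra LL E) :
    tplsW ρ bP p (r • x) =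
      r.coeff.sum fun e t => (t • ρ e) • tplsW ρ bP (e⁻¹ • p) x := by
  induction x using Finsupp.induction_linear with
  | zero =>
    rw [smul_zero, map_zero]
    symm
    refine Finset.sum_eq_zero fun e _ => ?_
    simp only
    rw [map_zero, smul_zero]
  | add x y h h' =>
    rw [smul_add, map_add, h, h', ← Finsupp.sum_add]
    refine Finsupp.sum_congr fun e _ => ?_
    rw [map_add, smul_add]
  | single j s =>
    rw [Finsupp.smul_single, smul_eq_mul]
    induction r using MonoidAlgebra.induction_linear with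
    | zero =>
      rw [zero_mul, Finsupp.single_zero, map_zero]
      rfl
    | add r r' h h' =>
      rw [add_mul, Finsupp.single_add, map_add, h, h', MonoidAlgebra.coeff_add,
        Finsupp.sum_add_index']
      · intro e
        rw [zero_smul, zero_smul]
      · intro e t t'
        rw [add_smul, add_smul]
    | single e t =>
      rw [MonoidAlgebra.coeff_single, Finsupp.sum_single_index (by rw [zero_smul, zero_smul])]
      induction s using MonoidAlgebra.induction_linear with
      | zero => rw [mul_zero, Finsupp.single_zero, map_zero, map_zero, smul_zero]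
      | add s s' h h' =>
        rw [mul_add, Finsupp.single_add, map_add, h, h', Finsupp.single_add, map_add, smul_add]
      | single e' t' =>
        rw [MonoidAlgebra.single_mul_single, tplsW_single, tplsW_single, tpls1_mul,
          mul_smul t t', smul_assoc t (ρ e), smul_comm (ρ e) t']

/-- sums over `twP` -/
private theorem tpls_sum {N : Type} [AddCommMonoid N] (ρ : E →* Q') (bP : Module.Basis B ℤ P)
    (p : P) (x : I →₀ MonoidAlgebra LL E)
    (F : B × I → Q' → N) (h0 : ∀ b, F b 0 = 0) (hF : ∀ b r r', F b (r + r') = F b r + F b r') :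
    (twP ρ bP p x).sum F = x.sum fun j r => r.coeff.sum fun e t =>
      (bP.repr (e⁻¹ • p)).sum fun b n => F (b, j) (n • t • ρ e) := by
  unfold twP
  rw [Finsupp.sum_sum_index h0 hF]
  refine Finsupp.sum_congr fun j _ => ?_
  rw [Finsupp.sum_sum_index h0 hF]
  refine Finsupp.sum_congr fun e _ => ?_
  rw [Finsupp.sum_sum_index h0 hF]
  refine Finsupp.sum_congr fun b _ => ?_
  rw [Finsupp.sum_single_index (h0 _)]

private theorem tpls_repr {N : Type} [AddCommGroup N] (bP : Module.Basis B ℤ P) (G : P →+ N)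
    (p : P) : ((bP.repr p).sum fun b n => n • G (bP b)) = G p := by
  conv_rhs => rw [← bP.linearCombination_repr p]
  rw [Finsupp.linearCombination_apply, map_finsuppSum]
  refine Finsupp.sum_congr fun b _ => ?_
  rw [map_zsmul]

end TplsAux

/-- ZT2. The letter system of `T(P)`. -/
theorem tpls : S_tpls := by
  intro LL E Q' I P P'' B _ _ _ _ _ _ _ _ ρ D r bP
  refine ⟨⟨fun a => D.c a.2 (r (bP a.1)), fun a => (tplsW ρ bP (bP a.1)).comp (D.x a.2),
    ?_, ?_, ?_, ?_⟩, fun b i q => rfl, fun b i q => tplsW_apply ρ bP _ _⟩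
  · rintro ⟨b, i⟩
    exact D.c_one i _
  · rintro ⟨b, i⟩
    change tplsW ρ bP (bP b) (D.x i 1) = _
    have h1 : (1 : MonoidAlgebra LL E) = MonoidAlgebra.single 1 1 := rfl
    rw [D.x_one, h1, tplsW_single, tpls1_apply, inv_one, one_smul, one_smul,
      Module.Basis.repr_self, Finsupp.sum_single_index (by rw [zero_smul]; simp), one_smul,
      map_one]
  · rintro ⟨b, i⟩ q q'
    change D.c i (r (bP b)) (q * q') = D.c i (r (bP b)) q * q' +
      (tplsW ρ bP (bP b) (D.x i q)).sum fun b' s => s * D.c b'.2 (r (bP b'.1)) q'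
    rw [D.c_mul, tplsW_apply, tpls_sum ρ bP _ _ (fun b' s => s * D.c b'.2 (r (bP b'.1)) q')
      (fun b => zero_mul _) (fun b r r' => add_mul _ _ _)]
    congr 1
    refine Finsupp.sum_congr fun j _ => ?_
    refine Finsupp.sum_congr fun e _ => ?_
    let G : P →+ Q' :=
      { toFun := fun p => ((D.x i q) j).coeff e • (ρ e * D.c j (r p) q')
        map_zero' := by rw [map_zero, map_zero, LinearMap.zero_apply, mul_zero, smul_zero]
        map_add' := fun p p' => by
          rw [map_add, map_add, LinearMap.add_apply, mul_add, smul_add] }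
    have h1 := tpls_repr bP G (e⁻¹ • bP b)
    have h2 : G (e⁻¹ • bP b) = ((D.x i q) j).coeff e • (ρ e * D.c j (e⁻¹ • r (bP b)) q') := by
      change ((D.x i q) j).coeff e • (ρ e * D.c j (r (e⁻¹ • bP b)) q') = _
      rw [map_smul]
    rw [← h2, ← h1]
    refine Finsupp.sum_congr fun b' _ => ?_
    change _ • (((D.x i q) j).coeff e • (ρ e * D.c j (r (bP b')) q')) = _
    rw [smul_mul_assoc, smul_mul_assoc]
  · rintro ⟨b, i⟩ q q'
    change tplsW ρ bP (bP b) (D.x i (q * q')) = (tplsW ρ bP (bP b) (D.x i q)).sum fun b' s =>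
      s • tplsW ρ bP (bP b'.1) (D.x b'.2 q')
    rw [D.x_mul, map_finsuppSum, tplsW_apply ρ bP (bP b) (D.x i q), tpls_sum ρ bP _ _
      (fun b' s => s • tplsW ρ bP (bP b'.1) (D.x b'.2 q')) (fun b => zero_smul _ _)
      (fun b r r' => add_smul _ _ _)]
    refine Finsupp.sum_congr fun j _ => ?_
    rw [tplsW_smul]
    refine Finsupp.sum_congr fun e _ => ?_
    have h1 := tpls_repr bP (tplsP ρ bP (D.x j q')) (e⁻¹ • bP b)
    change _ = tplsW ρ bP (e⁻¹ • bP b) (D.x j q') at h1
    rw [← h1, Finsupp.sum, Finsupp.sum, Finset.smul_sum]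
    refine Finset.sum_congr rfl fun b' _ => ?_
    exact (smul_comm _ _ _).trans (smul_assoc _ _ _).symm

end Pool.Agent.Hier
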