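import Pool.Agent.Lib.MP_8f66f0_al_HierZ.SpecZT

/-! Coefficients of `tl` in a basis and reindexing of the letters. -/

set_option autoImplicit false

namespace Pool.Agent.Hier

open Pool.Agent.Wald Pool.Agent.Ind

private theorem lin_hom {Q' T Λ : Type} [Ring Q'] [Ring T] (f : Q' →+* T) (ℓ : Λ → T) :
    ∃ F : (Λ →₀ Q') →+ T, ∀ x, F x = lin f ℓ x :=
  ⟨Finsupp.liftAddHom fun a => (AddMonoidHom.mulRight (ℓ a)).comp (f : Q' →+ T), fun _ => rfl⟩

private theorem lin_single {Q' T Λ : Type} [Ring Q'] [Ring T] (f : Q' →+* T) (ℓ : Λ → T)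
    (a : Λ) (q : Q') : lin f ℓ (Finsupp.single a q) = f q * ℓ a := by
  unfold lin
  rw [Finsupp.sum_single_index]
  rw [map_zero, zero_mul]

private theorem lin_sum {Q' T Λ α N : Type} [Ring Q'] [Ring T] [Zero N] (f : Q' →+* T)
    (ℓ : Λ → T) (x : α →₀ N) (g : α → N → (Λ →₀ Q')) :
    lin f ℓ (x.sum g) = x.sum fun a n => lin f ℓ (g a n) := by
  obtain ⟨F, hF⟩ := lin_hom f ℓ
  rw [← hF, map_finsuppSum]
  exact Finsupp.sum_congr fun a _ => hF _

private theorem wd_map {T Λ Λ' : Type} [Ring T] (ℓ : Λ → T) (e : Λ' → Λ) (u : List Λ') :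
    wd (fun a => ℓ (e a)) u = wd ℓ (u.map e) := by
  induction u with
  | nil => rfl
  | cons a u ih =>
    show wd (fun a => ℓ (e a)) u * ℓ (e a) = wd ℓ (u.map e) * ℓ (e a)
    rw [ih]

private theorem ev_map {Q' T Λ Λ' : Type} [Ring Q'] [Ring T] (f : Q' →+* T) (ℓ : Λ → T)
    (e : Λ' → Λ) (x : List Λ' →₀ Q') :
    ev f (fun a => ℓ (e a)) x = ev f ℓ (x.mapDomain (List.map e)) := by
  unfold ev
  rw [Finsupp.sum_mapDomain_index]
  · exact Finsupp.sum_congr fun u _ => by rw [wd_map]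
  · intro u
    rw [map_zero, zero_mul]
  · intro u q q'
    rw [map_add, add_mul]

theorem twp : S_twp := by
  refine ⟨?_, ?_⟩
  · intro LL E Q' T I P B _ _ _ _ _ _ _ _ ρ bP f w p x
    unfold twP tl
    rw [lin_sum]
    refine Finsupp.sum_congr fun j _ => ?_
    rw [lin_sum]
    refine Finsupp.sum_congr fun e _ => ?_
    rw [lin_sum]
    have h : w j (e⁻¹ • p) = (bP.repr (e⁻¹ • p)).sum fun b n => n • w j (bP b) := by
      conv_lhs => rw [← bP.linearCombination_repr (e⁻¹ • p)]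
      rw [Finsupp.linearCombination_apply, map_finsuppSum]
      exact Finsupp.sum_congr fun b _ => map_zsmul _ _ _
    rw [h, Finsupp.mul_sum, Finsupp.smul_sum]
    refine Finsupp.sum_congr fun b _ => ?_
    rw [lin_single]
    show f _ * w j (bP b) = _
    rw [map_zsmul, map_smul f, smul_mul_assoc, smul_mul_assoc, smul_comm]
    rw [mul_smul_comm]
  · intro Q' T Λ Λ' _ _ f ℓ e h
    have h1 : ev f (fun a => ℓ (e a)) =
        ev f ℓ ∘ (Finsupp.domCongr (M := Q') (Equiv.listEquivOfEquiv e)) := by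
      funext x
      rw [ev_map]
      show _ = ev f ℓ (Finsupp.equivMapDomain _ x)
      rw [Finsupp.equivMapDomain_eq_mapDomain]
      rfl
    show Function.Bijective (ev f (fun a => ℓ (e a)))
    rw [h1]
    exact h.comp (Finsupp.domCongr (M := Q') (Equiv.listEquivOfEquiv e)).bijective

end Pool.Agent.Hier
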