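import Pool.Agent.Lib.MP_8f66f0_al_HierZ.TyC

/-! Typed blocks `d_j(p) a_{i_2} ⋯ a_{i_m}` and the typed form of the blocks L and P. -/

set_option autoImplicit false

namespace Pool.Agent.Hier.LB

open Pool.Agent.Wald Pool.Agent.Ind Pool.Agent.Hier Function
open scoped TensorProduct

theorem ev_mapDomain {Q' T Λ Λ' : Type} [Ring Q'] [Ring T] (f : Q' →+* T) (ℓ : Λ → T)
    (h : Λ' → Λ) (z : List Λ' →₀ Q') :
    ev f ℓ (Finsupp.mapDomain (List.map h) z) = ev f (fun a => ℓ (h a)) z := by
  have : (evH f ℓ).comp (Finsupp.mapDomain.addMonoidHom (List.map h)) =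
      evH f (fun a => ℓ (h a)) := by
    refine Finsupp.addHom_ext fun u r => ?_
    change evH f ℓ (Finsupp.mapDomain (List.map h) (Finsupp.single u r)) =
      evH f _ (Finsupp.single u r)
    rw [Finsupp.mapDomain_single, evH_single, evH_single, wd_map]
  exact DFunLike.congr_fun this z

variable {LL C Q' I J T P B : Type} [CommRing LL] [Group C] [Ring Q'] [Algebra LL Q'] [Ring T]
  [Algebra LL T] [AddCommGroup P] [DistribMulAction C P] {bP : Module.Basis B ℤ P}
  {ρ : C →* Q'} {f : Q' →ₐ[LL] T} {a : I → T} {d : J → P →+ T}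

/-- The untyped `d`-letters. -/
noncomputable abbrev dd (bP : Module.Basis B ℤ P) (d : J → P →+ T) : B × J → T :=
  fun x => d x.2 (bP x.1)

/-- The typed blocks. -/
def bkP (a : I → T) (d : J → P →+ T) (x : J × List I) : P →+ T :=
  (AddMonoidHom.mulRight (wd a x.2)).comp (d x.1)

omit [DistribMulAction C P] in
theorem bkP_bP (x : J × List I) (k : B) : bkP a d x (bP k) = bk a (dd bP d) ((k, x.1), x.2) := rfl

omit [DistribMulAction C P] in
theorem bkP_nil (j : J) (p : P) : bkP a d (j, []) p = d j p := by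
  change d j p * 1 = d j p
  rw [mul_one]

omit [DistribMulAction C P] in
theorem bkP_cons (x : J × List I) (i : I) (p : P) :
    bkP a d (x.1, i :: x.2) p = bkP a d x p * a i := by
  change d x.1 p * (wd a x.2 * a i) = d x.1 p * wd a x.2 * a i
  rw [mul_assoc]

/-- The typed rule for the `d`-letters. -/
def HDP (ρ : C →* Q') (f : Q' →ₐ[LL] T) (d : J → P →+ T) : Prop :=
  ∀ j q, ∃ x : J →₀ MonoidAlgebra LL C, ∀ p, d j p * f q = tl (fun e => f (ρ e)) d x p

theorem hd_of_hdp (hd : HDP ρ f d) : HD ρ f (dd bP d) := by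
  rintro ⟨k, j⟩ q
  obtain ⟨x, hx⟩ := hd j q
  change d j (bP k) * f q ∈ _
  rw [hx]
  refine tl_mem bP (Submodule.span LL {t | ∃ c b', t = f (ρ c) * dd bP d b'})
    (fun j' _ e k' => ?_) (bP k)
  exact Submodule.subset_span ⟨e, (k', j'), rfl⟩

theorem Vn_mul_d {n : ℕ} {d : J → T} {t : T} (ht : t ∈ Vn ρ f a d n) (b' : J) :
    t * d b' ∈ Wn ρ f a d (n + 1) := by
  refine mul_mem_of_gen ?_ ht
  rintro _ ⟨c, y, h2, rfl⟩
  refine Submodule.subset_span ⟨c, [(b', []), y], by simp, ?_, ?_⟩
  · intro z hz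
    rcases List.mem_cons.mp hz with h | h
    · rw [h]
      exact Nat.succ_pos _
    · rw [List.mem_singleton.mp h, h2]
      exact Nat.lt_succ_self _
  · rw [wd_cons, wd_cons, wd_nil, one_mul, bk_nil, mul_assoc]

theorem Ty_val {n : ℕ} {g : P → T}
    (hg : g ∈ Ty (LL := LL) (fun e => f (ρ e)) (bkP a d) {x | x.2.length = n}
      (Wn ρ f a (dd bP d) n)) (p : P) :
    g p ∈ Vn ρ f a (dd bP d) n ⊔ Wn ρ f a (dd bP d) n := by
  obtain ⟨x, hx, h⟩ := mem_Ty.mp hg
  obtain ⟨m, hm, e⟩ := h p
  rw [e]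
  refine add_mem (Submodule.mem_sup_left ?_) (Submodule.mem_sup_right hm)
  refine tl_mem bP _ (fun j hj c k => ?_) p
  exact Submodule.subset_span ⟨c, ((k, j.1), j.2), hx j hj, rfl⟩

/-- **The typed triangular rule**. -/
theorem tri_ty (hCl : Cl (f : Q' →+* T) (Sum.elim a (dd bP d))) (hd : HDP ρ f d) (j : J)
    (u : List I) (q : Q') :
    (fun p => bkP a d (j, u) p * f q) ∈ Ty (LL := LL) (fun e => f (ρ e)) (bkP a d)
      {x | x.2.length = u.length} (Wn ρ f a (dd bP d) u.length) := by
  induction u generalizing q with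
  | nil =>
    obtain ⟨x, hx⟩ := hd j q
    have e : (fun p => bkP a d (j, []) p * f q) =
        fun p => tl (fun e => f (ρ e)) (bkP a d) (Finsupp.mapDomain (fun j' => (j', [])) x) p := by
      funext p
      rw [bkP_nil, hx]
      exact tl_map (LL := LL) (LinearMap.id : T →ₗ[LL] T) (fun e => f (ρ e)) d
        (fun e => f (ρ e)) (bkP a d) (fun j' => (j', [])) (fun e j p => by rw [bkP_nil]; rfl) x p
    rw [e]
    refine tl_mem_Ty fun y hy => ?_
    classical
    obtain ⟨j', _, rfl⟩ := Finset.mem_image.mp (Finsupp.mapDomain_support hy)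
    rfl
  | cons i u ih =>
    obtain ⟨q₀, x, hx⟩ := hCl (Sum.inl i) q
    change a i * f q = f q₀ + lin (f : Q' →+* T) (Sum.elim a (dd bP d)) x at hx
    have hVW : Vn ρ f a (dd bP d) u.length ⊔ Wn ρ f a (dd bP d) u.length ≤
        Wn ρ f a (dd bP d) (u.length + 1) := sup_le (Vn_le_Wn _) (Wn_mono (Nat.le_succ _))
    have e : (fun p => bkP a d (j, i :: u) p * f q) = (fun p => bkP a d (j, u) p * f q₀) +
        ∑ l ∈ x.support, fun p => bkP a d (j, u) p * f (x l) * Sum.elim a (dd bP d) l := by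
      funext p
      rw [Pi.add_apply, Finset.sum_apply]
      have := bkP_cons (a := a) (d := d) (j, u) i p
      rw [this, mul_assoc, hx, mul_add, lin, Finsupp.sum, Finset.mul_sum]
      congr 1
      refine Finset.sum_congr rfl fun l _ => ?_
      rw [← mul_assoc]
      rfl
    rw [e, List.length_cons]
    refine add_mem (Ty_of_mem fun p => hVW (Ty_val (ih q₀) p)) ?_
    refine Submodule.sum_mem _ fun l _ => ?_
    have h1 := ih (x l)
    cases l with
    | inl k =>
      obtain ⟨y, hy, h⟩ := mem_Ty.mp h1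
      refine mem_Ty.mpr ⟨Finsupp.mapDomain (fun z : J × List I => (z.1, k :: z.2)) y, ?_, ?_⟩
      · intro z hz
        classical
        obtain ⟨z', hz', rfl⟩ := Finset.mem_image.mp (Finsupp.mapDomain_support hz)
        have := hy z' hz'
        change z'.2.length = u.length at this
        change (k :: z'.2).length = u.length + 1
        rw [List.length_cons, this]
      · intro p
        obtain ⟨m, hm, em⟩ := h p
        refine ⟨m * a k, Wn_mul_a hm k, ?_⟩
        change bkP a d (j, u) p * f (x (Sum.inl k)) * a k = _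
        change bkP a d (j, u) p * f (x (Sum.inl k)) = _ at em
        rw [em, add_mul]
        congr 1
        exact tl_map (LL := LL) (LinearMap.mulRight LL (a k)) (fun e => f (ρ e)) (bkP a d)
          (fun e => f (ρ e)) (bkP a d) (fun z : J × List I => (z.1, k :: z.2))
          (fun e z p' => by
            rw [bkP_cons]
            exact mul_assoc _ _ _) y p
    | inr b' =>
      refine Ty_of_mem fun p => ?_
      obtain ⟨v, hv, w, hw, e⟩ := Submodule.mem_sup.mp (Ty_val h1 p)
      change bkP a d (j, u) p * f (x (Sum.inr b')) * dd bP d b' ∈ _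
      change _ = bkP a d (j, u) p * f (x (Sum.inr b')) at e
      rw [← e, add_mul]
      exact add_mem (Vn_mul_d hv b') (Wn_mul_d hw b')

section TheAlgebra

variable (hCl : Cl (f : Q' →+* T) (Sum.elim a (dd bP d))) (hd : HDP ρ f d)

omit [DistribMulAction C P] in
theorem bkP_mem (x : J × List I) (p : P) :
    bkP a d x p ∈ spW LL (fr ρ f) (bk a (dd bP d)) (fun _ => True) := by
  refine mem_of_basis bP (bkP a d x) (spW LL (fr ρ f) (bk a (dd bP d))
    (fun _ => True)).toAddSubgroup (fun k => ?_) p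
  exact blk_mem (b := bk a (dd bP d)) (a := ((k, x.1), x.2)) trivial

/-- The typed blocks in `L`. -/
noncomputable def bLP (x : J × List I) : P →+ LA hCl (hd_of_hdp (bP := bP) hd) where
  toFun p := ⟨bkP a d x p, bkP_mem x p⟩
  map_zero' := Subtype.ext (map_zero (bkP a d x))
  map_add' p p' := Subtype.ext (map_add (bkP a d x) p p')

theorem blkP_L (hF : Injective (ev (f : Q' →+* T) (Sum.elim a (dd bP d))))
    (hg : Injective (gr LL ρ)) :
    BlkP LL bP (rL hCl (hd_of_hdp hd)) (bLP hCl hd) (fun x => x.2.length) where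
  free := by
    have h := freeW_equiv _ _ (Equiv.prodAssoc B J (List I)).symm
      (free_L hCl (hd_of_hdp hd) hF hg)
    exact h
  tri := by
    rintro ⟨j, u⟩ c
    obtain ⟨y, hy, h⟩ := mem_Ty.mp (tri_ty hCl hd j u (ρ c))
    refine ⟨y, hy, fun p => ?_⟩
    obtain ⟨w, hw, e⟩ := h p
    obtain ⟨z, hz, rfl⟩ := Wn_le _ hw
    refine ⟨Finsupp.mapDomain (List.map (Equiv.prodAssoc B J (List I))) z,
      Subtype.ext ?_, ?_⟩
    · rw [evLin_apply] at e
      change bkP a d (j, u) p * f (ρ c) = _
      change bkP a d (j, u) p * f (ρ c) = _ at e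
      rw [e]
      have hc : ((LA hCl (hd_of_hdp hd)).val : LA hCl (hd_of_hdp hd) →+* T).comp
          (gr LL (rL hCl (hd_of_hdp hd)) : MonoidAlgebra LL C →+* LA hCl (hd_of_hdp hd)) =
          (gr LL (fr ρ f) : MonoidAlgebra LL C →+* T) :=
        RingHom.ext (gr_rhoS (clo_all hCl (hd_of_hdp hd)))
      have h1 : ((tl (fun e => rL hCl (hd_of_hdp hd) e) (bLP hCl hd) y p :
          LA hCl (hd_of_hdp hd)) : T) = tl (fun e => f (ρ e)) (bkP a d) y p := by
        have := tl_map (LL := LL) (LA hCl (hd_of_hdp hd)).val.toLinearMap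
          (fun e => rL hCl (hd_of_hdp hd) e) (bLP hCl hd) (fun e => f (ρ e)) (bkP a d) id
          (fun e z p' => rfl) y p
        rw [Finsupp.mapDomain_id] at this
        exact this
      have h2 : ((ev (gr LL (rL hCl (hd_of_hdp hd)) :
          MonoidAlgebra LL C →+* LA hCl (hd_of_hdp hd))
          (fun a : B × (J × List I) => bLP hCl hd a.2 (bP a.1))
          (Finsupp.mapDomain (List.map (Equiv.prodAssoc B J (List I))) z) :
          LA hCl (hd_of_hdp hd)) : T) =
          ev (gr LL (fr ρ f) : MonoidAlgebra LL C →+* T) (bk a (dd bP d)) z := by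
        rw [ev_mapDomain]
        have := map_ev ((LA hCl (hd_of_hdp hd)).val : LA hCl (hd_of_hdp hd) →+* T)
          (gr LL (rL hCl (hd_of_hdp hd)) : MonoidAlgebra LL C →+* LA hCl (hd_of_hdp hd))
          (fun x => bLP hCl hd (Equiv.prodAssoc B J (List I) x).2
            (bP (Equiv.prodAssoc B J (List I) x).1)) z
        rw [hc] at this
        exact this
      rw [Subalgebra.coe_add, h1, h2]
    · intro v hv x' hx'
      classical
      obtain ⟨v', hv', rfl⟩ := Finset.mem_image.mp (Finsupp.mapDomain_support hv)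
      obtain ⟨x'', hx'', rfl⟩ := List.mem_map.mp hx'
      exact hz hv' x'' hx''

end TheAlgebra

/-- **The typed form of the blocks L and P together.** -/
theorem plp_of_patch (hP : S_Patch) : S_plp := by
  intro LL C Q' Q I J T P B _ _ _ _ _ _ _ _ _ _ _ _ bP ρ f a d π hret hF hCl hd hπs hπ hker hS
  obtain ⟨s, hs⟩ := hret
  have hg : Injective (gr LL ρ) := fun x y h => by
    have := congrArg s h
    rwa [hs, hs] at this
  have hS' : SLP (Lau LL) C P := hS
  have hd' : HDP ρ f d := hd
  refine patch_pl hP (d := dd bP d) hCl (hd_of_hdp hd') hF hg π hπs (fun b => hπ _ _) ?_ ?_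
  · intro t ht
    refine (AddSubgroup.closure_le _).mpr ?_ (hker t ht)
    rintro _ ⟨t₁, j, p, t₂, rfl⟩
    exact mem_of_basis bP (((AddMonoidHom.mulRight t₂).comp (AddMonoidHom.mulLeft t₁)).comp (d j))
      (AddSubgroup.closure {s | ∃ t₁ b t₂, s = t₁ * dd bP d b * t₂})
      (fun k => AddSubgroup.subset_closure ⟨t₁, (k, j), t₂, rfl⟩) p
  · exact blkp LL (Lau LL) C (LA hCl (hd_of_hdp hd')) (J × List I) P B bP
      (rL hCl (hd_of_hdp hd')) (bLP hCl hd') (fun x => x.2.length)
      (blkP_L hCl hd' hF.1 hg) hS'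

end Pool.Agent.Hier.LB
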