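import Pool.Agent.Lib.MP_8f66f0_al_HierZ.SSAll
import Pool.Agent.Lib.MP_8f66f0_al_HierZ.Add
import Pool.Agent.Lib.MP_8f66f0_al_HierZ.Basisp
import Pool.Agent.Lib.MP_8f66f0_al_HierZ.Cdres
import Pool.Agent.Lib.MP_8f66f0_al_HierZ.Exbas
import Pool.Agent.Lib.MP_8f66f0_al_HierZ.Exres
import Pool.Agent.Lib.MP_8f66f0_al_HierZ.Fam
import Pool.Agent.Lib.MP_8f66f0_al_HierZ.Famfin
import Pool.Agent.Lib.MP_8f66f0_al_HierZ.Freesub
import Pool.Agent.Lib.MP_8f66f0_al_HierZ.Ktp
import Pool.Agent.Lib.MP_8f66f0_al_HierZ.Pdres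
import Pool.Agent.Lib.MP_8f66f0_al_HierZ.Perm
import Pool.Agent.Lib.MP_8f66f0_al_HierZ.Permlet
import Pool.Agent.Lib.MP_8f66f0_al_HierZ.Ress
import Pool.Agent.Lib.MP_8f66f0_al_HierZ.Scp
import Pool.Agent.Lib.MP_8f66f0_al_HierZ.Slslp
import Pool.Agent.Lib.MP_8f66f0_al_HierZ.Stepz
import Pool.Agent.Lib.MP_8f66f0_al_HierZ.Swindle
import Pool.Agent.Lib.MP_8f66f0_al_HierZ.Syz
import Pool.Agent.Lib.MP_8f66f0_al_HierZ.Tp
import Pool.Agent.Lib.MP_8f66f0_al_HierZ.Tpls
import Pool.Agent.Lib.MP_8f66f0_al_HierZ.Triv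
import Pool.Agent.Lib.MP_8f66f0_al_HierZ.Twp
import Pool.Agent.Lib.MP_8f66f0_al_HierZ.TyD

/-! Assembly of stage 2. -/

set_option autoImplicit false

namespace Pool.Agent.Hier

open Pool.Agent.Wald Pool.Agent.Ind

theorem all_patch : S_Patch := patch (relK hom idx sfm) expl

theorem all_stepz : S_stepz :=
  stepz (scp twp) (tp con lift tpls twp) exbas ker (LB.plp_of_patch all_patch) (ktp twp) twp

theorem all_perm : S_permz :=
  perm (basisp change) (permlet change twp) (fam split (famfin (add split) twp) twp) twp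

/-- If the trivial module of `E` has a finite resolution by permutation modules with stabilizers
in `SS`, then `E` is in `SS`. -/
theorem all_resss : S_resss := resss all_stepz all_perm slslp

/-- Groups of finite cohomological dimension are in `SS`. -/
theorem all_cdss : S_cdss := cdss (cdres (pdres syz swindle)) all_resss base_all

/-- The same without the condition that the modules of the resolution are free abelian groups. -/
theorem ss_exp {E : Type} [Group E] (𝒞 : Subgroup E → Prop) (h𝒞 : ∀ C, 𝒞 C → SS C) (n : ℕ)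
    (h : ExP E 𝒞 n (TrivZ E)) : SS E :=
  all_resss E 𝒞 h𝒞 n (exres E 𝒞 n (TrivZ E) (inferInstanceAs (Module.Free ℤ ℤ)) h)

theorem ss_cd {E : Type} [Group E] (n : ℕ) (h : CdLE n E) : SS E := all_cdss E n h

end Pool.Agent.Hier
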