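import Pool.Agent.Lib.MP_8f66f0_al_Hier.SpecT

/-! Typed Land-Tamme data: the letters are additive functions of an element of a `ℤ`-free
`ℤ[E]`-module `P` (the type), and the linear part of the right action does not depend on this
element. With `P = ℤ` (trivial action) this is `IsLT`. -/

set_option autoImplicit false

namespace Pool.Agent.Hier

open Pool.Agent.Wald Pool.Agent.Ind

section Typed

/-- `∑ x_j(e) ρ(e) w_j(e⁻¹ p)`. -/
noncomputable def tl {LL E T I P : Type} [CommRing LL] [Group E] [Ring T] [Algebra LL T]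
    [AddCommGroup P] [DistribMulAction E P] (ρ : E → T) (w : I → P →+ T)
    (x : I →₀ MonoidAlgebra LL E) (p : P) : T :=
  x.sum fun j r => r.coeff.sum fun e t => t • (ρ e * w j (e⁻¹ • p))

/-- Typed Land-Tamme data over the group `E`, of type `P` with the `ℤ`-basis `bP`: the letters
are the `w_i(bP_b)`, and `w_i(p) q = c + ∑ x_j(e) ρ(e) w_j(e⁻¹ p)` where `x` depends on `i`, `q`
but not on `p`. -/
structure IsLTP (LL : Type) [CommRing LL] {E Q' Q I P B : Type} [Group E] [Ring Q'] [Ring Q]
    [Algebra LL Q'] [Algebra LL Q] [AddCommGroup P] [DistribMulAction E P]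
    (bP : Module.Basis B ℤ P) (f : Q' →ₐ[LL] Q) (ρ : E →* Q') (w : I → P →+ Q) : Prop where
  free : FreeW (f : Q' →+* Q) (fun a : B × I => w a.2 (bP a.1))
  right : ∀ (i : I) (q : Q'), ∃ x : I →₀ MonoidAlgebra LL E, ∀ p : P, ∃ c : Q',
    w i p * f q = f c + tl (fun e => f (ρ e)) w x p
  ret : ∃ s : Q' →ₗ[LL] MonoidAlgebra LL E, ∀ x, s (gr LL ρ x) = x

/-- For all typed Land-Tamme data of type `P` over `E`, `K_1(Q)` is generated by the image of
`K_1(Q')`. -/
def SLP (LL E P : Type) [CommRing LL] [Group E] [AddCommGroup P] [DistribMulAction E P] : Prop :=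
  ∀ (Q' Q I B : Type) [Ring Q'] [Ring Q] [Algebra LL Q'] [Algebra LL Q] [Module.Free LL Q']
    (bP : Module.Basis B ℤ P) (f : Q' →ₐ[LL] Q) (ρ : E →* Q') (w : I → P →+ Q),
    IsLTP LL bP f ρ w → KT (f : Q' →+* Q)

/-- Structure constants of typed Land-Tamme data. -/
structure SCP (LL : Type) [CommRing LL] {E Q' : Type} [Group E] [Ring Q'] [Algebra LL Q']
    (ρ : E →* Q') (I P : Type) [AddCommGroup P] [DistribMulAction E P] where
  c : I → P →+ (Q' →ₗ[LL] Q')
  x : I → Q' →ₗ[LL] (I →₀ MonoidAlgebra LL E)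
  c_one : ∀ i p, c i p 1 = 0
  x_one : ∀ i, x i 1 = Finsupp.single i 1
  c_mul : ∀ i p q q', c i p (q * q') = c i p q * q' +
    (x i q).sum fun j r => r.coeff.sum fun e t => t • (ρ e * c j (e⁻¹ • p) q')
  x_mul : ∀ i q q', x i (q * q') = (x i q).sum fun j r => r • x j q'

/-- The ring `T(P)` for structure constants `D` of type `P''` and a homomorphism
`r : P → P''`: left free over `Q'` on the words in the letters `w_i(bP_b)`, with
`w_i(p) q = c_i(r p)(q) + ∑ x_i(q)_j(e) ρ(e) w_j(e⁻¹ p)`. -/
structure IsTP {LL E Q' I P P'' B T : Type} [CommRing LL] [Group E] [Ring Q'] [Algebra LL Q']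
    [AddCommGroup P] [DistribMulAction E P] [AddCommGroup P''] [DistribMulAction E P'']
    {ρ : E →* Q'} (D : SCP LL ρ I P'') (r : P →+[E] P'') (bP : Module.Basis B ℤ P) [Ring T]
    [Algebra LL T] (f : Q' →ₐ[LL] T) (w : I → P →+ T) : Prop where
  free : FreeW (f : Q' →+* T) (fun a : B × I => w a.2 (bP a.1))
  rel : ∀ i p q, w i p * f q = f (D.c i (r p) q) + tl (fun e => f (ρ e)) w (D.x i q) p

/-- Typed block data: `L` is left free over `LL[C]` on the words in the blocks `b_β(bP_k)`, and
`b_β(p) ρ(c)` is a typed combination of blocks of the same size, with coefficients which do not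
depend on `p`, and of words in smaller blocks. -/
structure BlkP (LL : Type) [CommRing LL] {C L β P B : Type} [Group C] [Ring L] [Algebra LL L]
    [AddCommGroup P] [DistribMulAction C P] (bP : Module.Basis B ℤ P)
    (ρ : C →* L) (b : β → P →+ L) (sz : β → ℕ) : Prop where
  free : FreeW (gr LL ρ : MonoidAlgebra LL C →+* L) (fun a : B × β => b a.2 (bP a.1))
  tri : ∀ (x : β) (c : C), ∃ y : β →₀ MonoidAlgebra LL C, (∀ x' ∈ y.support, sz x' = sz x) ∧
    ∀ p : P, ∃ z : List (B × β) →₀ MonoidAlgebra LL C,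
      b x p * ρ c = tl (fun e => ρ e) b y p +
        ev (gr LL ρ : MonoidAlgebra LL C →+* L) (fun a : B × β => b a.2 (bP a.1)) z ∧
      ∀ u ∈ z.support, ∀ x' ∈ u, sz x'.2 < sz x

end Typed

section Reso

/-- A permutation module: a `ℤ`-basis which is permuted by the group, with stabilizers in the
class `𝒞` of subgroups. -/
def IsPermP (E P : Type) [Group E] [AddCommGroup P] [DistribMulAction E P]
    (𝒞 : Subgroup E → Prop) : Prop :=
  ∃ (X : Type) (_ : MulAction E X) (b : Module.Basis X ℤ P),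
    (∀ (e : E) (x : X), b (e • x) = e • b x) ∧ ∀ x : X, 𝒞 (MulAction.stabilizer E x)

/-- `P` has a resolution of length `n` by permutation modules with stabilizers in `𝒞` (all
modules `ℤ`-free). -/
def ResP (E : Type) [Group E] (𝒞 : Subgroup E → Prop) :
    ℕ → ∀ (P : Type) [AddCommGroup P] [DistribMulAction E P], Prop
  | 0, P, _, _ => IsPermP E P 𝒞
  | n + 1, P, _, _ => ∃ (F P' : Type) (_ : AddCommGroup F) (_ : DistribMulAction E F)
      (_ : AddCommGroup P') (_ : DistribMulAction E P') (i : P' →+[E] F) (r : F →+[E] P),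
      Function.Injective i ∧ Function.Exact i r ∧ Function.Surjective r ∧
      Module.Free ℤ P ∧ Module.Free ℤ P' ∧ IsPermP E F 𝒞 ∧ ResP E 𝒞 n P'

/-- The trivial module. -/
def TrivZ (_E : Type) : Type := ℤ

instance (E : Type) : AddCommGroup (TrivZ E) := inferInstanceAs (AddCommGroup ℤ)

instance (E : Type) [Group E] : DistribMulAction E (TrivZ E) where
  smul _ x := x
  one_smul _ := rfl
  mul_smul _ _ _ := rfl
  smul_zero _ := rfl
  smul_add _ _ _ := rfl

end Reso

end Pool.Agent.Hier
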