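import Mathlib

/-! The definitions which are used in the theorem on the vanishing of Whitehead groups. -/

set_option autoImplicit false

namespace Pool.Agent.WhVan

/-- Euclidean domains, as a property. -/
def IsEuc (L : Type) [CommRing L] : Prop :=
  ∃ N : L → ℕ, ∀ a b : L, b ≠ 0 → ∃ q r : L, a = q * b + r ∧ (r = 0 ∨ N r < N b)

/-- `K_1(LΓ)` is generated by the units of `L` and the elements of `Γ`: every invertible matrix
over `LΓ`, stabilised by an identity block, is `u g` (`u` a unit of `L`, `g` in `Γ`) on one diagonal
entry times a product of commutators of invertible matrices. For `L = ℤ` this is the frozen form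
of `Wh(Γ) = 0`. -/
def K1Units (L Γ : Type) [CommRing L] [Group Γ] : Prop :=
  ∀ (n : ℕ) (A : (Matrix (Fin n) (Fin n) (MonoidAlgebra L Γ))ˣ),
    ∃ (m : ℕ) (g : Γ) (u : Lˣ)
      (C : (Matrix (Fin n ⊕ Fin (m + 1)) (Fin n ⊕ Fin (m + 1)) (MonoidAlgebra L Γ))ˣ),
      C ∈ commutator (Matrix (Fin n ⊕ Fin (m + 1)) (Fin n ⊕ Fin (m + 1))
              (MonoidAlgebra L Γ))ˣ ∧
      Matrix.fromBlocks (↑A : Matrix (Fin n) (Fin n) (MonoidAlgebra L Γ))
          (0 : Matrix (Fin n) (Fin (m + 1)) (MonoidAlgebra L Γ))
          (0 : Matrix (Fin (m + 1)) (Fin n) (MonoidAlgebra L Γ))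
          (1 : Matrix (Fin (m + 1)) (Fin (m + 1)) (MonoidAlgebra L Γ)) =
        Matrix.diagonal (fun i : Fin n ⊕ Fin (m + 1) =>
            if i = Sum.inr (0 : Fin (m + 1)) then
              (MonoidAlgebra.single g ((u : L)) : MonoidAlgebra L Γ) else 1) *
          (↑C : Matrix (Fin n ⊕ Fin (m + 1)) (Fin n ⊕ Fin (m + 1)) (MonoidAlgebra L Γ))

/-- Cohomological dimension at most `n`: the trivial module `ℤ` has projective dimension at most
`n` over `ℤE`. -/
def CdLE (n : ℕ) (E : Type) [Group E] : Prop :=
  CategoryTheory.HasProjectiveDimensionLE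
    (ModuleCat.of (MonoidAlgebra ℤ E) (Representation.trivial ℤ E ℤ).asModule) n

/-- A permutation module over `ℤE`: an abelian group with an action of `E` and a `ℤ`-basis which is
permuted by `E`, such that the stabilizers of the elements of the basis belong to `𝒞`. -/
def IsPerm {E : Type} [Group E] (𝒞 : Subgroup E → Prop) (P : Type) [AddCommGroup P]
    [DistribMulAction E P] : Prop :=
  ∃ (X : Type) (_ : MulAction E X) (b : Module.Basis X ℤ P),
    (∀ (e : E) (x : X), b (e • x) = e • b x) ∧ ∀ x : X, 𝒞 (MulAction.stabilizer E x)

/-- The modules which have a finite resolution by permutation modules with stabilizers in `𝒞`: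
the least class of modules which contains these permutation modules, and contains `P` if there is
an exact sequence `0 → P' → F → P → 0` of `E`-equivariant homomorphisms where `F` is such a
permutation module and `P'` is in the class. -/
inductive Res {E : Type} [Group E] (𝒞 : Subgroup E → Prop) :
    (P : Type) → [AddCommGroup P] → [DistribMulAction E P] → Prop
  | perm {P : Type} [AddCommGroup P] [DistribMulAction E P] : IsPerm 𝒞 P → Res 𝒞 P
  | step {P F P' : Type} [AddCommGroup P] [DistribMulAction E P] [AddCommGroup F]
      [DistribMulAction E F] [AddCommGroup P'] [DistribMulAction E P'] (i : P' →+[E] F)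
      (r : F →+[E] P) : Function.Injective i → Function.Exact i r → Function.Surjective r →
      IsPerm 𝒞 F → Res 𝒞 P' → Res 𝒞 P

/-- The trivial module `ℤ`. -/
def TrivZ (_E : Type) : Type := ℤ

instance (E : Type) : AddCommGroup (TrivZ E) := inferInstanceAs (AddCommGroup ℤ)

instance (E : Type) [Group E] : DistribMulAction E (TrivZ E) where
  smul _ x := x
  one_smul _ := rfl
  mul_smul _ _ _ := rfl
  smul_zero _ := rfl
  smul_add _ _ _ := rfl

/-- The least class of groups which contains all groups of finite cohomological dimension and is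
closed under isomorphism, directed unions, arbitrary amalgams and HNN extensions of groups of the
class (there is no condition on the amalgamated or associated subgroups), and under actions on
finite dimensional acyclic complexes: if the trivial module `ℤ` of `E` has a finite resolution by
permutation modules all of whose stabilizers are in the class, then `E` is in the class. -/
inductive NN : (E : Type) → [Group E] → Prop
  | cd {E : Type} [Group E] (n : ℕ) : CdLE n E → NN E
  | iso {E E' : Type} [Group E] [Group E'] (e : E ≃* E') : NN E → NN E'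
  | directed {E : Type} [Group E] (S : Set (Subgroup E)) : S.Nonempty →
      DirectedOn (· ≤ ·) S → (∀ g : E, ∃ K ∈ S, g ∈ K) → (∀ K ∈ S, NN K) → NN E
  | amalgam (G : Bool → Type) [∀ i, Group (G i)] (E : Type) [Group E] (φ : ∀ i, E →* G i) :
      (∀ i, Function.Injective (φ i)) → (∀ i, NN (G i)) → NN (Monoid.PushoutI φ)
  | hnn (G : Type) [Group G] (A B : Subgroup G) (φ : A ≃* B) : NN G → NN (HNNExtension G A B φ)
  | res {E : Type} [Group E] (𝒞 : Subgroup E → Prop) : (∀ C : Subgroup E, 𝒞 C → NN C) →
      Res 𝒞 (TrivZ E) → NN E

/-- Reduced products `w = x₁ ⋯ x_k` of `k` factors in an amalgam, beginning in the factor `G i`.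
They describe the reduced paths `e₀, x₁ e₀, x₁ x₂ e₀, …, w e₀` with `k + 1` edges in the Bass-Serre
tree which begin with the base edge `e₀` and continue at its vertex with stabilizer `G i`. -/
inductive Red {G : Bool → Type} [∀ i, Group (G i)] {E : Type} [Group E] (φ : ∀ i, E →* G i) :
    ℕ → Bool → Monoid.PushoutI φ → Prop
  | one (i : Bool) : Red φ 0 i 1
  | cons {k : ℕ} {i : Bool} {v : Monoid.PushoutI φ} (x : G i) : x ∉ (φ i).range → Red φ k (!i) v →
      Red φ (k + 1) i (Monoid.PushoutI.of i x * v)

/-- Reduced products of `k` steps in an HNN extension with stable letter `t`, `t a t⁻¹ = φ a`. They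
describe the reduced paths with `k + 1` edges in the Bass-Serre tree which begin with the base edge
`e₀` (with stabilizer `B`, from the vertex with stabilizer `G` to the vertex with stabilizer
`t G t⁻¹`) and continue at the vertex with stabilizer `t G t⁻¹` (`true`) or `G` (`false`). The last
edge of the path is `w e₀` for the product `w`. -/
inductive RedH {G : Type} [Group G] {A B : Subgroup G} (φ : A ≃* B) :
    ℕ → Bool → HNNExtension G A B φ → Prop
  | one (i : Bool) : RedH φ 0 i 1
  | tt {k : ℕ} {v : HNNExtension G A B φ} (x : G) : RedH φ k true v →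
      RedH φ (k + 1) true (HNNExtension.t * HNNExtension.of x * v)
  | tf {k : ℕ} {v : HNNExtension G A B φ} (x : G) : x ∉ A → RedH φ k false v →
      RedH φ (k + 1) true (HNNExtension.t * HNNExtension.of x * HNNExtension.t⁻¹ * v)
  | ft {k : ℕ} {v : HNNExtension G A B φ} (x : G) : x ∉ B → RedH φ k true v →
      RedH φ (k + 1) false (HNNExtension.of x * v)
  | ff {k : ℕ} {v : HNNExtension G A B φ} (x : G) : RedH φ k false v →
      RedH φ (k + 1) false (HNNExtension.of x * HNNExtension.t⁻¹ * v)

/-- The stabilizer `K ∩ w K w⁻¹` of the path from the base edge, with stabilizer `K`, to its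
translate by `w` is contained in a subgroup which belongs to `NN`. -/
def SmallStab {Γ : Type} [Group Γ] (K : Subgroup Γ) (w : Γ) : Prop :=
  ∃ D : Subgroup Γ, (∀ x ∈ K, w⁻¹ * x * w ∈ K → x ∈ D) ∧ NN D

/-- The least class of groups which contains all groups `Γ` such that `K_1(LΓ)` is generated by
the units of `L` and the elements of `Γ` for all Euclidean domains `L` (for example the trivial
group), and is closed under directed colimits with arbitrary structure maps, and under those
amalgams `G₀ *_E G₁` and HNN extensions `G *_A` of groups of the class for which the edge group `E`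
(or `A`) is in the class and, for some `k`, the stabilizers of all reduced paths with `k + 1` edges
in the Bass-Serre tree are contained in subgroups which belong to `NN`. -/
inductive CC : (Γ : Type) → [Group Γ] → Prop
  | base {Γ : Type} [Group Γ] : (∀ (L : Type) [CommRing L] [IsDomain L], IsEuc L →
      K1Units L Γ) → CC Γ
  | colim {Γ : Type} [Group Γ] {ι : Type} [Preorder ι] [IsDirectedOrder ι] [Nonempty ι]
      (H : ι → Type) [∀ i, Group (H i)] (t : ∀ i j, i ≤ j → H i →* H j) (f : ∀ i, H i →* Γ) :
      (∀ i j (h : i ≤ j) x, f j (t i j h x) = f i x) →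
      (∀ i j k (h : i ≤ j) (h' : j ≤ k) x, t j k h' (t i j h x) = t i k (h.trans h') x) →
      (∀ g : Γ, ∃ i, ∃ x, f i x = g) → (∀ i x, f i x = 1 → ∃ j, ∃ h : i ≤ j, t i j h x = 1) →
      (∀ i, CC (H i)) → CC Γ
  | amalgam (G : Bool → Type) [∀ i, Group (G i)] (E : Type) [Group E] (φ : ∀ i, E →* G i)
      (k : ℕ) : (∀ i, Function.Injective (φ i)) → (∀ i, CC (G i)) → CC E →
      (∀ i w, Red φ k i w → SmallStab (Monoid.PushoutI.base φ).range w) → CC (Monoid.PushoutI φ)
  | hnn (G : Type) [Group G] (A B : Subgroup G) (φ : A ≃* B) (k : ℕ) : CC G → CC A →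
      (∀ i w, RedH φ k i w → SmallStab ((HNNExtension.of (φ := φ)).comp B.subtype).range w) →
      CC (HNNExtension G A B φ)

end Pool.Agent.WhVan
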