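import Pool.Agent.Lib.MP_8f66f0_al_HierZ.SpecZT

/-! Stage 2, block ZP: permutation modules. Statements with proofs. -/

set_option autoImplicit false

namespace Pool.Agent.Hier

open Pool.Agent.Wald Pool.Agent.Ind

section ZP

/-- ZP1. Change of the `ℤ`-basis.

Proof. `S_change` with the integral matrices: `b₂ a` has the coefficients
`((b₁.repr (b₂ a.1)) b : Q')` at `(b, a.2)`, and conversely. Both identities are
`b₂.repr (b₁ …)` composed with `b₁.repr (b₂ …)` (cast `ℤ → Q'`). -/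
def S_basisp : Prop :=
  ∀ (Q' T I P B₁ B₂ : Type) [Ring Q'] [Ring T] [AddCommGroup P] (f : Q' →+* T) (w : I → P →+ T)
    (b₁ : Module.Basis B₁ ℤ P) (b₂ : Module.Basis B₂ ℤ P),
    FreeW f (fun a : B₁ × I => w a.2 (b₁ a.1)) → Cl f (fun a : B₁ × I => w a.2 (b₁ a.1)) →
    FreeW f (fun a : B₂ × I => w a.2 (b₂ a.1)) ∧ Cl f (fun a : B₂ × I => w a.2 (b₂ a.1))

/-- The rule of a family of letters in orbits: the letter `ℓ_a` in the orbit `o a` satisfies
`ℓ_a q ∈ Q' + ∑ LL[C_{o a}] ℓ_b` with `b` in the same orbit. -/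
def FamRule (LL : Type) [CommRing LL] {E Q' T Λ O : Type} [Group E] [Ring Q'] [Algebra LL Q']
    [Ring T] [Algebra LL T] (f : Q' →ₐ[LL] T) (ρ : E →* Q') (ℓ : Λ → T) (o : Λ → O)
    (Cs : O → Subgroup E) : Prop :=
  ∀ (a : Λ) (q : Q'), ∃ (c : Q') (x : Λ →₀ MonoidAlgebra LL (Cs (o a))),
    (∀ b ∈ x.support, o b = o a) ∧
    ℓ a * f q = f c + x.sum fun b r => f (gr LL (ρ.comp (Cs (o a)).subtype) r) * ℓ b

/-- ZP2. The letters of a permutation module.

Proof. `x₀ ω` = a representative of the orbit `ω` (`Quotient.out`), `s_x • x = x₀ ⟦x⟧`,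
`ℓ_{x,i} = f(ρ s_x) w_i(b x)`. `FreeW`: `S_change` with the diagonal matrices
`single (x,i) (ρ s_x)`, `single (x,i) (ρ s_x⁻¹)` (`Cl`: `IsLTP.right` and `S_twp`). Rule:
`ℓ_{x,i} f q = f(ρ(s_x) c) + ∑_{j,e} x_i(q)_j(e) f(ρ(s_x e s_{e⁻¹x}⁻¹)) ℓ_{e⁻¹x, j}` because
`w_j(e⁻¹ • b x) = w_j(b (e⁻¹ • x))`, and `s_x e s_{e⁻¹x}⁻¹` fixes `x₀ ⟦x⟧ = x₀ ⟦e⁻¹ x⟧`. Compare
Hier/Ktquot.lean. -/
def S_permlet : Prop :=
  ∀ (LL E Q' Q I P X : Type) [CommRing LL] [Group E] [Ring Q'] [Ring Q] [Algebra LL Q']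
    [Algebra LL Q] [AddCommGroup P] [DistribMulAction E P] [MulAction E X]
    (b : Module.Basis X ℤ P) (f : Q' →ₐ[LL] Q) (ρ : E →* Q') (w : I → P →+ Q),
    (∀ (e : E) (x : X), b (e • x) = e • b x) → IsLTP LL b f ρ w →
    ∃ (ℓ : X × I → Q) (x₀ : Quotient (MulAction.orbitRel E X) → X),
      FreeW (f : Q' →+* Q) ℓ ∧
      FamRule LL f ρ ℓ (fun a : X × I => (Quotient.mk _ a.1 : Quotient (MulAction.orbitRel E X)))
        (fun ω => MulAction.stabilizer E (x₀ ω))

/-- ZP3. Adding letters.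

Proof. `S_split`: `T₀, f₀, a₀`, `T` is left free over `T₀` on the words in `d_y * wd a u`.
`IsLT LL T₀.val (f₀ ∘ ρ) (fun (y, u) => d y * wd a u)` over `C`: for `t ∈ T₀`, `wd a u * t ∈ T₀`,
so it is `∑_{u'} f(z u') wd a u'`, and `d_y f(z u') = f c + ∑ f(gr x_{y'}) d_{y'}`, hence
`d_y wd a u t = (element of T₀) + ∑_{u',y'} f(gr x_{y'}) (d_{y'} wd a u')`. Retraction:
`T₀ → Q'` (the coefficient of the empty word in the basis `FreeW f₀ a₀`) followed by `s`.
`T₀` is free over `LL` since it is `List X →₀ Q'`. Apply `SL LL C`. -/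
def S_add : Prop :=
  ∀ (LL C Q' T X Y : Type) [CommRing LL] [Group C] [Ring Q'] [Algebra LL Q'] [Ring T]
    [Algebra LL T] [Module.Free LL Q'] (ρ : C →* Q') (f : Q' →ₐ[LL] T) (a : X → T) (d : Y → T),
    FreeW (f : Q' →+* T) (Sum.elim a d) → Cl (f : Q' →+* T) a →
    (∀ (y : Y) (q : Q'), ∃ (c : Q') (x : Y →₀ MonoidAlgebra LL C),
      d y * f q = f c + x.sum fun b r => f (gr LL ρ r) * d b) →
    (∃ s : Q' →ₗ[LL] MonoidAlgebra LL C, ∀ x, s (gr LL ρ x) = x) → SL LL C →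
    ∃ (T₀ : Subalgebra LL T) (f₀ : Q' →ₐ[LL] T₀) (a₀ : X → T₀),
      (∀ q, (f₀ q : T) = f q) ∧ (∀ x, (a₀ x : T) = a x) ∧ FreeW (f₀ : Q' →+* T₀) a₀ ∧
      KT ((T₀.val : T₀ →ₐ[LL] T) : T₀ →+* T)

/-- ZP4. A family with finitely many orbits.

Proof. `Finite.induction_empty_option` on `O`. Equivalence: transport `o` and `Cs`. Empty: `Λ` is
empty, so `f` is bijective (`FreeW` on the empty word), and `KT` is clear (or `LB.KT.of_surj` in
Hier/Blk*.lean). `Option O`: `X = {a // o a ≠ none}`, `Y = {a // o a = none}`, reindex the letters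
by `X ⊕ Y ≃ Λ` (second part of `S_twp`); the rule shows that the letters of `X` are closed (the
rule for `a ∈ X` has its support in `X`) and that the letters of `Y` satisfy the rule in `S_add`
with `C = Cs none`. `S_add`: `KT (T₀ → T)`. The letters `a₀` of `T₀` satisfy `FamRule` for `O`
(the rule in `T`, `T₀ → T` injective), so `KT (Q' → T₀)` by induction. Compose (`LB.KT.comp`). -/
def S_famfin : Prop :=
  ∀ (O : Type) [Finite O] (LL E Q' T Λ : Type) [CommRing LL] [Group E] [Ring Q'] [Algebra LL Q']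
    [Ring T] [Algebra LL T] [Module.Free LL Q'] (f : Q' →ₐ[LL] T) (ρ : E →* Q') (ℓ : Λ → T)
    (o : Λ → O) (Cs : O → Subgroup E),
    (∃ s : Q' →ₗ[LL] MonoidAlgebra LL E, ∀ x, s (gr LL ρ x) = x) →
    FreeW (f : Q' →+* T) ℓ → FamRule LL f ρ ℓ o Cs → (∀ i, SL LL (Cs i)) → KT (f : Q' →+* T)

/-- ZP5. A family with any number of orbits.

Proof. Let `κ` kill the image of `GL(Q')`, `A A' = A' A = 1` over `T`. The finitely many entries of
`A`, `A'` are combinations of words; let `s` be the finite set of the orbits of the letters which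
occur. `S_split` with `X = {a // o a ∈ s}`, `Y` = the rest (reindex by `X ⊕ Y ≃ Λ`; the letters of
`X` are closed by the rule): `T₀ ≤ T` contains all the entries, `A`, `A'` are inverse to each other
over `T₀`. The letters `a₀` satisfy `FamRule` for the finite set of orbits `s`, so
`KT (Q' → T₀)` by `S_famfin`; apply it to the pull back of `κ` to `T₀` (`LB.pull`). -/
def S_fam : Prop :=
  ∀ (O LL E Q' T Λ : Type) [CommRing LL] [Group E] [Ring Q'] [Algebra LL Q']
    [Ring T] [Algebra LL T] [Module.Free LL Q'] (f : Q' →ₐ[LL] T) (ρ : E →* Q') (ℓ : Λ → T)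
    (o : Λ → O) (Cs : O → Subgroup E),
    (∃ s : Q' →ₗ[LL] MonoidAlgebra LL E, ∀ x, s (gr LL ρ x) = x) →
    FreeW (f : Q' →+* T) ℓ → FamRule LL f ρ ℓ o Cs → (∀ i, SL LL (Cs i)) → KT (f : Q' →+* T)

/-- ZP6. Permutation modules.

Proof. Data of type `P` in some basis `bP`; change to the permuted basis (`S_basisp`; `Cl` by
`IsLTP.right` and `S_twp`; `right` and `ret` do not involve the basis), `S_permlet`, `S_fam`. -/
def S_perm : Prop :=
  ∀ (LL E P : Type) [CommRing LL] [Group E] [AddCommGroup P] [DistribMulAction E P],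
    IsPermP E P (fun K => SL LL K) → SLP LL E P

/-- ZP7. The trivial type.

Proof. `IsLT` is `IsLTP` of type `TrivZ E` with the basis `{1}` (`Module.Basis.singleton Unit ℤ`)
and `w_i(n) = n • w_i` (`zmultiplesHom`): `tl` of `x` at `n` is `n • ∑ gr(x_j) w_j` since `E` acts
trivially; `FreeW` by the second part of `S_twp` with `I ≃ Unit × I`. -/
def S_triv : Prop :=
  ∀ (LL E : Type) [CommRing LL] [Group E], SLP LL E (TrivZ E) → SL LL E

end ZP

end Pool.Agent.Hier
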