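import Pool.Agent.Lib.MP_8f66f0_al_HierZ.FamAux
import Pool.Agent.Lib.MP_8f66f0_al_HierZ.SpecZP

set_option autoImplicit false

namespace Pool.Agent.Hier

/-- ZP3. -/
theorem add_of_aux (hs : S_split) : S_add := by
  intro LL C Q' T X Y _ _ _ _ _ _ _ ρ f a d h1 h2 h3 h4 h5
  exact add_kt hs f ρ a d h1 h2 h3 h4 h5

end Pool.Agent.Hier
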