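import Pool.Agent.Lib.MP_8f66f0_al_HierZ.SpecZR
import Mathlib.GroupTheory.HNNExtension

/-! The class of groups with vanishing Nil groups. -/

set_option autoImplicit false

namespace Pool.Agent.Hier

open Pool.Agent.Wald

/-- The least class of groups which contains all groups of finite cohomological dimension and is
closed under isomorphism, directed unions, arbitrary amalgams and HNN extensions of groups of the
class (there is no condition on the amalgamated or associated subgroups), and under actions on
finite dimensional acyclic complexes: if the trivial module `ℤ` of `E` has a finite resolution by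
permutation modules all of whose stabilizers are in the class, then `E` is in the class. -/
inductive NN : (E : Type) → [Group E] → Prop
  | cd {E : Type} [Group E] (n : ℕ) : Wald.CdLE n E → NN E
  | iso {E E' : Type} [Group E] [Group E'] (e : E ≃* E') : NN E → NN E'
  | directed {E : Type} [Group E] (S : Set (Subgroup E)) : S.Nonempty →
      DirectedOn (· ≤ ·) S → (∀ g : E, ∃ K ∈ S, g ∈ K) → (∀ K ∈ S, NN K) → NN E
  | amalgam (G : Bool → Type) [∀ i, Group (G i)] (E : Type) [Group E] (φ : ∀ i, E →* G i) :
      (∀ i, Function.Injective (φ i)) → (∀ i, NN (G i)) → NN (Monoid.PushoutI φ)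
  | hnn (G : Type) [Group G] (A B : Subgroup G) (φ : A ≃* B) : NN G → NN (HNNExtension G A B φ)
  | res {E : Type} [Group E] (𝒞 : Subgroup E → Prop) (n : ℕ) : (∀ C : Subgroup E, 𝒞 C → NN C) →
      ExP E 𝒞 n (TrivZ E) → NN E

end Pool.Agent.Hier
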