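import Pool.Agent.Lib.MP_8f66f0_al_HierZ.Defs

/-! Tools for families of letters: composition of `KT`, reindexing of letters, attaching a set
of letters over one group to a ring with a basis of words. -/

set_option autoImplicit false

namespace Pool.Agent.Hier

open Pool.Agent.Wald Pool.Agent.Ind

section KT

/-- The pull back of an invariant. -/
noncomputable def k1Pull {R S K : Type} [Ring R] [Ring S] [CommGroup K] (φ : R →+* S)
    (κ : K1Fun S K) : K1Fun R K where
  f A := κ.f (A.map φ)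
  mul A B hA hB := by
    rw [Matrix.map_mul]
    exact κ.mul _ _ (hA.map (RingHom.mapMatrix φ)) (hB.map (RingHom.mapMatrix φ))
  reindex e A hA := κ.reindex e (A.map φ) (hA.map (RingHom.mapMatrix φ))
  tri A B D hA hD := by
    rw [Matrix.fromBlocks_map, Matrix.map_zero _ (map_zero φ)]
    exact κ.tri _ _ _ (hA.map (RingHom.mapMatrix φ)) (hD.map (RingHom.mapMatrix φ))

theorem kt_comp {Q' T Q : Type} [Ring Q'] [Ring T] [Ring Q] (f : Q' →+* T) (g : T →+* Q)
    (hf : KT f) (hg : KT g) : KT (g.comp f) := by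
  intro K _ κ hκ n _ _ A hA
  refine hg K κ (fun m _ _ M hM => ?_) n A hA
  refine hf K (k1Pull g κ) (fun m _ _ N hN => ?_) m M hM
  have := hκ m N hN
  rw [RingHom.coe_comp, ← Matrix.map_map] at this
  exact this

theorem kt_of_surj {Q' Q : Type} [Ring Q'] [Ring Q] (f : Q' →+* Q) (hf : Function.Bijective f) :
    KT f := by
  intro K _ κ hκ n _ _ A hA
  let e : Q' ≃+* Q := RingEquiv.ofBijective f hf
  have h1 : (A.map e.symm).map f = A := by
    ext i j
    exact e.apply_symm_apply (A i j)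
  have h2 : IsUnit (A.map e.symm) := hA.map (RingHom.mapMatrix (e.symm : Q →+* Q'))
  have := hκ n _ h2
  rwa [h1] at this

end KT

section Ev

variable {Q' T Λ Λ' : Type} [Ring Q'] [Ring T]

/-- `ev` as an additive map. -/
noncomputable def evHom (f : Q' →+* T) (ℓ : Λ → T) : (List Λ →₀ Q') →+ T :=
  Finsupp.liftAddHom fun u => (AddMonoidHom.mulRight (wd ℓ u)).comp (f : Q' →+ T)

theorem evHom_apply (f : Q' →+* T) (ℓ : Λ → T) (x : List Λ →₀ Q') : evHom f ℓ x = ev f ℓ x := rfl

theorem evHom_single (f : Q' →+* T) (ℓ : Λ → T) (u : List Λ) (q : Q') :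
    evHom f ℓ (Finsupp.single u q) = f q * wd ℓ u := by
  rw [evHom, Finsupp.liftAddHom_apply_single]
  rfl

theorem wd_comp (ℓ : Λ → T) (e : Λ' → Λ) (u : List Λ') :
    wd (fun a => ℓ (e a)) u = wd ℓ (u.map e) := by
  induction u with
  | nil => rfl
  | cons a u ih =>
    show wd (fun a => ℓ (e a)) u * ℓ (e a) = wd ℓ (u.map e) * ℓ (e a)
    rw [ih]

theorem ev_comp (f : Q' →+* T) (ℓ : Λ → T) (e : Λ' → Λ) (x : List Λ' →₀ Q') :
    ev f (fun a => ℓ (e a)) x = ev f ℓ (x.mapDomain (List.map e)) := by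
  rw [← evHom_apply, ← evHom_apply]
  have h : evHom f (fun a => ℓ (e a)) =
      (evHom f ℓ).comp (Finsupp.mapDomain.addMonoidHom (List.map e)) := by
    refine Finsupp.addHom_ext fun u q => ?_
    rw [evHom_single, AddMonoidHom.comp_apply, Finsupp.mapDomain.addMonoidHom_apply,
      Finsupp.mapDomain_single, evHom_single, wd_comp]
  rw [h]
  rfl

theorem freeW_equiv (f : Q' →+* T) (ℓ : Λ → T) (e : Λ' ≃ Λ) (h : FreeW f ℓ) :
    FreeW f (fun a => ℓ (e a)) := by
  have h1 : ev f (fun a => ℓ (e a)) = ev f ℓ ∘ Finsupp.mapDomain (List.map e) :=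
    funext fun x => ev_comp f ℓ e x
  unfold FreeW
  rw [h1]
  have hb : Function.Bijective (List.map e : List Λ' → List Λ) :=
    ⟨List.map_injective_iff.2 e.injective, List.map_surjective_iff.2 e.surjective⟩
  refine h.comp ⟨Finsupp.mapDomain_injective hb.1, fun y => ?_⟩
  refine ⟨y.mapDomain (List.map e.symm), ?_⟩
  rw [← Finsupp.mapDomain_comp]
  have : (List.map e ∘ List.map e.symm : List Λ → List Λ) = id := by
    funext u
    simp
  rw [this, Finsupp.mapDomain_id]

/-- No letters. -/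
theorem freeW_isEmpty (f : Q' →+* T) (ℓ : Λ → T) [IsEmpty Λ] (h : FreeW f ℓ) :
    Function.Bijective f := by
  have h1 : ∀ q, f q = ev f ℓ (Finsupp.single [] q) := by
    intro q
    rw [← evHom_apply, evHom_single]
    exact (mul_one _).symm
  constructor
  · intro q q' hq
    rw [h1, h1] at hq
    exact Finsupp.single_injective _ (h.1 hq)
  · intro t
    obtain ⟨x, rfl⟩ := h.2 t
    refine ⟨x [], ?_⟩
    rw [h1]
    congr 1
    refine Finsupp.ext fun u => ?_
    cases u with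
    | nil => simp
    | cons a _ => exact (IsEmpty.false a).elim

end Ev

section Add

variable {LL C Q' T X Y : Type} [CommRing LL] [Group C] [Ring Q'] [Algebra LL Q'] [Ring T]
  [Algebra LL T]

/-- The inverse of `ev` as a linear map. -/
theorem exists_coeff (f : Q' →ₐ[LL] T) (ℓ : X → T) (h : FreeW (f : Q' →+* T) ℓ) :
    ∃ g : T ≃ₗ[LL] (List X →₀ Q'), ∀ x, g (ev (f : Q' →+* T) ℓ x) = x := by
  let φ : (List X →₀ Q') →ₗ[LL] T :=
    { toFun := ev (f : Q' →+* T) ℓ
      map_add' := map_add (evHom (f : Q' →+* T) ℓ)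
      map_smul' := fun t x => by
        show ev (f : Q' →+* T) ℓ (t • x) = t • ev (f : Q' →+* T) ℓ x
        rw [ev, Finsupp.sum_smul_index' (by intro u; rw [map_zero, zero_mul]), ev, Finsupp.smul_sum]
        refine Finsupp.sum_congr fun u _ => ?_
        show f (t • x u) * _ = _
        rw [map_smul, smul_mul_assoc]
        rfl }
  refine ⟨(LinearEquiv.ofBijective φ h).symm, fun x => ?_⟩
  exact (LinearEquiv.ofBijective φ h).symm_apply_apply x

/-- Attaching letters over the group `C`. -/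
theorem add_kt (hs : S_split) [Module.Free LL Q'] (f : Q' →ₐ[LL] T) (ρ : C →* Q') (a : X → T)
    (d : Y → T) (hfree : FreeW (f : Q' →+* T) (Sum.elim a d)) (hcl : Cl (f : Q' →+* T) a)
    (hr : ∀ (y : Y) (q : Q'), ∃ (c : Q') (x : Y →₀ MonoidAlgebra LL C),
      d y * f q = f c + x.sum fun b r => f (gr LL ρ r) * d b)
    (hret : ∃ s : Q' →ₗ[LL] MonoidAlgebra LL C, ∀ x, s (gr LL ρ x) = x) (hSL : SL LL C) :
    ∃ (T₀ : Subalgebra LL T) (f₀ : Q' →ₐ[LL] T₀) (a₀ : X → T₀),
      (∀ q, (f₀ q : T) = f q) ∧ (∀ x, (a₀ x : T) = a x) ∧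
      FreeW (f₀ : Q' →+* T₀) a₀ ∧ KT ((T₀.val : T₀ →ₐ[LL] T) : T₀ →+* T) := by
  classical
  obtain ⟨T₀, f₀, a₀, hf₀, ha₀, hT₀, hfr₀, -, hfr⟩ := hs LL Q' T X Y f a d hfree hcl
  refine ⟨T₀, f₀, a₀, hf₀, ha₀, hfr₀, ?_⟩
  obtain ⟨g, hg⟩ := exists_coeff f₀ a₀ hfr₀
  have : Module.Free LL T₀ := Module.Free.of_equiv g.symm
  let ρ₀ : C →* T₀ := (f₀ : Q' →* T₀).comp ρ
  have hρ₀ : ∀ r, gr LL ρ₀ r = f₀ (gr LL ρ r) := by
    intro r
    have h : (gr LL ρ₀ : MonoidAlgebra LL C →ₐ[LL] T₀) = f₀.comp (gr LL ρ) := by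
      refine MonoidAlgebra.algHom_ext (fun x => ?_) (by ext)
      simp [ρ₀, gr]
    exact DFunLike.congr_fun h r
  refine hSL T₀ T (Y × List X) T₀.val ρ₀ (fun p => d p.1 * wd a p.2) ⟨hfr, ?_, ?_⟩
  · rintro ⟨y, u⟩ q
    have hmem : wd a u * (q : T) ∈ T₀ := by
      refine T₀.mul_mem ?_ q.2
      rw [hT₀]
      refine ⟨Finsupp.single u 1, ?_⟩
      rw [← evHom_apply, evHom_single, map_one, one_mul]
    obtain ⟨x, hx⟩ := (hT₀ _).1 hmem
    choose c z hcz using hr y
    let F : ((Y × List X) →₀ MonoidAlgebra LL C) →+ T :=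
      Finsupp.liftAddHom fun j =>
        (AddMonoidHom.mulRight (d j.1 * wd a j.2)).comp
          ((f : Q' →+* T).toAddMonoidHom.comp
            (gr LL ρ : MonoidAlgebra LL C →+* Q').toAddMonoidHom)
    have hF : ∀ x : (Y × List X) →₀ MonoidAlgebra LL C,
        (x.sum fun j r => (T₀.val : T₀ →ₐ[LL] T) (gr LL ρ₀ r) * (d j.1 * wd a j.2)) = F x := by
      intro x
      show _ = x.sum fun j r => f (gr LL ρ r) * (d j.1 * wd a j.2)
      refine Finsupp.sum_congr fun j _ => ?_
      rw [hρ₀]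
      congr 1
      exact hf₀ _
    refine ⟨⟨x.sum fun v r => f (c r) * wd a v, ?_⟩,
      x.sum fun v r => (z r).sum fun b h => Finsupp.single (b, v) h, ?_⟩
    · rw [hT₀]
      refine ⟨x.sum fun v r => Finsupp.single v (c r), ?_⟩
      rw [← evHom_apply, Finsupp.sum, Finsupp.sum, map_sum]
      refine Finset.sum_congr rfl fun v _ => ?_
      rw [evHom_single]
      rfl
    · rw [hF]
      show d y * wd a u * (q : T) = (x.sum fun v r => f (c r) * wd a v) + _
      rw [mul_assoc, hx, ev, Finsupp.sum, Finset.mul_sum, Finsupp.sum, Finsupp.sum, map_sum,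
        ← Finset.sum_add_distrib]
      refine Finset.sum_congr rfl fun v _ => ?_
      rw [← mul_assoc]
      show d y * f (x v) * wd a v = _
      rw [hcz, add_mul, Finsupp.sum, Finset.sum_mul, Finsupp.sum, map_sum]
      congr 1
      refine Finset.sum_congr rfl fun b _ => ?_
      rw [← hF, Finsupp.sum_single_index]
      · rw [hρ₀, mul_assoc]
        congr 1
        exact (hf₀ _).symm
      · rw [map_zero, map_zero, zero_mul]
  · obtain ⟨s, hsx⟩ := hret
    refine ⟨s.comp ((Finsupp.lapply []).comp (g : T₀ →ₗ[LL] (List X →₀ Q'))), fun x => ?_⟩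
    show s (g (gr LL ρ₀ x) []) = x
    have h1 : gr LL ρ₀ x = ev (f₀ : Q' →+* T₀) a₀ (Finsupp.single [] (gr LL ρ x)) := by
      rw [← evHom_apply, evHom_single, hρ₀]
      exact (mul_one _).symm
    rw [h1, hg, Finsupp.single_eq_same, hsx]

end Add

end Pool.Agent.Hier
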