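import Pool.Agent.Lib.MP_8f66f0_al_HierZ.FinalD

/-! The definitions which are used in the theorem on the vanishing of Nil groups (together with the
class `NN` of groups from `FinalD`). -/

set_option autoImplicit false

namespace Pool.Agent.WhVan

/-- `K_1(Q)` is generated by the image of `K_1(Q')`: every invertible matrix over `Q`, stabilised
by an identity block, is the image of an invertible matrix over `Q'` times a product of commutators
of invertible matrices over `Q`. -/
def K1Onto {Q' Q : Type} [Ring Q'] [Ring Q] (f : Q' →+* Q) : Prop :=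
  ∀ (n : ℕ) (A : (Matrix (Fin n) (Fin n) Q)ˣ),
    ∃ (m : ℕ) (B : (Matrix (Fin n ⊕ Fin m) (Fin n ⊕ Fin m) Q')ˣ)
      (C : (Matrix (Fin n ⊕ Fin m) (Fin n ⊕ Fin m) Q)ˣ),
      C ∈ commutator (Matrix (Fin n ⊕ Fin m) (Fin n ⊕ Fin m) Q)ˣ ∧
      Matrix.fromBlocks (A : Matrix (Fin n) (Fin n) Q) (0 : Matrix (Fin n) (Fin m) Q)
          (0 : Matrix (Fin m) (Fin n) Q) (1 : Matrix (Fin m) (Fin m) Q) =
        (B : Matrix (Fin n ⊕ Fin m) (Fin n ⊕ Fin m) Q').map f *
          (C : Matrix (Fin n ⊕ Fin m) (Fin n ⊕ Fin m) Q)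

/-- Nil data over `LE`: a homomorphism `f : Q' → Q` of `L`-algebras, a homomorphism `ρ` of `E` to
`Q'` and elements `w_i` of `Q` such that

* `Q'` is free over `L`, and `LE → Q'` has an `L`-linear retraction,
* `Q` is free as a left `Q'`-module on the words (products) in the letters `w_i`,
* `w_i q ∈ Q' + ∑ LE w_j` for all `q` in `Q'`.

For example `Q' = LE`, and `Q` is the polynomial ring `LE[x]`, a twisted polynomial ring, or the
tensor ring of an `LE`-bimodule over `L` which is free as a left module. -/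
structure NilData (L : Type) [CommRing L] {E Q' Q I : Type} [Group E] [Ring Q'] [Ring Q]
    [Algebra L Q'] [Algebra L Q] (f : Q' →ₐ[L] Q) (ρ : E →* Q') (w : I → Q) : Prop where
  freeL : Module.Free L Q'
  split : ∃ s : Q' →ₗ[L] MonoidAlgebra L E, ∀ x, s (MonoidAlgebra.lift L Q' E ρ x) = x
  words : Function.Bijective fun x : List I →₀ Q' => x.sum fun u q => f q * (u.map w).prod
  right : ∀ (i : I) (q : Q'), ∃ (c : Q') (x : I →₀ MonoidAlgebra L E),
    w i * f q = f c + x.sum fun j r => f (MonoidAlgebra.lift L Q' E ρ r) * w j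

end Pool.Agent.WhVan
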