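import Mathlib

/-! The explicit matrix form of the statement that `K_1(Q)` is generated by the image of
`K_1(Q')`. -/

set_option autoImplicit false

namespace Pool.Agent.Hier

/-- `K_1(Q)` is generated by the image of `K_1(Q')`: every invertible matrix over `Q`, stabilised
by an identity block, is the image of an invertible matrix over `Q'` times a product of commutators
of invertible matrices over `Q`. -/
def K1Onto {Q' Q : Type} [Ring Q'] [Ring Q] (f : Q' →+* Q) : Prop :=
  ∀ (n : ℕ) (A : (Matrix (Fin n) (Fin n) Q)ˣ),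
    ∃ (m : ℕ) (B : (Matrix (Fin n ⊕ Fin m) (Fin n ⊕ Fin m) Q')ˣ)
      (C : (Matrix (Fin n ⊕ Fin m) (Fin n ⊕ Fin m) Q)ˣ),
      C ∈ commutator (Matrix (Fin n ⊕ Fin m) (Fin n ⊕ Fin m) Q)ˣ ∧
      Matrix.fromBlocks (A : Matrix (Fin n) (Fin n) Q) (0 : Matrix (Fin n) (Fin m) Q)
          (0 : Matrix (Fin m) (Fin n) Q) (1 : Matrix (Fin m) (Fin m) Q) =
        (B : Matrix (Fin n ⊕ Fin m) (Fin n ⊕ Fin m) Q').map f *
          (C : Matrix (Fin n ⊕ Fin m) (Fin n ⊕ Fin m) Q)

end Pool.Agent.Hier
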