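import Pool.Agent.Lib.MP_8f66f0_al_HierZ.ClassS
import Pool.Agent.Lib.MP_8f66f0_al_HierZ.KTm

/-! The polynomial ring as Land-Tamme data. -/

set_option autoImplicit false

namespace Pool.Agent.Hier

open Pool.Agent.Wald Pool.Agent.Ind

private theorem unit_list (u : List Unit) : List.replicate u.length () = u := by
  induction u with
  | nil => rfl
  | cons a u ih => rw [List.length_cons, List.replicate_succ, ih]

private theorem wd_pow {T : Type} [Ring T] (x : T) (u : List Unit) :
    wd (fun _ : Unit => x) u = x ^ u.length := by
  induction u with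
  | nil => simp [wd]
  | cons a u ih => rw [wd, ih, List.length_cons, pow_succ]

private theorem ev_coeff {R : Type} [Ring R] (x : List Unit →₀ R) (n : ℕ) :
    (ev (Polynomial.C : R →+* Polynomial R) (fun _ : Unit => (Polynomial.X : Polynomial R))
      x).coeff n = x (List.replicate n ()) := by
  unfold ev
  induction x using Finsupp.induction_linear with
  | zero => simp
  | add x y hx hy =>
    rw [Finsupp.sum_add_index' (by simp) (by intros; simp [add_mul]), Polynomial.coeff_add, hx, hy,
      Finsupp.add_apply]
  | single u r =>
    rw [Finsupp.sum_single_index (by simp), wd_pow, Polynomial.coeff_C_mul, Polynomial.coeff_X_pow]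
    by_cases h : n = u.length
    · subst h
      rw [if_pos rfl, unit_list, Finsupp.single_eq_same, mul_one]
    · rw [if_neg h, mul_zero, Finsupp.single_eq_of_ne]
      rintro h1
      exact h (by rw [← h1, List.length_replicate])

theorem freeW_poly (R : Type) [Ring R] :
    FreeW (Polynomial.C : R →+* Polynomial R) (fun _ : Unit => (Polynomial.X : Polynomial R)) := by
  constructor
  · intro x y h
    refine Finsupp.ext fun u => ?_
    have h1 := congrArg (fun p : Polynomial R => p.coeff u.length) h
    simp only [ev_coeff, unit_list] at h1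
    exact h1
  · intro p
    let e : ℕ ≃ List Unit :=
      ⟨fun n => List.replicate n (), List.length, fun n => by simp, unit_list⟩
    refine ⟨Finsupp.equivMapDomain e ((Polynomial.basisMonomials R).repr p), ?_⟩
    refine Polynomial.ext fun n => ?_
    rw [ev_coeff, Finsupp.equivMapDomain_apply]
    have h1 : e.symm (List.replicate n ()) = n := e.symm_apply_apply n
    rw [h1]
    rfl

private theorem gr_of (L E : Type) [CommRing L] [Group E] :
    gr L (MonoidAlgebra.of L E) = AlgHom.id L (MonoidAlgebra L E) :=
  (MonoidAlgebra.lift_unique' (AlgHom.id L (MonoidAlgebra L E))).symm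

/-- The polynomial ring. -/
theorem isLT_poly (L E : Type) [CommRing L] [Group E] :
    IsLT L (Polynomial.CAlgHom : MonoidAlgebra L E →ₐ[L] Polynomial (MonoidAlgebra L E))
      (MonoidAlgebra.of L E) (fun _ : Unit => (Polynomial.X : Polynomial (MonoidAlgebra L E))) where
  free := freeW_poly (MonoidAlgebra L E)
  right i q := by
    refine ⟨0, Finsupp.single () q, ?_⟩
    rw [Finsupp.sum_single_index (by simp)]
    have h1 : gr L (MonoidAlgebra.of L E) q = q := by
      rw [gr_of]
      rfl
    rw [h1]
    change Polynomial.X * Polynomial.C q = Polynomial.C 0 + Polynomial.C q * Polynomial.X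
    rw [Polynomial.X_mul_C, map_zero, zero_add]
  ret := by
    refine ⟨LinearMap.id, fun x => ?_⟩
    rw [gr_of]
    rfl

/-- `NK_1(LE) = 0`. -/
theorem nk1_of_nn {E : Type} [Group E] (hE : NN E) (L : Type) [CommRing L] [IsDomain L]
    (hL : IsEuc L) :
    K1Onto (Polynomial.C : MonoidAlgebra L E →+* Polynomial (MonoidAlgebra L E)) :=
  (k1Onto_iff _).2 (ss_of_nn hE L hL _ _ _ _ _ _ (isLT_poly L E))

end Pool.Agent.Hier
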