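import Pool.Agent.Lib.MP_8f66f0_al_HierZ.FinalN
import Pool.Agent.Lib.MP_8f66f0_al_HierZ.FinalS
import Pool.Agent.Lib.MP_8f66f0_al_HierZ.Poly

/-! The vanishing of Nil groups in terms of the self-contained definitions. -/

set_option autoImplicit false

namespace Pool.Agent.WhVan

open Pool.Agent

private theorem wd_eq {T Λ : Type} [Ring T] (ℓ : Λ → T) (u : List Λ) :
    Hier.wd ℓ u = (u.reverse.map ℓ).prod := by
  induction u with
  | nil => rfl
  | cons a u ih => simp [Hier.wd, ih]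

private theorem freeW_of {Q' T Λ : Type} [Ring Q'] [Ring T] (f : Q' →+* T) (ℓ : Λ → T)
    (h : Function.Bijective fun x : List Λ →₀ Q' => x.sum fun u q => f q * (u.map ℓ).prod) :
    Hier.FreeW f ℓ := by
  let e : List Λ ≃ List Λ := ⟨List.reverse, List.reverse, List.reverse_reverse,
    List.reverse_reverse⟩
  have h1 : Hier.ev f ℓ = (fun x : List Λ →₀ Q' => x.sum fun u q => f q * (u.map ℓ).prod) ∘
      (Finsupp.domCongr e : (List Λ →₀ Q') ≃+ (List Λ →₀ Q')) := by
    funext x
    unfold Hier.ev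
    rw [Function.comp_apply]
    change _ = (Finsupp.equivMapDomain e x).sum _
    rw [Finsupp.sum_equivMapDomain]
    refine Finsupp.sum_congr fun u _ => ?_
    rw [wd_eq]
    rfl
  unfold Hier.FreeW
  rw [h1]
  exact h.comp (Equiv.bijective _)

theorem isLT_of_nilData {L E Q' Q I : Type} [CommRing L] [Group E] [Ring Q'] [Ring Q]
    [Algebra L Q'] [Algebra L Q] {f : Q' →ₐ[L] Q} {ρ : E →* Q'} {w : I → Q}
    (h : NilData L f ρ w) : Hier.IsLT L f ρ w :=
  ⟨freeW_of _ w h.words, h.right, h.split⟩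

theorem nil_main {E : Type} [Group E] (hE : NN E) (L : Type) [CommRing L] [IsDomain L]
    (hL : IsEuc L) {Q' Q I : Type} [Ring Q'] [Ring Q] [Algebra L Q'] [Algebra L Q]
    (f : Q' →ₐ[L] Q) (ρ : E →* Q') (w : I → Q) (h : NilData L f ρ w) :
    K1Onto (f : Q' →+* Q) := by
  have := h.freeL
  exact (Hier.k1Onto_iff _).2
    (Hier.ss_of_nn (nn_of_NN hE) L hL Q' Q I f ρ w (isLT_of_nilData h))

theorem nk1_main {E : Type} [Group E] (hE : NN E) (L : Type) [CommRing L] [IsDomain L]
    (hL : IsEuc L) :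
    K1Onto (Polynomial.C : MonoidAlgebra L E →+* Polynomial (MonoidAlgebra L E)) :=
  Hier.nk1_of_nn (nn_of_NN hE) L hL

end Pool.Agent.WhVan
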