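import Pool.Agent.Lib.MP_8f66f0_al_HierZ.SpecZR

/-! Finite projective dimension gives a finite resolution by free permutation modules. -/

set_option autoImplicit false

namespace Pool.Agent.Hier

open Pool.Agent.Wald Pool.Agent.Ind CategoryTheory

namespace PdresAux

theorem sh {R : Type} [Ring R] {P M : Type} [AddCommGroup P] [Module R P]
    [AddCommGroup M] [Module R M] [Module.Projective R P] (f : P →ₗ[R] M)
    (hf : Function.Surjective f) (n : ℕ)
    (hM : HasProjectiveDimensionLT (ModuleCat.of R M) (n + 2)) :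
    HasProjectiveDimensionLT (ModuleCat.of R (LinearMap.ker f)) (n + 1) := by
  have h1 := LinearMap.shortExact_shortComplexKer hf
  have hP : Projective (ModuleCat.of R P) := (IsProjective.iff_projective P).mp inferInstance
  have h2 : HasProjectiveDimensionLT (ModuleCat.of R P) (n + 1) :=
    hasProjectiveDimensionLT_of_ge _ 1 _ (by omega)
  exact h1.hasProjectiveDimensionLT_X₁ (n + 1) h2 hM

/-- The action on pairs. -/
@[reducible] def act (E B : Type) [Group E] : MulAction E (B × E) where
  smul e x := (x.1, e * x.2)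
  one_smul x := Prod.ext rfl (one_mul x.2)
  mul_smul e e' x := Prod.ext rfl (mul_assoc e e' x.2)

/-- The coordinates of the free module. -/
noncomputable def eqv (E B : Type) [Group E] :
    (B →₀ MonoidAlgebra ℤ E) ≃+ (B × E →₀ ℤ) :=
  (Finsupp.mapRange.addEquiv (MonoidAlgebra.coeffAddEquiv (R := ℤ) (M := E))).trans
    (Finsupp.curryAddEquiv (α := B) (β := E) (M := ℤ)).symm

theorem eqv_single (E B : Type) [Group E] (b : B) (e : E) :
    eqv E B (Finsupp.single b (MonoidAlgebra.single e 1)) = Finsupp.single (b, e) 1 := by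
  classical
  have h1 : (Finsupp.curryAddEquiv (α := B) (β := E) (M := ℤ)) (Finsupp.single (b, e) 1) =
      Finsupp.single b (Finsupp.single e 1) := by
    ext b' e'
    simp [Finsupp.curryAddEquiv]
  rw [eqv, AddEquiv.trans_apply, AddEquiv.symm_apply_eq, h1]
  rw [Finsupp.mapRange.addEquiv_apply, Finsupp.mapRange_single]
  rfl

/-- The permuted basis. -/
noncomputable def bas (E B : Type) [Group E] :
    Module.Basis (B × E) ℤ (B →₀ MonoidAlgebra ℤ E) :=
  Module.Basis.ofRepr (eqv E B).toIntLinearEquiv

theorem bas_apply (E B : Type) [Group E] (x : B × E) :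
    bas E B x = Finsupp.single x.1 (MonoidAlgebra.single x.2 1) := by
  have h : (bas E B).repr (Finsupp.single x.1 (MonoidAlgebra.single x.2 1)) =
      Finsupp.single x 1 := eqv_single E B x.1 x.2
  rw [← (bas E B).repr.symm_apply_apply (Finsupp.single x.1 (MonoidAlgebra.single x.2 1)), h,
    Module.Basis.repr_symm_single_one]

theorem perm (E B : Type) [Group E] :
    @IsPermP E (B →₀ MonoidAlgebra ℤ E) _ _ (actOf E _) (fun C => C = ⊥) := by
  refine ⟨B × E, act E B, bas E B, fun e x => ?_, fun x => ?_⟩
  · rw [bas_apply, bas_apply]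
    change Finsupp.single x.1 (MonoidAlgebra.single (e * x.2) 1) =
      MonoidAlgebra.single e (1 : ℤ) • Finsupp.single x.1 (MonoidAlgebra.single x.2 (1 : ℤ))
    rw [Finsupp.smul_single, smul_eq_mul, MonoidAlgebra.single_mul_single, one_mul]
  · refine (Subgroup.eq_bot_iff_forall _).2 ?_
    intro e he
    letI := act E B
    have h0 : e • x = x := MulAction.mem_stabilizer_iff.1 he
    have h : e * x.2 = x.2 := congrArg Prod.snd h0
    exact mul_eq_right.1 h

/-- A linear map is equivariant. -/
noncomputable def hom {E M N : Type} [Group E] [AddCommGroup M] [Module (MonoidAlgebra ℤ E) M]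
    [AddCommGroup N] [Module (MonoidAlgebra ℤ E) N] (g : M →ₗ[MonoidAlgebra ℤ E] N) :
    letI := actOf E M
    letI := actOf E N
    M →+[E] N :=
  letI := actOf E M
  letI := actOf E N
  { toFun := g
    map_smul' := fun e x => g.map_smul (MonoidAlgebra.single e (1 : ℤ)) x
    map_zero' := g.map_zero
    map_add' := g.map_add }

theorem free_free (E B : Type) [Group E] : Module.Free ℤ (B →₀ MonoidAlgebra ℤ E) :=
  Module.Free.of_basis (bas E B)

end PdresAux

open PdresAux in
theorem pdres : S_syz → S_swindle → S_pdres := by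
  intro hsyz hsw E _ n
  induction n with
  | zero =>
    intro M _ _ hfree hM
    have : Module.Projective (MonoidAlgebra ℤ E) M :=
      (IsProjective.iff_projective _).mpr (projective_iff_hasProjectiveDimensionLT_one.mpr hM)
    obtain ⟨J, i, r, hi, hex, hr⟩ := hsw (MonoidAlgebra ℤ E) M
    exact ⟨J →₀ MonoidAlgebra ℤ E, J →₀ MonoidAlgebra ℤ E, inferInstance, actOf E _,
      inferInstance, actOf E _, hom i, hom r, hi, hex, hr, hfree, free_free E J, perm E J,
      perm E J⟩
  | succ n ih =>
    intro M _ _ hfree hM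
    obtain ⟨⟨B, bM⟩⟩ := hfree.exists_basis
    obtain ⟨ε, -, hε, hK⟩ := hsyz E M B bM
    have hk := sh ε hε n hM
    refine ⟨B →₀ MonoidAlgebra ℤ E, LinearMap.ker ε, inferInstance, actOf E _,
      inferInstance, actOf E _, hom (LinearMap.ker ε).subtype, hom ε, Subtype.val_injective, ?_,
      hε, hfree, hK, perm E B, ih (LinearMap.ker ε) hK hk⟩
    intro y
    constructor
    · intro hy
      exact ⟨⟨y, hy⟩, rfl⟩
    · rintro ⟨z, rfl⟩
      exact z.2

end Pool.Agent.Hier
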