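import Pool.Agent.Lib.MP_8f66f0_al_Hier.Top

/-! Stage 1: closure properties of the class `SS`. -/

set_option autoImplicit false

namespace Pool.Agent.Hier

open Pool.Agent.Wald Pool.Agent.Ind

theorem ss_union {E : Type} [Group E] (S : Set (Subgroup E)) (hne : S.Nonempty)
    (hd : DirectedOn (· ≤ ·) S) (hS : ∀ g : E, ∃ K ∈ S, g ∈ K) (h : ∀ K ∈ S, SS K) : SS E :=
  ss_directed S hne hd hS h

theorem nilV_of_ss {E : Type} [Group E] (h : SS E) (LL : Type) [CommRing LL] [IsDomain LL]
    (hL : IsEuc LL) : WaldL.NilV LL E := nilV_of_SL (h LL hL)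

end Pool.Agent.Hier
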