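import Pool.Agent.Lib.MP_8f66f0_al_HierZ.SpecZR

/-! Typed data are Land-Tamme data. -/

set_option autoImplicit false

namespace Pool.Agent.Hier

open Pool.Agent.Wald Pool.Agent.Ind

/-- The additive map `y ↦ ∑ f (gr y_a) l_a`. -/
private noncomputable def slpY {LL E Q' Q A : Type} [CommRing LL] [Group E] [Ring Q'] [Ring Q]
    [Algebra LL Q'] [Algebra LL Q] (f : Q' →ₐ[LL] Q) (ρ : E →* Q') (l : A → Q) :
    (A →₀ MonoidAlgebra LL E) →+ Q where
  toFun y := y.sum fun a r => f (gr LL ρ r) * l a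
  map_zero' := Finsupp.sum_zero_index
  map_add' x y := by
    refine Finsupp.sum_add_index' (fun a => ?_) (fun a r r' => ?_)
    · rw [map_zero, map_zero, zero_mul]
    · rw [map_add, map_add, add_mul]

private theorem slpY_single {LL E Q' Q A : Type} [CommRing LL] [Group E] [Ring Q'] [Ring Q]
    [Algebra LL Q'] [Algebra LL Q] (f : Q' →ₐ[LL] Q) (ρ : E →* Q') (l : A → Q) (a : A) (e : E)
    (t : LL) : slpY f ρ l (Finsupp.single a (MonoidAlgebra.single e t)) = t • (f (ρ e) * l a) := by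
  change (Finsupp.single a (MonoidAlgebra.single e t)).sum (fun a r => f (gr LL ρ r) * l a) = _
  rw [Finsupp.sum_single_index (by rw [map_zero, map_zero, zero_mul]), MonoidAlgebra.lift_single,
    map_smul, smul_mul_assoc]

private theorem slp_mem {LL E Q' Q I P B : Type} [CommRing LL] [Group E] [Ring Q'] [Ring Q]
    [Algebra LL Q'] [Algebra LL Q] [AddCommGroup P] [DistribMulAction E P]
    (bP : Module.Basis B ℤ P) (f : Q' →ₐ[LL] Q) (ρ : E →* Q') (w : I → P →+ Q) (j : I) (e : E)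
    (t : LL) (p : P) :
    t • (f (ρ e) * w j p) ∈ (slpY f ρ (fun a : B × I => w a.2 (bP a.1))).range := by
  refine Submodule.span_induction (p := fun p _ =>
    t • (f (ρ e) * w j p) ∈ (slpY f ρ (fun a : B × I => w a.2 (bP a.1))).range) ?_ ?_ ?_ ?_
    (bP.mem_span p)
  · rintro _ ⟨k, rfl⟩
    exact ⟨Finsupp.single (k, j) (MonoidAlgebra.single e t), slpY_single f ρ _ (k, j) e t⟩
  · rw [map_zero, mul_zero, smul_zero]
    exact AddSubgroup.zero_mem _
  · intro x y _ _ hx hy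
    rw [map_add, mul_add, smul_add]
    exact AddSubgroup.add_mem _ hx hy
  · intro n x _ hx
    rw [map_zsmul, mul_smul_comm, smul_comm]
    exact AddSubgroup.zsmul_mem _ hx n

theorem slpsl : S_slpsl := by
  intro LL E P _ _ _ _ h Q' Q I B _ _ _ _ _ bP f ρ w hw
  refine h Q' Q (B × I) f ρ (fun a => w a.2 (bP a.1)) ⟨hw.free, ?_, hw.ret⟩
  rintro ⟨b, i⟩ q
  obtain ⟨x, hx⟩ := hw.right i q
  obtain ⟨c, hc⟩ := hx (bP b)
  have h1 : tl (fun e => f (ρ e)) w x (bP b) ∈
      (slpY f ρ (fun a : B × I => w a.2 (bP a.1))).range := by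
    unfold tl Finsupp.sum
    exact AddSubgroup.sum_mem _ fun j _ => AddSubgroup.sum_mem _ fun e _ =>
      slp_mem bP f ρ w j e _ _
  obtain ⟨y, hy⟩ := h1
  refine ⟨c, y, ?_⟩
  rw [hc, ← hy]
  rfl

end Pool.Agent.Hier
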