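import Pool.Agent.Lib.MP_8f66f0_al_HierZ.Defs

/-! Stage 2, block ZT: structure constants and the rings `T(P)`. Statements with proofs.

General facts (prove them where needed, by `Finsupp.sum_add_index'`, `Finsupp.sum_single_index`):
`tl ρ w x p` is additive in `x` and in `p`, and `tl ρ w (t • x) p = t • tl ρ w x p`. -/

set_option autoImplicit false

namespace Pool.Agent.Hier

open Pool.Agent.Wald Pool.Agent.Ind

section ZT

/-- `∑ [e⁻¹ p]_b x_j(e) ρ(e) [b, j]`: the coefficients of `tl` in a basis. -/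
noncomputable def twP {LL E Q' P B I : Type} [CommRing LL] [Group E] [Ring Q'] [Algebra LL Q']
    [AddCommGroup P] [DistribMulAction E P] (ρ : E →* Q') (bP : Module.Basis B ℤ P) (p : P)
    (x : I →₀ MonoidAlgebra LL E) : (B × I) →₀ Q' :=
  x.sum fun j r => r.coeff.sum fun e t => (bP.repr (e⁻¹ • p)).sum fun b n =>
    Finsupp.single (b, j) (n • t • ρ e)

/-- ZT0. The coefficients of `tl`, and a change of the index set of the letters.

Proof. `w_j(e⁻¹ p) = ∑_b [e⁻¹ p]_b w_j(bP_b)` (`bP.linearCombination_repr`, `map_finsuppSum`) and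
`lin` is additive. Second part: `ev f (ℓ ∘ e) x = ev f ℓ (x.mapDomain (List.map e))`, and
`List.map e` is a bijection. -/
def S_twp : Prop :=
  (∀ (LL E Q' T I P B : Type) [CommRing LL] [Group E] [Ring Q'] [Algebra LL Q'] [Ring T]
    [Algebra LL T] [AddCommGroup P] [DistribMulAction E P] (ρ : E →* Q')
    (bP : Module.Basis B ℤ P) (f : Q' →ₐ[LL] T) (w : I → P →+ T) (p : P)
    (x : I →₀ MonoidAlgebra LL E),
    lin (f : Q' →+* T) (fun a : B × I => w a.2 (bP a.1)) (twP ρ bP p x) =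
      tl (fun e => f (ρ e)) w x p) ∧
  (∀ (Q' T Λ Λ' : Type) [Ring Q'] [Ring T] (f : Q' →+* T) (ℓ : Λ → T) (e : Λ' ≃ Λ),
    FreeW f ℓ → FreeW f (fun a => ℓ (e a)))

/-- ZT1. Typed structure constants exist and `x` is unique.

Proof. `{1} ∪ {w_i(bP_b)}` is left independent over `Q'` (words of length at most one), and
`gr LL ρ` is injective (`ret`). Claim: if `f c_p + tl _ w y p = 0` for all `p ∈ P` (`y`
independent of `p`), then `y = 0` (and `c_p = 0`). Take `p = e • bP_b` for any `b : B`; by `S_twp`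
the coefficient at the letter `(b, j)` is `∑_{e'} [e'⁻¹ e b]_b y_j(e') ρ(e') = 0`; apply `s`
from `ret` and take the coefficient at `e`: `y_j(e) = 0` (since `[b]_b = 1`). Hence `x` in
`IsLTP.right` is unique; then `c` is unique since `f` is injective. Uniqueness gives: `x_i` is
`LL`-linear, `c_i(p)` is `LL`-linear in `q` and additive in `p` (use that `tl` is additive in `p`
and `x`), `x_one`, `c_one`. `c_mul`, `x_mul`: compute `w_i(p) f(q) f(q')`:
`f (c_i(p)(q) q') + ∑_{j,e} x_i(q)_j(e) f(ρ e) (f(c_j(e⁻¹p)(q')) + tl _ w (x_j(q')) (e⁻¹p))` and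
`∑_{j,e} x_i(q)_j(e) f(ρ e) * tl _ w (x_j(q')) (e⁻¹ p) = tl _ w (∑_j x_i(q)_j • x_j(q')) p`, since
`e'⁻¹ e⁻¹ p = (e e')⁻¹ p`. -/
def S_scp : Prop :=
  ∀ (LL E Q' Q I P B : Type) [CommRing LL] [Group E] [Ring Q'] [Ring Q] [Algebra LL Q']
    [Algebra LL Q] [AddCommGroup P] [DistribMulAction E P] (bP : Module.Basis B ℤ P)
    (f : Q' →ₐ[LL] Q) (ρ : E →* Q') (w : I → P →+ Q), Nonempty B → IsLTP LL bP f ρ w →
    ∃ D : SCP LL ρ I P, ∀ i p q, w i p * f q = f (D.c i p q) + tl (fun e => f (ρ e)) w (D.x i q) p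

/-- ZT2. The letter system of `T(P)`.

Proof. `twP ρ bP p x` is additive in `p` and `x`, `LL`-linear in `x`;
`twP ρ bP p (r • x) = ∑_e r(e) ρ(e) • twP ρ bP (e⁻¹ p) x` (since `(e e')⁻¹ p = e'⁻¹ (e⁻¹ p)`,
`ρ (e e') = ρ e * ρ e'` and the coefficients in `LL` are central);
`twP ρ bP (bP b) (single i 1) = single (b, i) 1`. `c_mul`: by `D.c_mul` and
`r (e⁻¹ • bP b) = e⁻¹ • r (bP b) = ∑_{b'} [e⁻¹ b]_{b'} r (bP b')`. `m_mul`: by `D.x_mul` and
`∑_{b'} [e⁻¹ b]_{b'} twP ρ bP (bP b') x = twP ρ bP (e⁻¹ • bP b) x`. -/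
def S_tpls : Prop :=
  ∀ (LL E Q' I P P'' B : Type) [CommRing LL] [Group E] [Ring Q'] [Algebra LL Q']
    [AddCommGroup P] [DistribMulAction E P] [AddCommGroup P''] [DistribMulAction E P'']
    (ρ : E →* Q') (D : SCP LL ρ I P'') (r : P →+[E] P'') (bP : Module.Basis B ℤ P),
    ∃ S : LS LL Q' (B × I), (∀ b i q, S.c (b, i) q = D.c i (r (bP b)) q) ∧
      ∀ b i q, S.m (b, i) q = twP ρ bP (bP b) (D.x i q)

/-- ZT3. Existence and universal property of `T(P)`.

Proof. `con` and `lift` for the letter system of ZT2, `w_i(p) = ∑_b [p]_b ℓ_{(b,i)}` (additive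
in `p`: `bP.constr` or `Finsupp.liftAddHom` after `bP.repr`). `rel` for `p = bP b` is the relation
of the letter system with `S_twp`; both sides are additive in `p`. Universal property: `z_i(bP_b)`
satisfy the relations; `φ (w i p) = z i p` since both sides are additive in `p` and agree on the
basis. -/
def S_tp : Prop :=
  ∀ (LL E Q' I P P'' B : Type) [CommRing LL] [Group E] [Ring Q'] [Algebra LL Q']
    [AddCommGroup P] [DistribMulAction E P] [AddCommGroup P''] [DistribMulAction E P'']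
    (ρ : E →* Q') (D : SCP LL ρ I P'') (r : P →+[E] P'') (bP : Module.Basis B ℤ P),
    (∃ (T : Type) (_ : Ring T) (_ : Algebra LL T) (f : Q' →ₐ[LL] T) (w : I → P →+ T),
      IsTP D r bP f w) ∧
    ∀ (T Z : Type) [Ring T] [Algebra LL T] [Ring Z] [Algebra LL Z] (f : Q' →ₐ[LL] T)
      (w : I → P →+ T) (g : Q' →ₐ[LL] Z) (z : I → P →+ Z), IsTP D r bP f w →
      (∀ i p q, z i p * g q = g (D.c i (r p) q) + tl (fun e => g (ρ e)) z (D.x i q) p) →
      ∃ φ : T →ₐ[LL] Z, (∀ q, φ (f q) = g q) ∧ (∀ i p, φ (w i p) = z i p) ∧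
        ∀ x, φ (ev (f : Q' →+* T) (fun a : B × I => w a.2 (bP a.1)) x) =
          ev (g : Q' →+* Z) (fun a : B × I => z a.2 (bP a.1)) x

/-- ZT4. The letters of `T(P)` are closed, and `SLP LL E P` gives `KT (Q' → T(P))`.

Proof. `Cl`: `rel` and `S_twp`. `IsLTP`: `x = D.x i q`, `c = D.c i (r p) q`. -/
def S_ktp : Prop :=
  ∀ (LL E Q' I P P'' B T : Type) [CommRing LL] [Group E] [Ring Q'] [Algebra LL Q']
    [AddCommGroup P] [DistribMulAction E P] [AddCommGroup P''] [DistribMulAction E P'']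
    (ρ : E →* Q') (D : SCP LL ρ I P'') (r : P →+[E] P'') (bP : Module.Basis B ℤ P) [Ring T]
    [Algebra LL T] (f : Q' →ₐ[LL] T) (w : I → P →+ T), IsTP D r bP f w →
    Cl (f : Q' →+* T) (fun a : B × I => w a.2 (bP a.1)) ∧
    ((∃ s : Q' →ₗ[LL] MonoidAlgebra LL E, ∀ x, s (gr LL ρ x) = x) → Module.Free LL Q' →
      SLP LL E P → KT (f : Q' →+* T))

/-- ZT5. The basis of an extension.

Proof. Choose `σ_b` with `r σ_b = bP''_b`; `bP` = the `σ_b` and the `i(bP'_b)`: independent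
(apply `r`, then `i` injective), spanning (`p - ∑ [r p]_b σ_b ∈ ker r = im i`). `Module.Basis.mk`,
or `Module.Basis.ofEquivFun`-like: the additive map `(B'' →₀ ℤ) × (B' →₀ ℤ) → P` is bijective. -/
def S_exbas : Prop :=
  ∀ (P' P P'' B' B'' : Type) [AddCommGroup P'] [AddCommGroup P] [AddCommGroup P'']
    (i : P' →+ P) (r : P →+ P'') (bP' : Module.Basis B' ℤ P') (bP'' : Module.Basis B'' ℤ P''),
    Function.Injective i → Function.Exact i r → Function.Surjective r →
    ∃ bP : Module.Basis (B'' ⊕ B') ℤ P, (∀ b, r (bP (Sum.inl b)) = bP'' b) ∧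
      ∀ b, bP (Sum.inr b) = i (bP' b)

end ZT

end Pool.Agent.Hier
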