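import Pool.Agent.Lib.MP_8f66f0_al_HierZ.SpecZP

set_option autoImplicit false

namespace Pool.Agent.Hier

open Pool.Agent.Wald Pool.Agent.Ind

private noncomputable def trEquivZ : ℤ ≃+ (Unit →₀ ℤ) where
  toFun n := Finsupp.single () n
  invFun f := f ()
  left_inv n := by simp
  right_inv f := by
    ext
    simp
  map_add' m n := Finsupp.single_add _ _ _

private noncomputable def trEquiv (E : Type) : TrivZ E ≃+ (Unit →₀ ℤ) := trEquivZ

private noncomputable def trBasis (E : Type) : Module.Basis Unit ℤ (TrivZ E) :=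
  Module.Basis.ofRepr (trEquiv E).toIntLinearEquiv

private def trVal {E : Type} (n : TrivZ E) : ℤ := n

private theorem trBasis_apply (E : Type) (u : Unit) : trVal (trBasis E u) = 1 := by
  show (Finsupp.single u (1 : ℤ)) () = 1
  simp

private def trW (E : Type) {Q I : Type} [Ring Q] (w : I → Q) (i : I) : TrivZ E →+ Q :=
  (zmultiplesHom Q (w i) : ℤ →+ Q)

private theorem trW_apply (E : Type) {Q I : Type} [Ring Q] (w : I → Q) (i : I) (n : TrivZ E) :
    trW E w i n = trVal n • w i := rfl

theorem triv (h : S_twp) : S_triv := by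
  intro LL E _ _ hP Q' Q I _ _ _ _ _ f ρ w hLT
  refine hP Q' Q I Unit (trBasis E) f ρ (trW E w) ⟨?_, ?_, hLT.ret⟩
  · have h1 := h.2 Q' Q I (Unit × I) (f : Q' →+* Q) w (Equiv.punitProd I) hLT.free
    have h2 : (fun a : Unit × I => trW E w a.2 (trBasis E a.1)) =
        fun a => w (Equiv.punitProd I a) := by
      funext a
      rw [trW_apply, trBasis_apply, one_smul]
      rfl
    rw [h2]
    exact h1
  · intro i q
    obtain ⟨c, x, hx⟩ := hLT.right i q
    refine ⟨x, fun p => ⟨trVal p • c, ?_⟩⟩
    have h3 : tl (fun e => f (ρ e)) (trW E w) x p =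
        trVal p • (x.sum fun j r => f (gr LL ρ r) * w j) := by
      unfold tl Finsupp.sum
      rw [Finset.smul_sum]
      refine Finset.sum_congr rfl fun j _ => ?_
      have h4 : gr LL ρ (x j) = ∑ e ∈ (x j).coeff.support, (x j).coeff e • ρ e := by
        show MonoidAlgebra.lift LL Q' E ρ (x j) = _
        rw [MonoidAlgebra.lift_apply]
        rfl
      show (∑ e ∈ (x j).coeff.support, (x j).coeff e • (f (ρ e) * trW E w j (e⁻¹ • p))) =
        trVal p • (f (gr LL ρ (x j)) * w j)
      rw [h4, map_sum, Finset.sum_mul, Finset.smul_sum]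
      refine Finset.sum_congr rfl fun e _ => ?_
      have h5 : trW E w j (e⁻¹ • p) = trVal p • w j := rfl
      rw [h5, map_smul, smul_mul_assoc, smul_comm (trVal p) ((x j).coeff e),
        mul_smul_comm]
    rw [h3, trW_apply, smul_mul_assoc, hx, smul_add, map_zsmul]

end Pool.Agent.Hier
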