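import Pool.Agent.Lib.MP_8f66f0_al_HierZ.TyA

/-! Typed block data: the chain of typed Land-Tamme extensions. -/

set_option autoImplicit false

namespace Pool.Agent.Hier.LB

open Pool.Agent.Wald Pool.Agent.Ind Pool.Agent.Hier Function

section Lin

variable {LL R T Λ : Type} [CommRing LL] [Ring R] [Ring T] [Algebra LL R] [Algebra LL T]

/-- `lin` as an `LL`-linear map. -/
noncomputable def linLin (f : R →ₐ[LL] T) (ℓ : Λ → T) : (Λ →₀ R) →ₗ[LL] T :=
  Finsupp.lsum LL fun u => (LinearMap.mulRight LL (ℓ u)) ∘ₗ f.toLinearMap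

theorem linLin_single (f : R →ₐ[LL] T) (ℓ : Λ → T) (u : Λ) (r : R) :
    linLin f ℓ (Finsupp.single u r) = f r * ℓ u := by
  simp [linLin]

theorem linLin_apply (f : R →ₐ[LL] T) (ℓ : Λ → T) (z : Λ →₀ R) :
    linLin f ℓ z = lin (f : R →+* T) ℓ z := by
  rw [linLin, Finsupp.lsum_apply]
  rfl

end Lin

section Chain

variable {LL : Type} [CommRing LL] {C L β P B : Type} [Group C] [Ring L] [Algebra LL L]
  [AddCommGroup P] [DistribMulAction C P] {bP : Module.Basis B ℤ P}
  {ρ : C →* L} {b : β → P →+ L} {sz : β → ℕ}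

theorem gr_single_one (c : C) : gr LL ρ (MonoidAlgebra.single c 1) = ρ c := by
  change MonoidAlgebra.lift LL L C ρ (MonoidAlgebra.single c 1) = _
  rw [MonoidAlgebra.lift_single, one_smul]

theorem blk_of_blkP (hB : BlkP LL bP ρ b sz) :
    Blk LL ρ (fun a : B × β => b a.2 (bP a.1)) (fun a => sz a.2) where
  free := hB.free
  tri := by
    rintro ⟨k, x⟩ c
    obtain ⟨y, hy, h⟩ := hB.tri x c
    obtain ⟨z, hz, hz'⟩ := h (bP k)
    have key : tl (fun e => ρ e) b y (bP k) ∈ Submodule.map
        (linLin (gr LL ρ) (fun a : B × β => b a.2 (bP a.1)))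
        (Finsupp.supported (MonoidAlgebra LL C) LL {a : B × β | sz a.2 = sz x}) := by
      refine tl_mem bP _ (fun j hj e k' => ?_) (bP k)
      refine ⟨Finsupp.single (k', j) (MonoidAlgebra.single e 1),
        Finsupp.single_mem_supported _ _ (hy j hj), ?_⟩
      rw [linLin_single, gr_single_one]
    obtain ⟨y', hy', e⟩ := key
    rw [linLin_apply] at e
    refine ⟨y', z, ?_, fun x' hx' => hy' hx', hz'⟩
    rw [e]
    exact hz

variable (hB : BlkP LL bP ρ b sz)

omit [DistribMulAction C P] in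
theorem blkP_mem {m : ℕ} {x : β} (hx : sz x < m) (p : P) :
    b x p ∈ spW LL ρ (fun a : B × β => b a.2 (bP a.1)) (fun a => sz a.2 < m) := by
  refine mem_of_basis bP (b x) (spW LL ρ (fun a : B × β => b a.2 (bP a.1))
    (fun a => sz a.2 < m)).toAddSubgroup (fun k => ?_) p
  exact blk_mem (b := fun a : B × β => b a.2 (bP a.1)) (a := (k, x)) hx

/-- The typed blocks of size `n` as elements of the next stage. -/
noncomputable def yt (n : ℕ) (x : {x : β // sz x = n}) : P →+ SA (blk_clo (blk_of_blkP hB) (n + 1)) where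
  toFun p := ⟨b x.1 p, blkP_mem (by have := x.2; omega) p⟩
  map_zero' := Subtype.ext (map_zero (b x.1))
  map_add' p p' := Subtype.ext (map_add (b x.1) p p')

/-- The typed letters of the step. -/
noncomputable def wt (n : ℕ) (l : {x : β // sz x = n} × List {a : B × β // sz a.2 < n}) :
    P →+ SA (blk_clo (blk_of_blkP hB) (n + 1)) :=
  (AddMonoidHom.mulRight ((inc (blk_of_blkP hB) n : _ →+* _)
    (wd (xs (blk_of_blkP hB) n) l.2))).comp (yt hB n l.1)

/-- The typed letters in `L`. -/
noncomputable def wL (bP : Module.Basis B ℤ P) (b : β → P →+ L) (n : ℕ)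
    (l : {x : β // sz x = n} × List {a : B × β // sz a.2 < n}) : P →+ L :=
  (AddMonoidHom.mulRight (wd (fun a : B × β => b a.2 (bP a.1)) (l.2.map Subtype.val))).comp
    (b l.1.1)

theorem wt_coe (n : ℕ) (l : {x : β // sz x = n} × List {a : B × β // sz a.2 < n}) (p : P) :
    ((wt hB n l p : SA (blk_clo (blk_of_blkP hB) (n + 1))) : L) = wL bP b n l p := by
  change b l.1.1 p * ((SA (blk_clo (blk_of_blkP hB) n)).val : _ →+* L)
    (wd (xs (blk_of_blkP hB) n) l.2) = _
  rw [map_wd]
  change _ = b l.1.1 p * wd _ (l.2.map Subtype.val)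
  rw [wd_map]
  rfl

include hB in
theorem right_ty (n : ℕ) (x : {x : β // sz x = n}) (q : L)
    (hq : q ∈ spW LL ρ (fun a : B × β => b a.2 (bP a.1)) (fun a => sz a.2 < n)) :
    (fun p => b x.1 p * q) ∈ Ty (LL := LL) (fun e => ρ e) (wL (sz := sz) bP b n) Set.univ
      (spW LL ρ (fun a : B × β => b a.2 (bP a.1)) (fun a => sz a.2 < n)) := by
  induction hq using Submodule.span_induction with
  | mem q hq =>
    obtain ⟨c, v, hv, rfl⟩ := hq
    obtain ⟨y, hy, h⟩ := hB.tri x.1 c
    obtain ⟨v', hv'⟩ := lift_list (Subtype.val : {a : B × β // sz a.2 < n} → B × β)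
      (fun a => sz a.2 < n) (fun a ha => ⟨⟨a, ha⟩, rfl⟩) v hv
    have hy1 : (y.support : Set β) ⊆ Set.range (Subtype.val : {x : β // sz x = n} → β) := by
      intro x' hx'
      exact ⟨⟨x', (hy x' hx').trans x.2⟩, rfl⟩
    set y' := Finsupp.comapDomain (Subtype.val : {x : β // sz x = n} → β) y
      Subtype.val_injective.injOn with hy'
    have hyy : Finsupp.mapDomain Subtype.val y' = y :=
      Finsupp.mapDomain_comapDomain _ Subtype.val_injective y hy1
    refine mem_Ty.mpr ⟨Finsupp.mapDomain (fun x' => (x', v')) y', fun _ _ => trivial,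
      fun p => ?_⟩
    obtain ⟨z, hz, hz'⟩ := h p
    refine ⟨ev (gr LL ρ : MonoidAlgebra LL C →+* L) (fun a : B × β => b a.2 (bP a.1)) z *
      wd (fun a : B × β => b a.2 (bP a.1)) v, ?_, ?_⟩
    · refine mul_wd_mem ρ _ _ (ev_mem_spW z fun u hu a ha => ?_) v hv
      have := hz' u hu a ha
      rw [x.2] at this
      exact this
    · rw [← mul_assoc, hz, add_mul]
      congr 1
      have e1 : tl (fun e => ρ e) b y p =
          tl (fun e => ρ e) (fun x' : {x : β // sz x = n} => b x'.1) y' p := by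
        have := tl_map (LL := LL) (LinearMap.id : L →ₗ[LL] L) (fun e => ρ e)
          (fun x' : {x : β // sz x = n} => b x'.1) (fun e => ρ e) b Subtype.val
          (fun _ _ _ => rfl) y' p
        rw [hyy] at this
        exact this.symm
      rw [e1]
      refine tl_map (LL := LL) (LinearMap.mulRight LL
        (wd (fun a : B × β => b a.2 (bP a.1)) v)) (fun e => ρ e)
        (fun x' : {x : β // sz x = n} => b x'.1) (fun e => ρ e) (wL bP b n)
        (fun x' => (x', v')) (fun e j p' => ?_) y' p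
      change ρ e * b j.1 p' * wd _ v = ρ e * (b j.1 p' * wd _ (v'.map Subtype.val))
      rw [hv', mul_assoc]
  | zero =>
    have : (fun p => b x.1 p * (0 : L)) = 0 := by
      funext p
      exact mul_zero _
    rw [this]
    exact zero_mem _
  | add q q' _ _ h h' =>
    have : (fun p => b x.1 p * (q + q')) = (fun p => b x.1 p * q) + fun p => b x.1 p * q' := by
      funext p
      exact mul_add _ _ _
    rw [this]
    exact add_mem h h'
  | smul l q _ h =>
    have : (fun p => b x.1 p * (l • q)) = l • fun p => b x.1 p * q := by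
      funext p
      exact mul_smul_comm _ _ _
    rw [this]
    exact Submodule.smul_mem _ _ h

/-- The index equivalence. -/
def ixE (B : Type) {β Λ : Type} (P : β → Prop) :
    B × ({x : β // P x} × Λ) ≃ {a : B × β // P a.2} × Λ where
  toFun t := (⟨(t.1, t.2.1.1), t.2.1.2⟩, t.2.2)
  invFun t := (t.1.1.1, (⟨t.1.1.2, t.1.2⟩, t.2))
  left_inv _ := rfl
  right_inv _ := rfl

theorem isLTP_step (n : ℕ) : IsLTP LL bP (inc (blk_of_blkP hB) n)
    (rhoS (blk_clo (blk_of_blkP hB) n)) (wt hB n) where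
  free := by
    have h := freeW_equiv _ _ (ixE B (Λ := List {a : B × β // sz a.2 < n}) fun x => sz x = n)
      (free_step (blk_of_blkP hB) n)
    exact h
  right := by
    rintro ⟨x, u⟩ q
    have hq : ((wd (xs (blk_of_blkP hB) n) u * q : SA (blk_clo (blk_of_blkP hB) n)) : L) ∈
        spW LL ρ (fun a : B × β => b a.2 (bP a.1)) (fun a => sz a.2 < n) :=
      (wd (xs (blk_of_blkP hB) n) u * q).2
    obtain ⟨X, _, hX⟩ := mem_Ty.mp (right_ty hB n x _ hq)
    refine ⟨X, fun p => ?_⟩
    obtain ⟨m, hm, e⟩ := hX p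
    refine ⟨⟨m, hm⟩, Subtype.ext ?_⟩
    have e1 : ((wt hB n (x, u) p * inc (blk_of_blkP hB) n q :
        SA (blk_clo (blk_of_blkP hB) (n + 1))) : L) =
        b x.1 p * ((wd (xs (blk_of_blkP hB) n) u * q : SA (blk_clo (blk_of_blkP hB) n)) : L) := by
      change b x.1 p * _ * (q : L) = b x.1 p * (_ * (q : L))
      rw [mul_assoc]
      rfl
    have e2 : ((tl (fun e => inc (blk_of_blkP hB) n (rhoS (blk_clo (blk_of_blkP hB) n) e))
        (wt hB n) X p : SA (blk_clo (blk_of_blkP hB) (n + 1))) : L) =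
        tl (fun e => ρ e) (wL bP b n) X p := by
      have := tl_map (LL := LL) (SA (blk_clo (blk_of_blkP hB) (n + 1))).val.toLinearMap
        (fun e => inc (blk_of_blkP hB) n (rhoS (blk_clo (blk_of_blkP hB) n) e)) (wt hB n)
        (fun e => ρ e) (wL bP b n) id (fun e j p' => by
          change ρ e * ((wt hB n j p' : SA (blk_clo (blk_of_blkP hB) (n + 1))) : L) = _
          rw [wt_coe]
          rfl) X p
      rw [Finsupp.mapDomain_id] at this
      exact this
    rw [e1]
    change b x.1 p * _ = _ at e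
    rw [e, Subalgebra.coe_add, e2, add_comm]
    rfl
  ret := (isLT_step (blk_of_blkP hB) n).ret

theorem kt_stepP (n : ℕ) (hS : SLP LL C P) :
    KT (inc (blk_of_blkP hB) n : SA (blk_clo (blk_of_blkP hB) n) →+*
      SA (blk_clo (blk_of_blkP hB) (n + 1))) := by
  have := free_SA (blk_of_blkP hB) n
  exact hS (SA (blk_clo (blk_of_blkP hB) n)) (SA (blk_clo (blk_of_blkP hB) (n + 1)))
    ({x : β // sz x = n} × List {a : B × β // sz a.2 < n}) B bP (inc (blk_of_blkP hB) n)
    (rhoS (blk_clo (blk_of_blkP hB) n)) (wt hB n) (isLTP_step hB n)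

end Chain

section Union

variable {LL : Type} [CommRing LL] {C L β : Type} [Group C] [Ring L] [Algebra LL L]
  {ρ : C →* L} {b : β → L} {sz : β → ℕ}

theorem kt_n_of (hB : Blk LL ρ b sz)
    (hK : ∀ n, KT (inc hB n : SA (blk_clo hB n) →+* SA (blk_clo hB (n + 1)))) (n : ℕ) :
    KT (gr LL (rhoS (blk_clo hB n)) : MonoidAlgebra LL C →+* SA (blk_clo hB n)) := by
  induction n with
  | zero => exact kt_zero hB
  | succ n ih =>
    have h := KT.comp ih (hK n)
    have e : (inc hB n : SA (blk_clo hB n) →+* SA (blk_clo hB (n + 1))).comp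
        (gr LL (rhoS (blk_clo hB n)) : MonoidAlgebra LL C →+* SA (blk_clo hB n)) =
        (gr LL (rhoS (blk_clo hB (n + 1))) : MonoidAlgebra LL C →+* _) := by
      refine RingHom.ext fun r => Subtype.ext ?_
      exact (gr_rhoS (blk_clo hB n) r).trans (gr_rhoS (blk_clo hB (n + 1)) r).symm
    rw [e] at h
    exact h

theorem blk_kt_of (hB : Blk LL ρ b sz)
    (hK : ∀ n, KT (inc hB n : SA (blk_clo hB n) →+* SA (blk_clo hB (n + 1)))) :
    KT (gr LL ρ : MonoidAlgebra LL C →+* L) := by
  refine KT.of_union (fun n => SA (blk_clo hB n))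
    (fun n => (gr LL (rhoS (blk_clo hB n)) : MonoidAlgebra LL C →+* SA (blk_clo hB n)))
    (fun n => ((SA (blk_clo hB n)).val : SA (blk_clo hB n) →+* L))
    (fun n => Subtype.val_injective) (fun n a => gr_rhoS (blk_clo hB n) a)
    (fun n => kt_n_of hB hK n) ?_
  intro x
  obtain ⟨z, hz⟩ := hB.free.2 x
  set N : ℕ := z.support.sup (fun u => (u.map sz).sum + 1) with hN
  refine ⟨N, fun m hm => ⟨⟨x, ?_⟩, rfl⟩⟩
  change x ∈ spW LL ρ b (fun a => sz a < m)
  rw [← hz]
  refine ev_mem_spW z fun u hu a ha => ?_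
  have h1 : sz a ≤ (u.map sz).sum := List.single_le_sum (by simp) _ (List.mem_map_of_mem ha)
  have h2 : (u.map sz).sum + 1 ≤ N := Finset.le_sup (f := fun u => (u.map sz).sum + 1) hu
  change sz a < m
  omega

end Union

/-- Typed block theorem without base change. -/
theorem blkp_self {LL : Type} [CommRing LL] {C L β P B : Type} [Group C] [Ring L] [Algebra LL L]
    [AddCommGroup P] [DistribMulAction C P] {bP : Module.Basis B ℤ P}
    {ρ : C →* L} {b : β → P →+ L} {sz : β → ℕ} (hB : BlkP LL bP ρ b sz) (hS : SLP LL C P) :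
    KT (gr LL ρ : MonoidAlgebra LL C →+* L) :=
  blk_kt_of (blk_of_blkP hB) fun n => kt_stepP hB n hS

end Pool.Agent.Hier.LB
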