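import Pool.Agent.Lib.MP_8f66f0_al_HierZ.TyB

/-! Typed block data: base change, and the theorem `blkp`. -/

set_option autoImplicit false

namespace Pool.Agent.Hier.LB

open Pool.Agent.Wald Pool.Agent.Ind Pool.Agent.Hier Function
open scoped TensorProduct

section BC

variable {LL : Type} [CommRing LL] {C L β P B : Type} [Group C] [Ring L] [Algebra LL L]
  [AddCommGroup P] [DistribMulAction C P] (LL' : Type) [CommRing LL'] [Algebra LL LL']

/-- The typed letters after base change. -/
noncomputable def bcb (b : β → P →+ L) (x : β) : P →+ LL' ⊗[LL] L :=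
  ((Algebra.TensorProduct.includeRight : L →ₐ[LL] LL' ⊗[LL] L) : L →+ LL' ⊗[LL] L).comp (b x)

theorem bcb_apply (b : β → P →+ L) (x : β) (p : P) :
    bcb LL' b x p = (1 : LL') ⊗ₜ[LL] b x p := rfl

theorem inc_tl (ρ : C →* L) (b : β → P →+ L) (y : β →₀ MonoidAlgebra LL C) (p : P) :
    (1 : LL') ⊗ₜ[LL] tl (fun e => ρ e) b y p =
      tl (fun e => bch LL LL' ρ e) (bcb LL' b) (Finsupp.mapRange (mr LL') (map_zero _) y) p := by
  induction y using Finsupp.induction_linear with
  | zero =>
    have h1 := (tlL (LL := LL) (fun e => ρ e) b p).map_zero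
    have h2 := (tlL (LL := LL') (fun e => bch LL LL' ρ e) (bcb LL' b) p).map_zero
    rw [tlL_apply] at h1 h2
    rw [h1, Finsupp.mapRange_zero, h2, TensorProduct.tmul_zero]
  | add x y hx hy =>
    have h1 := (tlL (LL := LL) (fun e => ρ e) b p).map_add x y
    have h2 := (tlL (LL := LL') (fun e => bch LL LL' ρ e) (bcb LL' b) p).map_add
      (Finsupp.mapRange (mr LL') (map_zero _) x) (Finsupp.mapRange (mr LL') (map_zero _) y)
    simp only [tlL_apply] at h1 h2
    rw [h1, TensorProduct.tmul_add, hx, hy, Finsupp.mapRange_add (map_add _), h2]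
  | single j r =>
    induction r using MonoidAlgebra.induction_linear with
    | zero =>
      have h1 := (tlL (LL := LL) (fun e => ρ e) b p).map_zero
      have h2 := (tlL (LL := LL') (fun e => bch LL LL' ρ e) (bcb LL' b) p).map_zero
      rw [tlL_apply] at h1 h2
      rw [Finsupp.single_zero, h1, Finsupp.mapRange_zero, h2, TensorProduct.tmul_zero]
    | add r s hr hs =>
      have h1 := (tlL (LL := LL) (fun e => ρ e) b p).map_add (Finsupp.single j r)
        (Finsupp.single j s)
      have h2 := (tlL (LL := LL') (fun e => bch LL LL' ρ e) (bcb LL' b) p).map_add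
        (Finsupp.mapRange (mr LL') (map_zero _) (Finsupp.single j r))
        (Finsupp.mapRange (mr LL') (map_zero _) (Finsupp.single j s))
      simp only [tlL_apply] at h1 h2
      rw [Finsupp.single_add, h1, TensorProduct.tmul_add, hr, hs,
        Finsupp.mapRange_add (map_add _), h2]
    | single e t =>
      rw [Finsupp.mapRange_single, mr_single, tl_single, tl_single, bcb_apply, bch_apply,
        Algebra.TensorProduct.tmul_mul_tmul, one_mul, TensorProduct.tmul_smul,
        TensorProduct.smul_tmul', TensorProduct.smul_tmul']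
      simp [Algebra.smul_def]

theorem blkP_bc {bP : Module.Basis B ℤ P} {ρ : C →* L} {b : β → P →+ L} {sz : β → ℕ}
    (hB : BlkP LL bP ρ b sz) : BlkP LL' bP (bch LL LL' ρ) (bcb LL' b) sz where
  free := free_bc LL' ρ (fun a : B × β => b a.2 (bP a.1)) hB.free
  tri := by
    intro x c
    obtain ⟨y, hy, h⟩ := hB.tri x c
    refine ⟨Finsupp.mapRange (mr LL') (map_zero _) y,
      fun x' hx' => hy x' (Finsupp.support_mapRange hx'), fun p => ?_⟩
    obtain ⟨z, hz, hz'⟩ := h p
    refine ⟨Finsupp.mapRange (mr LL') (map_zero _) z, ?_, fun u hu =>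
      hz' u (Finsupp.support_mapRange hu)⟩
    have h1 := inc_ev LL' ρ (fun a : B × β => b a.2 (bP a.1)) z
    change _ = ev _ (fun a : B × β => bcb LL' b a.2 (bP a.1)) _ at h1
    rw [← h1, ← inc_tl, ← TensorProduct.tmul_add, ← hz, bcb_apply, bch_apply,
      Algebra.TensorProduct.tmul_mul_tmul, one_mul]

end BC

/-- **Typed blocks and the chain.** -/
theorem blkp : S_blkp := by
  intro LL LL' C L β P B _ _ _ _ _ _ _ _ bP ρ b sz hB hS
  exact blkp_self (blkP_bc LL' hB) hS

end Pool.Agent.Hier.LB
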